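import Mathlib

/-! The projective plane over a field and its structure morphism. -/

open CategoryTheory AlgebraicGeometry MvPolynomial

universe u

namespace H18
variable (k : Type u) [Field k]

/-- The standard grading of the polynomial ring in three variables over `k`. -/
noncomputable abbrev gr : ℕ → Submodule k (MvPolynomial (Fin 3) k) :=
  MvPolynomial.homogeneousSubmodule (Fin 3) k

noncomputable instance : GradedRing (gr k) := MvPolynomial.gradedAlgebra

/-- The projective plane over `k`. -/
noncomputable abbrev PP : Scheme.{u} := Proj (gr k)

/-- The inclusion of `k` as the constants in degree zero. -/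
noncomputable def cz : k →+* gr k 0 where
  toFun c := ⟨C c, isHomogeneous_C _ c⟩
  map_one' := Subtype.ext (by simp)
  map_mul' a b := Subtype.ext (by simp)
  map_zero' := Subtype.ext (by simp)
  map_add' a b := Subtype.ext (by simp)

/-- The structure morphism of the projective plane. -/
noncomputable def str : PP k ⟶ Spec (.of k) :=
  Proj.toSpecZero (gr k) ≫ Spec.map (CommRingCat.ofHom (cz k))

end H18
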