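import Mathlib
import Pool.Agent.H18.P2Def

/-! Dehomogenization: the degree zero part of the localization of a polynomial ring in three
variables at a variable is a polynomial ring in two variables. -/

open HomogeneousLocalization MvPolynomial

universe u

set_option maxHeartbeats 400000

namespace H18
variable (k : Type u) [Field k]

lemma X_mem (j : Fin 3) : (X j : MvPolynomial (Fin 3) k) ∈ gr k 1 := isHomogeneous_X k j

/-- the fraction of two variables -/
noncomputable def fr (j a : Fin 3) : HomogeneousLocalization.Away (gr k) (X j) :=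
  Away.isLocalizationElem (X_mem k j) (X_mem k a)

noncomputable def sc (f : MvPolynomial (Fin 3) k) :
    k →+* HomogeneousLocalization.Away (gr k) f :=
  (fromZeroRingHom (gr k) _).comp (cz k)

/-- the embedding into the full localization -/
noncomputable def vl (f : MvPolynomial (Fin 3) k) :
    HomogeneousLocalization.Away (gr k) f →+* Localization.Away f :=
  algebraMap _ _

/-- the localization map -/
noncomputable def loc (f : MvPolynomial (Fin 3) k) :
    MvPolynomial (Fin 3) k →+* Localization.Away f :=
  algebraMap _ _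

lemma isUnit_loc (f : MvPolynomial (Fin 3) k) : IsUnit (loc k f f) :=
  IsLocalization.Away.algebraMap_isUnit (S := Localization.Away f) f

lemma vl_apply (f : MvPolynomial (Fin 3) k) (x : HomogeneousLocalization.Away (gr k) f) :
    vl k f x = x.val := rfl

lemma vl_injective (f : MvPolynomial (Fin 3) k) : Function.Injective (vl k f) :=
  val_injective _

lemma vl_sc (f : MvPolynomial (Fin 3) k) (c : k) :
    vl k f (sc k f c) = loc k f (C c) := by
  rfl

lemma vl_fr (j a : Fin 3) :
    vl k (X j) (fr k j a) * loc k (X j) (X j) = loc k (X j) (X a) := by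
  rw [vl_apply, fr, Away.isLocalizationElem, Away.val_mk, Localization.mk_eq_mk']
  simp only [pow_one]
  exact IsLocalization.mk'_spec _ _ _

lemma fr_self (j : Fin 3) : fr k j j = 1 := by
  apply vl_injective
  rw [map_one]
  have h := vl_fr k j j
  exact (isUnit_loc k (X j)).mul_left_injective (by simpa using h)

lemma eval₂_scale {S : Type*} [CommRing S] (g : k →+* S) (u : Fin 3 → S) (t : S)
    {F : MvPolynomial (Fin 3) k} {n : ℕ} (hF : F.IsHomogeneous n) :
    eval₂ g u F * t ^ n = eval₂ g (fun i => u i * t) F := by
  rw [eval₂_eq', eval₂_eq', Finset.sum_mul]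
  refine Finset.sum_congr rfl fun d hd => ?_
  have h1 : ∑ i, d i = n := by
    have := hF (mem_support_iff.1 hd)
    rw [Finsupp.weight_apply, Finsupp.sum_fintype _ _ (by simp)] at this
    simpa using this
  rw [mul_assoc, ← h1, ← Finset.prod_pow_eq_pow_sum, ← Finset.prod_mul_distrib]
  simp only [mul_pow]

/-- evaluation at the fractions -/
noncomputable def e3 (j : Fin 3) :
    MvPolynomial (Fin 3) k →+* HomogeneousLocalization.Away (gr k) (X j) :=
  eval₂Hom (sc k (X j)) (fr k j)

lemma vl_e3 (j : Fin 3) {F : MvPolynomial (Fin 3) k} {n : ℕ} (hF : F.IsHomogeneous n) :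
    vl k (X j) (e3 k j F) * loc k (X j) (X j) ^ n = loc k (X j) F := by
  have h1 : vl k (X j) (e3 k j F) =
      eval₂ ((loc k (X j)).comp C) (fun i => vl k (X j) (fr k j i)) F := by
    rw [e3, coe_eval₂Hom, hom_eval₂]
    rfl
  rw [h1, eval₂_scale k _ _ _ hF]
  simp only [vl_fr]
  have h2 : loc k (X j) F = loc k (X j) (eval₂ C X F) := by rw [eval₂_eta]
  rw [h2, hom_eval₂]

lemma e3_surjective (j : Fin 3) : Function.Surjective (e3 k j) := by
  intro x
  obtain ⟨n, F, hF, rfl⟩ := Away.mk_surjective (gr k) (X_mem k j) x
  refine ⟨F, ?_⟩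
  apply vl_injective
  have hF' : F.IsHomogeneous n := by
    have : F ∈ gr k (n • 1) := hF
    rwa [smul_eq_mul, mul_one] at this
  have hu : IsUnit (loc k (X j) (X j) ^ n) := (isUnit_loc k (X j)).pow n
  apply hu.mul_left_injective
  simp only
  rw [vl_e3 k j hF', vl_apply, Away.val_mk, Localization.mk_eq_mk', ← map_pow]
  exact (IsLocalization.mk'_spec _ _ _).symm

/-- evaluation at the fractions, in two variables -/
noncomputable def dh (j : Fin 3) :
    MvPolynomial (Fin 2) k →+* HomogeneousLocalization.Away (gr k) (X j) :=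
  eval₂Hom (sc k (X j)) (fun i => fr k j (j.succAbove i))

/-- set the `j`-th variable to one -/
noncomputable def dehom (j : Fin 3) : MvPolynomial (Fin 3) k →+* MvPolynomial (Fin 2) k :=
  eval₂Hom C (j.insertNth (α := fun _ => MvPolynomial (Fin 2) k) 1 X)

lemma dehom_self (j : Fin 3) : dehom k j (X j) = 1 := by
  simp [dehom]

lemma dehom_succAbove (j : Fin 3) (i : Fin 2) : dehom k j (X (j.succAbove i)) = X i := by
  simp [dehom]

lemma dehom_C (j : Fin 3) (c : k) : dehom k j (C c) = C c := by
  simp [dehom]

lemma dh_dehom (j : Fin 3) : (dh k j).comp (dehom k j) = e3 k j := by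
  apply ringHom_ext
  · intro c
    simp [dehom_C, dh, e3]
  · intro i
    by_cases h : i = j
    · subst h
      rw [RingHom.comp_apply, dehom_self, map_one, e3, eval₂Hom_X', fr_self]
    · obtain ⟨i', rfl⟩ := Fin.exists_succAbove_eq h
      rw [RingHom.comp_apply, dehom_succAbove, e3, eval₂Hom_X', dh, eval₂Hom_X']

lemma dh_surjective (j : Fin 3) : Function.Surjective (dh k j) := by
  intro x
  obtain ⟨F, rfl⟩ := e3_surjective k j x
  exact ⟨dehom k j F, congr($(dh_dehom k j) F)⟩

/-- the retraction -/
noncomputable def ret (j : Fin 3) :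
    HomogeneousLocalization.Away (gr k) (X j) →+* MvPolynomial (Fin 2) k :=
  (IsLocalization.Away.lift (S := Localization.Away (X j : MvPolynomial (Fin 3) k)) (X j)
    (g := dehom k j) (by rw [dehom_self]; exact isUnit_one)).comp (vl k (X j))

lemma ret_dh (j : Fin 3) : (ret k j).comp (dh k j) = RingHom.id _ := by
  have hlift : ∀ F, (IsLocalization.Away.lift (S := Localization.Away
      (X j : MvPolynomial (Fin 3) k)) (X j)
    (g := dehom k j) (by rw [dehom_self]; exact isUnit_one)) (loc k (X j) F) = dehom k j F :=
    fun F => IsLocalization.Away.lift_eq _ _ _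
  apply ringHom_ext
  · intro c
    rw [RingHom.comp_apply, dh, eval₂Hom_C, ret, RingHom.comp_apply, vl_sc, hlift, dehom_C]
    rfl
  · intro i
    rw [RingHom.comp_apply, dh, eval₂Hom_X', ret, RingHom.comp_apply]
    have key : ∀ L : Localization.Away (X j : MvPolynomial (Fin 3) k) →+*
        MvPolynomial (Fin 2) k, (∀ F, L (loc k (X j) F) = dehom k j F) →
        L (vl k (X j) (fr k j (j.succAbove i))) = X i := by
      intro L hL
      have h := congrArg L (vl_fr k j (j.succAbove i))
      rwa [map_mul, hL, hL, dehom_self, mul_one, dehom_succAbove] at h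
    exact key _ hlift

lemma dh_injective (j : Fin 3) : Function.Injective (dh k j) := by
  intro x y h
  have h1 := congrArg (ret k j) h
  have h2 : ∀ x, ret k j (dh k j x) = x := fun x => congr($(ret_dh k j) x)
  rwa [h2, h2] at h1

/-- dehomogenization -/
noncomputable def dhEquiv (j : Fin 3) :
    MvPolynomial (Fin 2) k ≃+* HomogeneousLocalization.Away (gr k) (X j) :=
  RingEquiv.ofBijective (dh k j) ⟨dh_injective k j, dh_surjective k j⟩

end H18
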