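import Mathlib

/-! Global dimension of polynomial rings. -/

open CategoryTheory TensorProduct Polynomial

universe u

namespace H18

/-- every module has projective dimension at most `d` -/
def GD (B : Type u) [CommRing B] (d : ℕ) : Prop :=
  ∀ M : ModuleCat.{u} B, HasProjectiveDimensionLT M (d + 1)

lemma GD.mono {B : Type u} [CommRing B] {d e : ℕ} (h : GD B d) (hde : d ≤ e) : GD B e :=
  fun M => @hasProjectiveDimensionLT_of_ge _ _ _ M (d + 1) (e + 1) (by omega) (h M)

lemma GD.field (k : Type u) [Field k] : GD k 0 := fun M => by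
  rw [← projective_iff_hasProjectiveDimensionLT_one, ← IsProjective.iff_projective]
  exact Module.Projective.of_free

attribute [local instance] RingHomInvPair.of_ringEquiv in
lemma GD.of_ringEquiv {B B' : Type u} [CommRing B] [CommRing B'] (e : B ≃+* B') {d : ℕ}
    (h : GD B d) : GD B' d := fun M => by
  let N : ModuleCat.{u} B := (ModuleCat.restrictScalars e.toRingHom).obj M
  have hN : HasProjectiveDimensionLE N d := h N
  let e' : N ≃ₛₗ[RingHomClass.toRingHom e] M :=
    { toFun := fun x => x
      invFun := fun x => x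
      left_inv := fun _ => rfl
      right_inv := fun _ => rfl
      map_add' := fun _ _ => rfl
      map_smul' := fun _ _ => rfl }
  exact ModuleCat.hasProjectiveDimensionLE_of_semiLinearEquiv e e' d

section
variable {A : Type u} [CommRing A]

lemma shortExact_of_fun {B : Type u} [CommRing B] {M N P : Type u} [AddCommGroup M]
    [AddCommGroup N] [AddCommGroup P] [Module B M] [Module B N] [Module B P]
    (f : M →ₗ[B] N) (g : N →ₗ[B] P) (hf : Function.Injective f) (hg : Function.Surjective g)
    (h : Function.Exact f g) :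
    (ShortComplex.mk (ModuleCat.ofHom f) (ModuleCat.ofHom g) (by
      ext x; exact h.apply_apply_eq_zero x)).ShortExact where
  exact := by
    rw [ShortComplex.ShortExact.moduleCat_exact_iff_function_exact]
    exact h
  mono_f := (ModuleCat.mono_iff_injective _).2 hf
  epi_g := (ModuleCat.epi_iff_surjective _).2 hg

lemma pd_baseChange (S : Type u) [CommRing S] [Algebra A S] [Module.Flat A S] (n : ℕ) :
    ∀ (M : Type u) [AddCommGroup M] [Module A M],
      HasProjectiveDimensionLT (ModuleCat.of A M) (n + 1) →
      HasProjectiveDimensionLT (ModuleCat.of S (S ⊗[A] M)) (n + 1) := by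
  induction n with
  | zero =>
    intro M _ _ h
    rw [← projective_iff_hasProjectiveDimensionLT_one, ← IsProjective.iff_projective] at h ⊢
    infer_instance
  | succ n ih =>
    intro M _ _ h
    let f : (M →₀ A) →ₗ[A] M := Finsupp.linearCombination A id
    have hf : Function.Surjective f := Finsupp.linearCombination_id_surjective A M
    let K := LinearMap.ker f
    have hex : Function.Exact K.subtype f := LinearMap.exact_subtype_ker_map f
    have hS := shortExact_of_fun (B := A) (M := K) (N := M →₀ A) (P := M) K.subtype f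
      K.injective_subtype hf hex
    have hS' := shortExact_of_fun (B := S) (M := S ⊗[A] K) (N := S ⊗[A] (M →₀ A))
      (P := S ⊗[A] M) (K.subtype.baseChange S) (f.baseChange S)
      (Module.Flat.lTensor_preserves_injective_linearMap (M := S) K.subtype
        K.injective_subtype)
      (LinearMap.lTensor_surjective S hf)
      (by
        have h5 := lTensor_exact (M := K) (N := M →₀ A) (P := M) (f := K.subtype) (g := f)
          S hex hf
        exact h5)
    have h1 : Projective (ModuleCat.of A (M →₀ A)) := by
      rw [← IsProjective.iff_projective]; infer_instance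
    have h2 : Projective (ModuleCat.of S (S ⊗[A] (M →₀ A))) := by
      rw [← IsProjective.iff_projective]; infer_instance
    have h3 := (hS.hasProjectiveDimensionLT_X₃_iff n h1).1 h
    exact (hS'.hasProjectiveDimensionLT_X₃_iff n h2).2 (ih _ h3)

variable (M : Type u) [AddCommGroup M] [Module A M] [Module A[X] M] [IsScalarTower A A[X] M]

/-- multiplication by the variable, as a linear map over the coefficients -/
noncomputable def tX : M →ₗ[A] M :=
  LinearMap.restrictScalars A (LinearMap.lsmul A[X] M (X : A[X]))

lemma tX_apply (m : M) : tX (A := A) M m = (X : A[X]) • m := rfl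

noncomputable def dX : A[X] ⊗[A] M →ₗ[A[X]] A[X] ⊗[A] M :=
  (X : A[X]) • LinearMap.id - (tX (A := A) M).baseChange A[X]

noncomputable def eX : A[X] ⊗[A] M →ₗ[A[X]] M :=
  LinearMap.liftBaseChange A[X] (LinearMap.id : M →ₗ[A] M)

lemma dX_tmul (p : A[X]) (m : M) :
    dX (A := A) M (p ⊗ₜ m) = (X * p) ⊗ₜ m - p ⊗ₜ ((X : A[X]) • m) := by
  simp [dX, tX_apply, smul_tmul']

lemma eX_tmul (p : A[X]) (m : M) : eX (A := A) M (p ⊗ₜ m) = p • m := by
  simp [eX]

lemma eX_dX (z : A[X] ⊗[A] M) : eX (A := A) M (dX M z) = 0 := by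
  induction z using TensorProduct.induction_on with
  | zero => simp
  | tmul p m => rw [dX_tmul, map_sub, eX_tmul, eX_tmul, mul_comm, mul_smul, sub_self]
  | add x y hx hy => rw [map_add, map_add, hx, hy, add_zero]

lemma sub_mem_range (z : A[X] ⊗[A] M) :
    z - 1 ⊗ₜ (eX (A := A) M z) ∈ LinearMap.range (dX (A := A) M) := by
  induction z using TensorProduct.induction_on with
  | zero => simp
  | add x y hx hy =>
    rw [map_add, tmul_add, add_sub_add_comm]
    exact add_mem hx hy
  | tmul p m =>
    induction p using Polynomial.induction_on' generalizing m with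
    | add p q hp hq =>
      rw [add_tmul, map_add, tmul_add, add_sub_add_comm]
      exact add_mem (hp m) (hq m)
    | monomial n a =>
      induction n generalizing m with
      | zero =>
        have h : (monomial 0 a : A[X]) ⊗ₜ[A] m - 1 ⊗ₜ (eX (A := A) M (monomial 0 a ⊗ₜ m)) = 0 := by
          have h1 : (monomial 0 a : A[X]) = a • 1 := by simp [smul_eq_C_mul]
          rw [eX_tmul, h1, smul_tmul, smul_assoc, one_smul, sub_self]
        rw [h]; exact zero_mem _
      | succ n ih =>
        have h1 : (monomial (n + 1) a : A[X]) = X * monomial n a := by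
          rw [X_mul_monomial]
        have h2 := ih ((X : A[X]) • m)
        have h3 : dX (A := A) M (monomial n a ⊗ₜ m) ∈ LinearMap.range (dX (A := A) M) :=
          ⟨_, rfl⟩
        have h4 := add_mem h3 h2
        rw [dX_tmul, ← h1, eX_tmul, smul_smul, mul_comm, ← h1, sub_add_sub_cancel] at h4
        rw [eX_tmul]
        exact h4

/-- coefficients -/
noncomputable def cf (n : ℕ) : A[X] ⊗[A] M →ₗ[A] M :=
  (TensorProduct.lid A M).toLinearMap ∘ₗ LinearMap.rTensor M (Polynomial.lcoeff A n)

lemma cf_tmul (n : ℕ) (p : A[X]) (m : M) : cf M n (p ⊗ₜ[A] m) = p.coeff n • m := by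
  simp [cf]

lemma cf_succ (n : ℕ) (z : A[X] ⊗[A] M) :
    cf M (n + 1) (dX M z) = cf M n z - (X : A[X]) • cf M (n + 1) z := by
  induction z using TensorProduct.induction_on with
  | zero => simp
  | tmul p m =>
    rw [dX_tmul, map_sub, cf_tmul, cf_tmul, cf_tmul, cf_tmul, coeff_X_mul,
      smul_comm (p.coeff (n + 1)) (X : A[X]) m]
  | add x y hx hy =>
    rw [map_add, map_add, hx, hy, map_add, map_add, smul_add]
    abel

lemma exists_sum (z : A[X] ⊗[A] M) : ∃ N : ℕ, ∀ N' ≥ N,
    ∑ n ∈ Finset.range N', (X ^ n : A[X]) ⊗ₜ[A] (cf M n z) = z := by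
  induction z using TensorProduct.induction_on with
  | zero => exact ⟨0, fun N' _ => by simp⟩
  | tmul p m =>
    refine ⟨p.natDegree + 1, fun N' hN' => ?_⟩
    have h1 : ∀ n, (X ^ n : A[X]) ⊗ₜ[A] (cf M n (p ⊗ₜ m)) = (p.coeff n • X ^ n : A[X]) ⊗ₜ m := by
      intro n; rw [cf_tmul, smul_tmul]
    simp only [h1]
    rw [← sum_tmul]
    congr 1
    have := p.as_sum_range' N' (by omega)
    conv_rhs => rw [this]
    exact Finset.sum_congr rfl fun n _ => by rw [smul_X_eq_monomial]
  | add x y hx hy =>
    obtain ⟨N, hN⟩ := hx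
    obtain ⟨N₁, hN₁⟩ := hy
    refine ⟨max N N₁, fun N' hN' => ?_⟩
    simp only [map_add, tmul_add]
    rw [Finset.sum_add_distrib, hN _ (le_trans (le_max_left _ _) hN'),
      hN₁ _ (le_trans (le_max_right _ _) hN')]

lemma exists_cf_zero (z : A[X] ⊗[A] M) : ∃ N : ℕ, ∀ N' ≥ N, cf M N' z = 0 := by
  induction z using TensorProduct.induction_on with
  | zero => exact ⟨0, fun N' _ => by simp⟩
  | tmul p m =>
    refine ⟨p.natDegree + 1, fun N' hN' => ?_⟩
    rw [cf_tmul, coeff_eq_zero_of_natDegree_lt (by omega), zero_smul]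
  | add x y hx hy =>
    obtain ⟨N, hN⟩ := hx
    obtain ⟨N₁, hN₁⟩ := hy
    refine ⟨max N N₁, fun N' hN' => ?_⟩
    rw [map_add, hN _ (le_trans (le_max_left _ _) hN'),
      hN₁ _ (le_trans (le_max_right _ _) hN'), add_zero]

lemma dX_injective : Function.Injective (dX (A := A) M) := by
  rw [injective_iff_map_eq_zero]
  intro z hz
  have h1 : ∀ n, cf M n z = (X : A[X]) • cf M (n + 1) z := by
    intro n
    have := cf_succ M n z
    rw [hz, map_zero] at this
    exact (sub_eq_zero.1 this.symm)
  obtain ⟨N, hN⟩ := exists_cf_zero M z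
  have h2 : ∀ k n, cf M (n + k) z = 0 → cf M n z = 0 := by
    intro k
    induction k with
    | zero => intro n h; exact h
    | succ k ih =>
      intro n h
      apply ih
      rw [h1, add_assoc, h, smul_zero]
  obtain ⟨N', hN'⟩ := exists_sum M z
  rw [← hN' N' le_rfl]
  apply Finset.sum_eq_zero
  intro n _
  rw [h2 N n (hN _ (by omega)), tmul_zero]

lemma dX_eX_exact : Function.Exact (dX (A := A) M) (eX M) := by
  intro z
  constructor
  · intro h
    have := sub_mem_range M z
    rwa [h, tmul_zero, sub_zero] at this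
  · rintro ⟨y, rfl⟩
    exact eX_dX M y

lemma eX_surjective : Function.Surjective (eX (A := A) M) := fun m =>
  ⟨1 ⊗ₜ m, by rw [eX_tmul, one_smul]⟩

end

/-- adjoining a variable raises the global dimension by at most one -/
theorem GD.polynomial {A : Type u} [CommRing A] {d : ℕ} (h : GD A d) : GD A[X] (d + 1) := by
  intro M
  let _ : Module A M := Module.compHom M (algebraMap A A[X])
  have : IsScalarTower A A[X] M := ⟨fun a p m => by
    change (a • p) • m = (algebraMap A A[X] a) • (p • m)
    rw [Algebra.smul_def, mul_smul]⟩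
  have hS := shortExact_of_fun (dX (A := A) M) (eX M) (dX_injective M) (eX_surjective M)
    (dX_eX_exact M)
  have h1 : HasProjectiveDimensionLT (ModuleCat.of A[X] (A[X] ⊗[A] M)) (d + 1) :=
    pd_baseChange A[X] d M (h (ModuleCat.of A M))
  exact hS.hasProjectiveDimensionLT_X₃ (d + 1) h1
    (@hasProjectiveDimensionLT_of_ge _ _ _ _ (d + 1) (d + 1 + 1) (by omega) h1)

lemma GD.mvPolynomial (k : Type u) [Field k] (n : ℕ) : GD (MvPolynomial (Fin n) k) n := by
  induction n with
  | zero => exact (GD.field k).of_ringEquiv (MvPolynomial.isEmptyRingEquiv k (Fin 0)).symm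
  | succ n ih => exact ih.polynomial.of_ringEquiv (MvPolynomial.finSuccEquiv k n).symm.toRingEquiv

end H18
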