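import Mathlib

/-! Abstract devissage: objects with projective sections are generated by twists. -/

open CategoryTheory Limits

universe v u w

namespace H18

variable {C : Type u} [Category.{v} C] [Abelian C]

attribute [local instance] Abelian.hasFiniteBiproducts

/-- Classes of objects in an abelian category which satisfy the two out of three property for
short exact sequences and are closed under summands. -/
structure IsDev (G : ObjectProperty C) : Prop where
  iso : ∀ {X Y : C}, (X ≅ Y) → G X → G Y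
  zero : ∀ {X : C}, IsZero X → G X
  left : ∀ {S : ShortComplex C}, S.ShortExact → G S.X₂ → G S.X₃ → G S.X₁
  mid : ∀ {S : ShortComplex C}, S.ShortExact → G S.X₁ → G S.X₃ → G S.X₂
  right : ∀ {S : ShortComplex C}, S.ShortExact → G S.X₁ → G S.X₂ → G S.X₃
  summand : ∀ {X Y : C}, G (X ⊞ Y) → G Y

/-- Classes of objects closed under kernels, cokernels and sums. -/
structure IsAb (P : ObjectProperty C) : Prop where
  iso : ∀ {X Y : C}, (X ≅ Y) → P X → P Y
  ker : ∀ {X Y : C} (f : X ⟶ Y), P X → P Y → P (kernel f)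
  coker : ∀ {X Y : C} (f : X ⟶ Y), P X → P Y → P (cokernel f)
  sum : ∀ {X Y : C}, P X → P Y → P (X ⊞ Y)

lemma shortExact_kernel {X Y : C} (f : X ⟶ Y) [Epi f] :
    (ShortComplex.mk (kernel.ι f) f (kernel.condition f)).ShortExact where
  exact := ShortComplex.exact_kernel f

lemma shortExact_cokernel {X Y : C} (f : X ⟶ Y) [Mono f] :
    (ShortComplex.mk f (cokernel.π f) (cokernel.condition f)).ShortExact where
  exact := ShortComplex.exact_cokernel f

/-- the image, as the kernel of the cokernel -/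
noncomputable abbrev im {X Y : C} (f : X ⟶ Y) : C := Abelian.image f

instance {X Y : C} (f : X ⟶ Y) : Epi (Abelian.factorThruImage f) := inferInstance

lemma shortExact_im_left {X Y : C} (f : X ⟶ Y) :
    (ShortComplex.mk (kernel.ι f) (Abelian.factorThruImage f) (by
      rw [← cancel_mono (Abelian.image.ι f), Category.assoc, Abelian.image.fac, zero_comp,
        kernel.condition])).ShortExact where
  exact := by
    apply ShortComplex.exact_of_f_is_kernel
    refine KernelFork.IsLimit.ofι _ _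
      (fun g hg => kernel.lift f g (by
        rw [← Abelian.image.fac f, ← Category.assoc, hg, zero_comp])) ?_ ?_
    · intro A g hg
      simp
    · intro A g hg m hm
      rw [← cancel_mono (kernel.ι f)]
      simpa using hm

lemma shortExact_im_right {X Y : C} (f : X ⟶ Y) :
    (ShortComplex.mk (Abelian.image.ι f) (cokernel.π f) (by
      exact kernel.condition _)).ShortExact where
  exact := ShortComplex.exact_kernel (cokernel.π f)
  mono_f := inferInstance
  epi_g := inferInstance

namespace IsDev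
variable {G : ObjectProperty C} (hG : IsDev G)
include hG

lemma of_ker_coker {X Y : C} (f : X ⟶ Y) (h1 : G (kernel f)) (h2 : G (cokernel f)) (hX : G X) :
    G Y :=
  hG.mid (shortExact_im_right f) (hG.right (shortExact_im_left f) h1 hX) h2

lemma of_epi {X Y : C} (f : X ⟶ Y) [Epi f] (h1 : G (kernel f)) (hX : G X) : G Y :=
  hG.right (shortExact_kernel f) h1 hX

lemma summand_left {X Y : C} (h : G (X ⊞ Y)) : G X :=
  hG.summand (hG.iso (biprod.braiding X Y) h)

lemma sum {X Y : C} (hX : G X) (hY : G Y) : G (X ⊞ Y) := by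
  have h : (ShortComplex.mk (biprod.inl : X ⟶ X ⊞ Y) biprod.snd biprod.inl_snd).ShortExact :=
    (ShortComplex.Splitting.ofHasBinaryBiproduct X Y).shortExact
  exact hG.mid h hX hY

end IsDev

section fin

lemma biproduct_fin_of_sum (P : ObjectProperty C) (hiso : ∀ {X Y : C}, (X ≅ Y) → P X → P Y)
    (hzero : ∀ {X : C}, IsZero X → P X) (hsum : ∀ {X Y : C}, P X → P Y → P (X ⊞ Y))
    {m : ℕ} (f : Fin m → C) (hf : ∀ i, P (f i)) : P (⨁ f) := by
  induction m with
  | zero =>
    apply hzero
    rw [IsZero.iff_id_eq_zero]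
    ext i
    exact i.elim0
  | succ m ih =>
    have h1 := hsum (hf 0) (ih (fun i => f i.succ) (fun i => hf _))
    refine hiso ?_ h1
    refine
      { hom := biprod.desc (biproduct.ι f 0) (biproduct.desc fun i => biproduct.ι f i.succ)
        inv := biproduct.desc (Fin.cases biprod.inl
          (fun i => biproduct.ι (fun i => f i.succ) i ≫ biprod.inr))
        hom_inv_id := ?_
        inv_hom_id := ?_ }
    · apply biprod.hom_ext'
      · simp
      · simp only [biprod.inr_desc_assoc]
        apply biproduct.hom_ext'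
        intro i
        simp
    · apply biproduct.hom_ext'
      intro i
      refine Fin.cases ?_ (fun i => ?_) i
      · simp
      · simp

end fin

section level

open Preadditive

lemma map_biproduct_ext {D : Type*} [Category* D] [Preadditive D] (Γ : C ⥤ D) [Γ.Additive]
    {m : ℕ} (f : Fin m → C) {Z : D} (a b : Γ.obj (⨁ f) ⟶ Z)
    (h : ∀ i, Γ.map (biproduct.ι f i) ≫ a = Γ.map (biproduct.ι f i) ≫ b) : a = b := by
  have h1 : 𝟙 (Γ.obj (⨁ f)) = ∑ i, Γ.map (biproduct.π f i) ≫ Γ.map (biproduct.ι f i) := by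
    rw [← Γ.map_id, ← biproduct.total, Functor.map_sum]
    simp
  rw [← Category.id_comp a, ← Category.id_comp b, h1, Preadditive.sum_comp, Preadditive.sum_comp]
  refine Finset.sum_congr rfl fun i _ => ?_
  rw [Category.assoc, Category.assoc, h i]

lemma mb_inv {D : Type*} [Category* D] [Preadditive D] [HasFiniteBiproducts D] (Γ : C ⥤ D)
    [Γ.Additive] {m : ℕ} (f : Fin m → C) (i : Fin m) :
    biproduct.ι (Γ.obj ∘ f) i ≫ (Γ.mapBiproduct f).inv = Γ.map (biproduct.ι f i) := by
  rw [Functor.mapBiproduct_inv]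
  exact biproduct.ι_desc _ _

lemma mb_hom {D : Type*} [Category* D] [Preadditive D] [HasFiniteBiproducts D] (Γ : C ⥤ D)
    [Γ.Additive] {m : ℕ} (f : Fin m → C) (i : Fin m) :
    Γ.map (biproduct.ι f i) ≫ (Γ.mapBiproduct f).hom = biproduct.ι (Γ.obj ∘ f) i := by
  rw [← Iso.eq_comp_inv, mb_inv]

lemma projective_map_biproduct {D : Type*} [Category* D] [Preadditive D] (Γ : C ⥤ D)
    [Γ.Additive] {m : ℕ} (f : Fin m → C) (h : ∀ i, Projective (Γ.obj (f i))) :
    Projective (Γ.obj (⨁ f)) where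
  factors {E X} a e he := by
    choose g hg using fun i => Projective.factors (Γ.map (biproduct.ι f i) ≫ a) e
    refine ⟨∑ i, Γ.map (biproduct.π f i) ≫ g i, ?_⟩
    rw [Preadditive.sum_comp]
    have h1 : 𝟙 (Γ.obj (⨁ f)) = ∑ i, Γ.map (biproduct.π f i) ≫ Γ.map (biproduct.ι f i) := by
      rw [← Γ.map_id, ← biproduct.total, Functor.map_sum]
      simp
    rw [← Category.id_comp a, h1, Preadditive.sum_comp]
    refine Finset.sum_congr rfl fun i _ => ?_
    rw [Category.assoc, Category.assoc, hg i]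

/-- If the sections of all objects have finite projective dimension over the base ring, if
objects without sections are in `G`, and if there are enough twists, then every object is in
`G`. -/
theorem level {G P : ObjectProperty C} (hG : IsDev G) (hP : IsAb P)
    (hP0 : ∀ {X : C}, IsZero X → P X)
    {B : Type w} [CommRing B] (Γ : C ⥤ ModuleCat.{w} B) [Γ.Additive]
    (hΓ : ∀ {S : ShortComplex C}, S.ShortExact → P S.X₁ → P S.X₂ → P S.X₃ →
      (S.map Γ).ShortExact)
    (R : ℕ → C) (hRG : ∀ n, G (R n)) (hRP : ∀ n, P (R n)) (e : ∀ n, Γ.obj (R n))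
    (he : ∀ n, Function.Bijective (fun b : B => b • e n))
    (ext : ∀ {F : C}, P F → ∀ s : Γ.obj F, ∃ (n : ℕ) (φ : R n ⟶ F), Γ.map φ (e n) = s)
    (epi : ∀ {F : C}, P F → ∃ (m : ℕ) (n : Fin m → ℕ) (π : (⨁ fun i => R (n i)) ⟶ F), Epi π)
    (hN : ∀ {F : C}, P F → IsZero (Γ.obj F) → G F) :
    ∀ (d : ℕ) {F : C}, P F → HasProjectiveDimensionLT (Γ.obj F) (d + 1) → G F := by
  -- sums of twists
  have hsumG : ∀ {m : ℕ} (n : Fin m → ℕ), G (⨁ fun i => R (n i)) := fun n =>
    biproduct_fin_of_sum G hG.iso hG.zero hG.sum _ (fun i => hRG _)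
  have hsumP : ∀ {m : ℕ} (n : Fin m → ℕ), P (⨁ fun i => R (n i)) := fun n =>
    biproduct_fin_of_sum P hP.iso hP0 hP.sum _ (fun i => hRP _)
  -- the comparison isomorphisms
  let θ : ∀ n, ModuleCat.of B B ≅ Γ.obj (R n) := fun n =>
    (LinearEquiv.ofBijective (LinearMap.toSpanSingleton B _ (e n)) (he n)).toModuleIso
  have hθ : ∀ n, (θ n).hom (1 : B) = e n := fun n => one_smul _ _
  have hinj : ∀ {X Y : C} (f : X ⟶ Y) [Mono f], P X → P Y → Mono (Γ.map f) := by
    intro X Y f _ hX hY
    exact (hΓ (shortExact_cokernel f) hX hY (hP.coker f hX hY)).mono_f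
  have hsurj : ∀ {X Y : C} (f : X ⟶ Y) [Epi f], P X → P Y → Epi (Γ.map f) := by
    intro X Y f _ hX hY
    exact (hΓ (shortExact_kernel f) (hP.ker f hX hY) hX hY).epi_g
  intro d
  induction d with
  | zero =>
    intro F hF hd
    have hproj : Projective (Γ.obj F) := projective_iff_hasProjectiveDimensionLT_one.2 hd
    obtain ⟨m, n, π, hπ⟩ := epi hF
    have hS := hΓ (shortExact_kernel π) (hP.ker π (hsumP n) hF) (hsumP n) hF
    have hproj' : Projective ((ShortComplex.mk (kernel.ι π) π (kernel.condition π)).map Γ).X₃ :=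
      hproj
    let K := kernel π
    obtain ⟨r, s, e1, e2, e3, e4⟩ : ∃ (r : Γ.obj (⨁ fun i => R (n i)) ⟶ Γ.obj K)
        (s : Γ.obj F ⟶ Γ.obj (⨁ fun i => R (n i))), Γ.map (kernel.ι π) ≫ r = 𝟙 _ ∧
        s ≫ Γ.map π = 𝟙 _ ∧ r ≫ Γ.map (kernel.ι π) + Γ.map π ≫ s = 𝟙 _ ∧ s ≫ r = 0 :=
      ⟨hS.splittingOfProjective.r, hS.splittingOfProjective.s, hS.splittingOfProjective.f_r,
        hS.splittingOfProjective.s_g, hS.splittingOfProjective.id,
        hS.splittingOfProjective.s_r⟩
    let β : Γ.obj (⨁ fun i => R (n i)) ⟶ Γ.obj (K ⊞ F) :=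
      r ≫ Γ.map biprod.inl + Γ.map π ≫ Γ.map biprod.inr
    let β' : Γ.obj (K ⊞ F) ⟶ Γ.obj (⨁ fun i => R (n i)) :=
      Γ.map biprod.fst ≫ Γ.map (kernel.ι π) + Γ.map biprod.snd ≫ s
    have e5 : Γ.map (kernel.ι π) ≫ Γ.map π = 0 := by
      rw [← Γ.map_comp, kernel.condition, Γ.map_zero]
    have a1 : Γ.map (biprod.inl : K ⟶ K ⊞ F) ≫ Γ.map biprod.fst = 𝟙 _ := by
      rw [← Γ.map_comp, biprod.inl_fst, Γ.map_id]
    have a2 : Γ.map (biprod.inl : K ⟶ K ⊞ F) ≫ Γ.map biprod.snd = 0 := by
      rw [← Γ.map_comp, biprod.inl_snd, Γ.map_zero]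
    have a3 : Γ.map (biprod.inr : F ⟶ K ⊞ F) ≫ Γ.map biprod.fst = 0 := by
      rw [← Γ.map_comp, biprod.inr_fst, Γ.map_zero]
    have a4 : Γ.map (biprod.inr : F ⟶ K ⊞ F) ≫ Γ.map biprod.snd = 𝟙 _ := by
      rw [← Γ.map_comp, biprod.inr_snd, Γ.map_id]
    have a5 : Γ.map biprod.fst ≫ Γ.map (biprod.inl : K ⟶ K ⊞ F) +
        Γ.map biprod.snd ≫ Γ.map (biprod.inr : F ⟶ K ⊞ F) = 𝟙 _ := by
      rw [← Γ.map_comp, ← Γ.map_comp, ← Γ.map_add, biprod.total, Γ.map_id]
    have hββ' : β ≫ β' = 𝟙 _ := by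
      simp only [β, β', add_comp, comp_add, Category.assoc]
      rw [← Category.assoc (Γ.map biprod.inl) (Γ.map biprod.fst), a1,
        ← Category.assoc (Γ.map biprod.inl) (Γ.map biprod.snd), a2,
        ← Category.assoc (Γ.map biprod.inr) (Γ.map biprod.fst), a3,
        ← Category.assoc (Γ.map biprod.inr) (Γ.map biprod.snd), a4]
      simpa using e3
    have hβ'β : β' ≫ β = 𝟙 _ := by
      simp only [β, β', add_comp, comp_add, Category.assoc]
      rw [← Category.assoc (Γ.map (kernel.ι π)) r, e1,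
        ← Category.assoc (Γ.map (kernel.ι π)) (Γ.map π), e5,
        ← Category.assoc s r, e4, ← Category.assoc s (Γ.map π), e2]
      simpa using a5
    have hKF : P (K ⊞ F) := hP.sum (hP.ker π (hsumP n) hF) hF
    choose n' φ hφ using fun i => ext hKF (β (Γ.map (biproduct.ι (fun i => R (n i)) i) (e (n i))))
    let ψ : (⨁ fun i => R (n' i)) ⟶ K ⊞ F := biproduct.desc φ
    let α : Γ.obj (⨁ fun i => R (n' i)) ≅ Γ.obj (⨁ fun i => R (n i)) :=
      Γ.mapBiproduct (fun i => R (n' i)) ≪≫
        biproduct.mapIso (f := Γ.obj ∘ (fun i => R (n' i))) (g := Γ.obj ∘ (fun i => R (n i)))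
          (fun i => (θ (n' i)).symm ≪≫ θ (n i)) ≪≫
        (Γ.mapBiproduct (fun i => R (n i))).symm
    have hψ : Γ.map ψ = α.hom ≫ β := by
      apply map_biproduct_ext Γ (fun i => R (n' i))
      intro i
      have h1 : Γ.map (biproduct.ι (fun i => R (n' i)) i) ≫ α.hom =
          ((θ (n' i)).inv ≫ (θ (n i)).hom) ≫ Γ.map (biproduct.ι (fun i => R (n i)) i) := by
        have b1 := mb_hom Γ (fun i => R (n' i)) i
        have b2 := mb_inv Γ (fun i => R (n i)) i
        have b3 : biproduct.ι (Γ.obj ∘ (fun i => R (n' i))) i ≫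
            (biproduct.mapIso (f := Γ.obj ∘ (fun i => R (n' i))) (g := Γ.obj ∘ (fun i => R (n i)))
              (fun i => (θ (n' i)).symm ≪≫ θ (n i))).hom =
            ((θ (n' i)).inv ≫ (θ (n i)).hom) ≫ biproduct.ι (Γ.obj ∘ (fun i => R (n i))) i := by
          simp
        change Γ.map (biproduct.ι (fun i => R (n' i)) i) ≫
          ((Γ.mapBiproduct (fun i => R (n' i))).hom ≫
            (biproduct.mapIso (f := Γ.obj ∘ (fun i => R (n' i)))
              (g := Γ.obj ∘ (fun i => R (n i)))
              (fun i => (θ (n' i)).symm ≪≫ θ (n i))).hom ≫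
            (Γ.mapBiproduct (fun i => R (n i))).inv) = _
        rw [← Category.assoc, b1, ← Category.assoc, b3, Category.assoc, b2]
      rw [← Category.assoc, h1, ← Γ.map_comp, biproduct.ι_desc]
      rw [← cancel_epi (θ (n' i)).hom]
      simp only [Category.assoc, Iso.hom_inv_id_assoc]
      ext
      simp only [ModuleCat.hom_comp, LinearMap.comp_apply]
      have := hφ i
      rw [← hθ, ← hθ] at this
      exact this
    have hiso : IsIso (Γ.map ψ) := by
      rw [hψ]
      have : IsIso β := ⟨β', hββ', hβ'β⟩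
      infer_instance
    have hK0 : IsZero (Γ.obj (kernel ψ)) := by
      have h1 : Γ.map (kernel.ι ψ) = 0 := by
        rw [← cancel_mono (Γ.map ψ), ← Γ.map_comp, kernel.condition, Γ.map_zero, zero_comp]
      have h2 : Mono (Γ.map (kernel.ι ψ)) :=
        hinj _ (hP.ker ψ (hsumP n') hKF) (hsumP n')
      rw [IsZero.iff_id_eq_zero, ← cancel_mono (Γ.map (kernel.ι ψ)), h1]
      simp
    have hC0 : IsZero (Γ.obj (cokernel ψ)) := by
      have h1 : Γ.map (cokernel.π ψ) = 0 := by
        rw [← cancel_epi (Γ.map ψ), ← Γ.map_comp, cokernel.condition, Γ.map_zero, comp_zero]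
      have h2 : Epi (Γ.map (cokernel.π ψ)) :=
        hsurj _ hKF (hP.coker ψ (hsumP n') hKF)
      rw [IsZero.iff_id_eq_zero, ← cancel_epi (Γ.map (cokernel.π ψ)), h1]
      simp
    exact hG.summand (hG.of_ker_coker ψ (hN (hP.ker ψ (hsumP n') hKF) hK0)
      (hN (hP.coker ψ (hsumP n') hKF) hC0) (hsumG n'))
  | succ d ih =>
    intro F hF hd
    obtain ⟨m, n, π, hπ⟩ := epi hF
    have hK : P (kernel π) := hP.ker π (hsumP n) hF
    have hS := hΓ (shortExact_kernel π) hK (hsumP n) hF
    have hfree : Projective (Γ.obj (⨁ fun i => R (n i))) := by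
      have h1 : ∀ i, Projective (Γ.obj (R (n i))) := fun i =>
        Projective.of_iso (θ (n i)) inferInstance
      exact projective_map_biproduct Γ _ h1
    have h2 : HasProjectiveDimensionLT (Γ.obj (⨁ fun i => R (n i))) (d + 1) :=
      hasProjectiveDimensionLT_of_ge _ 1 _ (by omega)
    exact hG.of_epi π (ih hK (hS.hasProjectiveDimensionLT_X₁ _ h2 hd)) (hsumG n)

end level

end H18
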