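import Mathlib

/-! Restriction functors on modules over schemes: exactness and joint conservativity. -/

open CategoryTheory AlgebraicGeometry Limits TopologicalSpace

universe u

namespace H18

variable {X Y : Scheme.{u}}

instance restrictFunctor_additive (f : X ⟶ Y) [IsOpenImmersion f] :
    (Scheme.Modules.restrictFunctor f).Additive where
  map_add {M N φ ψ} := by
    apply Scheme.Modules.hom_ext
    intro U
    rfl

lemma mono_iff_app_inj {M N : X.Modules} (φ : M ⟶ N) :
    Mono φ ↔ ∀ U, Function.Injective (φ.app U) := by
  constructor
  · intro h U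
    have : Mono ((Scheme.Modules.toPresheaf X).map φ) := inferInstance
    have := (NatTrans.mono_iff_mono_app ((Scheme.Modules.toPresheaf X).map φ)).1 this (.op U)
    exact (AddCommGrpCat.mono_iff_injective _).1 this
  · intro h
    have : Mono ((Scheme.Modules.toPresheaf X).map φ) := by
      rw [NatTrans.mono_iff_mono_app]
      intro U
      exact (AddCommGrpCat.mono_iff_injective _).2 (h U.unop)
    exact (Scheme.Modules.toPresheaf X).mono_of_mono_map this

/-- An additive functor between abelian categories preserving finite colimits and monos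
preserves finite limits. -/
lemma preservesFiniteLimits_of_mono {C D : Type*} [Category* C] [Category* D] [Abelian C]
    [Abelian D] (F : C ⥤ D) [F.Additive] [PreservesFiniteColimits F]
    (h : ∀ {A B : C} (f : A ⟶ B) [Mono f], Mono (F.map f)) : PreservesFiniteLimits F := by
  have h1 := ((Functor.preservesFiniteColimits_tfae F).out 3 0).1 ‹_›
  refine ((Functor.preservesFiniteLimits_tfae F).out 0 3).1 ?_
  intro S hS
  have := hS.mono_f
  exact ⟨(h1 S hS).1, h S.f⟩

instance restrictFunctor_preservesFiniteLimits (f : X ⟶ Y) [IsOpenImmersion f] :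
    PreservesFiniteLimits (Scheme.Modules.restrictFunctor f) := by
  apply preservesFiniteLimits_of_mono
  intro A B φ hφ
  rw [mono_iff_app_inj] at hφ ⊢
  intro U
  exact hφ (f ''ᵁ U)

instance restrictFunctor_preservesFiniteColimits (f : X ⟶ Y) [IsOpenImmersion f] :
    PreservesFiniteColimits (Scheme.Modules.restrictFunctor f) := inferInstance

/-- A module with no sections is zero. -/
lemma isZero_of_subsingleton (M : X.Modules) (h : ∀ U : X.Opens, Subsingleton Γ(M, U)) :
    IsZero M := by
  rw [IsZero.iff_id_eq_zero]
  apply Scheme.Modules.hom_ext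
  intro U
  ext x
  exact (h U).elim _ _

lemma subsingleton_of_isZero {M : X.Modules} (h : IsZero M) (U : X.Opens) :
    Subsingleton Γ(M, U) := by
  constructor
  intro a b
  have h1 : (𝟙 M : M ⟶ M) = 0 := (IsZero.iff_id_eq_zero _).1 h
  have h2 : ∀ a : Γ(M, U), a = 0 := by
    intro a
    have := congr($(congrArg (fun (t : M ⟶ M) => t.app U) h1) a)
    simpa using this
  rw [h2 a, h2 b]

end H18
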