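import Mathlib
import Pool.Agent.H18.Restr

/-! Definitions: perfect complexes, simple-like objects and thick subcategories of the derived
category of modules over a scheme. -/

open CategoryTheory AlgebraicGeometry Limits TopologicalSpace Pretriangulated

universe u

namespace H18

attribute [local instance] Abelian.hasFiniteBiproducts

/-- The derived category of the abelian category `X.Modules` of all sheaves of modules over the
structure sheaf of a scheme `X`. -/
noncomputable instance hasDerivedCategory (X : Scheme.{u}) :
    HasDerivedCategory.{u + 1} X.Modules := HasDerivedCategory.standard _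

/-- The structure sheaf of `X`, as a module over itself. -/
noncomputable def OO (X : Scheme.{u}) : X.Modules := SheafOfModules.unit X.ringCatSheaf

/-- A strictly perfect complex of modules on a scheme: a bounded cochain complex, each term of
which is a direct summand of a finite direct sum of copies of the structure sheaf. -/
def IsStrictlyPerfect {X : Scheme.{u}} (E : CochainComplex X.Modules ℤ) : Prop :=
  (∃ a b : ℤ, ∀ i, i < a ∨ b < i → IsZero (E.X i)) ∧
    ∀ i, ∃ n : ℕ, Nonempty (Retract (E.X i) (⨁ fun _ : Fin n => OO X))

/-- Restriction of an object of the derived category to an open subscheme. -/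
noncomputable def restrictD {X : Scheme.{u}} (U : X.Opens) :
    DerivedCategory X.Modules ⥤ DerivedCategory (U : Scheme.{u}).Modules :=
  (Scheme.Modules.restrictFunctor U.ι).mapDerivedCategory

/-- A perfect complex on a scheme: an object of the derived category which on some open
neighbourhood of every point is isomorphic to a strictly perfect complex. -/
def IsPerfect {X : Scheme.{u}} (K : DerivedCategory X.Modules) : Prop :=
  ∀ x : X, ∃ U : X.Opens, x ∈ U ∧ ∃ E : CochainComplex (U : Scheme.{u}).Modules ℤ,
    IsStrictlyPerfect E ∧ Nonempty ((restrictD U).obj K ≅ DerivedCategory.Q.obj E)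

section linear
variable {X : Scheme.{u}}

/-- Multiplication by a global function on the sections of a module. -/
noncomputable def mulApp (s : Γ(X, ⊤)) (M : X.Modules) (V : X.Opens) : Γ(M, V) ⟶ Γ(M, V) :=
  M.smul (X.presheaf.map (homOfLE le_top).op s)

/-- Multiplication by a global function on a module, as a morphism of presheaves of abelian
groups. -/
noncomputable def mulPre (s : Γ(X, ⊤)) (M : X.Modules) : M.presheaf ⟶ M.presheaf where
  app V := mulApp s M V.unop
  naturality V W f := by
    ext x
    have h := M.map_smul f.unop (X.presheaf.map (homOfLE (le_top : V.unop ≤ ⊤)).op s) x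
    have h2 : X.presheaf.map f (X.presheaf.map (homOfLE (le_top : V.unop ≤ ⊤)).op s) =
        X.presheaf.map (homOfLE (le_top : W.unop ≤ ⊤)).op s := by
      rw [← ConcreteCategory.comp_apply, ← X.presheaf.map_comp]
      rfl
    refine Eq.trans ?_ h.symm
    exact congrArg (fun t : Γ(X, W.unop) =>
      t • (show Γ(M, W.unop) from M.presheaf.map f x)) h2.symm

lemma mulPre_smul (s : Γ(X, ⊤)) (M : X.Modules) (V : X.Opens) (r : Γ(X, V))
    (m : Γ(M, V)) : (mulPre s M).app (.op V) (r • m) = r • (mulPre s M).app (.op V) m :=
  smul_comm (M := Γ(X, V)) (N := Γ(X, V)) (α := Γ(M, V)) _ _ _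

/-- Multiplication by a global function on a module. -/
noncomputable def mulEnd (s : Γ(X, ⊤)) (M : X.Modules) : M ⟶ M :=
  ⟨PresheafOfModules.homMk (mulPre s M) (fun V => mulPre_smul s M V.unop)⟩

lemma mulEnd_app (s : Γ(X, ⊤)) (M : X.Modules) (V : X.Opens) (x : Γ(M, V)) :
    (mulEnd s M).app V x = (show Γ(X, V) from X.presheaf.map (homOfLE le_top).op s) • x := rfl

lemma mulEnd_one (M : X.Modules) : mulEnd 1 M = 𝟙 M := by
  apply Scheme.Modules.hom_ext
  intro V
  ext x
  refine Eq.trans (b := (1 : Γ(X, V)) • x) ?_ (one_smul _ _)
  exact congrArg (fun t : Γ(X, V) => t • x) (map_one (X.presheaf.map (homOfLE le_top).op).hom)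

lemma mulEnd_zero (M : X.Modules) : mulEnd 0 M = 0 := by
  apply Scheme.Modules.hom_ext
  intro V
  ext x
  refine Eq.trans (b := (0 : Γ(X, V)) • x) ?_ (zero_smul _ _)
  exact congrArg (fun t : Γ(X, V) => t • x) (map_zero (X.presheaf.map (homOfLE le_top).op).hom)

lemma mulEnd_mul (s t : Γ(X, ⊤)) (M : X.Modules) :
    mulEnd (s * t) M = mulEnd t M ≫ mulEnd s M := by
  apply Scheme.Modules.hom_ext
  intro V
  ext x
  refine Eq.trans ?_ (mul_smul (show Γ(X, V) from X.presheaf.map (homOfLE le_top).op s)
    (show Γ(X, V) from X.presheaf.map (homOfLE le_top).op t) x)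
  exact congrArg (fun t : Γ(X, V) => t • x) (map_mul (X.presheaf.map (homOfLE le_top).op).hom s t)

lemma mulEnd_add (s t : Γ(X, ⊤)) (M : X.Modules) :
    mulEnd (s + t) M = mulEnd s M + mulEnd t M := by
  apply Scheme.Modules.hom_ext
  intro V
  ext x
  refine Eq.trans ?_ (add_smul (show Γ(X, V) from X.presheaf.map (homOfLE le_top).op s)
    (show Γ(X, V) from X.presheaf.map (homOfLE le_top).op t) x)
  exact congrArg (fun t : Γ(X, V) => t • x) (map_add (X.presheaf.map (homOfLE le_top).op).hom s t)

lemma mulEnd_naturality (s : Γ(X, ⊤)) {M N : X.Modules} (φ : M ⟶ N) :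
    φ ≫ mulEnd s N = mulEnd s M ≫ φ := by
  apply Scheme.Modules.hom_ext
  intro V
  ext x
  exact (Scheme.Modules.Hom.app_smul φ
    (show Γ(X, V) from X.presheaf.map (homOfLE le_top).op s) x).symm

/-- Global functions act on the category of modules. -/
noncomputable def mulCenter (X : Scheme.{u}) : Γ(X, ⊤) →+* CatCenter X.Modules where
  toFun s :=
    { app := fun M => mulEnd s M
      naturality := fun _ _ φ => mulEnd_naturality s φ }
  map_one' := NatTrans.ext (funext fun M => mulEnd_one M)
  map_mul' s t := NatTrans.ext (funext fun M => mulEnd_mul s t M)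
  map_zero' := NatTrans.ext (funext fun M => mulEnd_zero M)
  map_add' s t := NatTrans.ext (funext fun M => mulEnd_add s t M)

variable {k : Type u} [Field k] (f : X ⟶ Spec (.of k))

/-- The ring homomorphism from the ground field to the global functions. -/
noncomputable def scalars : k →+* Γ(X, ⊤) :=
  (f.appTop.hom).comp (Scheme.ΓSpecIso (.of k)).inv.hom

/-- The category of modules over a scheme over a field `k` is `k`-linear. -/
noncomputable abbrev kLinear : Linear k X.Modules :=
  Linear.ofRingMorphism ((mulCenter X).comp (scalars f))

/-- Simple-like objects of the derived category of a scheme over a field `k`: all negative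
self-extensions vanish, and the endomorphism ring is one-dimensional over `k`. The `k`-linear
structure on the derived category is the one induced from `kLinear f`. -/
def SimpleLike (F : DerivedCategory X.Modules) : Prop :=
  (∀ p : ℤ, p < 0 → ∀ φ : F ⟶ F⟦p⟧, φ = 0) ∧
    letI := kLinear f
    Module.finrank k (F ⟶ F) = 1

end linear

/-- A thick subcategory of a triangulated category, as a property of objects: it contains the
zero objects, and is closed under shifts, cones and direct summands (and so under
isomorphisms). -/
structure IsThick {D : Type*} [Category* D] [HasZeroObject D] [HasShift D ℤ] [Preadditive D]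
    [∀ n : ℤ, (shiftFunctor D n).Additive] [Pretriangulated D] (T : ObjectProperty D) :
    Prop where
  zero : ∀ A : D, IsZero A → T A
  shift : ∀ (A : D) (n : ℤ), T A → T (A⟦n⟧)
  cone : ∀ Δ ∈ distTriang D, T Δ.obj₁ → T Δ.obj₂ → T Δ.obj₃
  summand : ∀ A B : D, Retract A B → T B → T A

/-- The thick closure of a family of objects: the objects which lie in every thick subcategory
containing the family. -/
def ThickClosure {D : Type*} [Category* D] [HasZeroObject D] [HasShift D ℤ] [Preadditive D]
    [∀ n : ℤ, (shiftFunctor D n).Additive] [Pretriangulated D] {ι : Type*} (F : ι → D)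
    (A : D) : Prop :=
  ∀ T : ObjectProperty D, IsThick T → (∀ i, T (F i)) → T A

end H18
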