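import Mathlib
import Pool.Agent.H18.Restr

/-! Exactness of the tilde functor and of global sections on quasi-coherent modules. -/

open CategoryTheory AlgebraicGeometry Limits TopologicalSpace

universe u

namespace H18

lemma shortExact_of_map {C D : Type*} [Category* C] [Category* D] [Abelian C]
    [Abelian D] (F : C ⥤ D) [F.Additive] [PreservesFiniteColimits F] [PreservesFiniteLimits F]
    [F.Faithful] (S : ShortComplex C) (h : (S.map F).ShortExact) : S.ShortExact where
  exact := (S.exact_map_iff_of_faithful F).1 h.exact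
  mono_f := F.mono_of_mono_map h.mono_f
  epi_g := F.epi_of_epi_map h.epi_g

variable (R : CommRingCat.{u})

/-- tilde, with source and target spelled out. -/
noncomputable def tl : ModuleCat.{u} R ⥤ (Spec R).Modules := tilde.functor R

/-- global sections on `Spec R`. -/
noncomputable def gs : (Spec R).Modules ⥤ ModuleCat.{u} R := moduleSpecΓFunctor (R := R)

/-- the adjunction. -/
noncomputable def tlgs : tl R ⊣ gs R := tilde.adjunction (R := R)

instance : (tl R).Full := inferInstanceAs (tilde.functor R).Full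
instance : (tl R).Faithful := inferInstanceAs (tilde.functor R).Faithful
instance : (tl R).IsLeftAdjoint := (tlgs R).isLeftAdjoint
instance : (gs R).IsRightAdjoint := (tlgs R).isRightAdjoint
instance : (tl R).Additive := inferInstanceAs (tilde.functor R).Additive
instance : (gs R).Additive := (tlgs R).right_adjoint_additive
instance : IsIso (tlgs R).unit := inferInstanceAs (IsIso (tilde.adjunction (R := R)).unit)

variable {R}

lemma tl_map_mono {M N : ModuleCat.{u} R} (f : M ⟶ N) [Mono f] : Mono ((tl R).map f) := by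
  rw [mono_iff_app_inj]
  intro U x y hxy
  have hinj : Function.Injective f.hom := (ModuleCat.mono_iff_injective f).1 inferInstance
  refine Subtype.ext (funext fun p => ?_)
  have h1 := congrFun (congrArg Subtype.val hxy) p
  exact LocalizedModule.map_injective _ f.hom hinj h1

instance : PreservesFiniteLimits (tl R) := by
  apply preservesFiniteLimits_of_mono
  intro A B f hf
  exact tl_map_mono f

instance : PreservesFiniteColimits (tl R) := inferInstance

/-- modules on `Spec R` in the essential image of tilde -/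
abbrev QCSpec (M : (Spec R).Modules) : Prop := (tl R).essImage M

lemma QCSpec.isIso {M : (Spec R).Modules} (h : QCSpec M) : IsIso ((tlgs R).counit.app M) :=
  (tlgs R).isIso_counit_app_iff_mem_essImage.2 h

lemma QCSpec.of_iso {M N : (Spec R).Modules} (e : M ≅ N) (h : QCSpec M) : QCSpec N := by
  obtain ⟨A, ⟨i⟩⟩ := h
  exact ⟨A, ⟨i ≪≫ e⟩⟩

lemma QCSpec.tl (M : ModuleCat.{u} R) : QCSpec ((tl R).obj M) :=
  ⟨M, ⟨Iso.refl _⟩⟩

lemma QCSpec.kernel {M N : (Spec R).Modules} (f : M ⟶ N) (hM : QCSpec M) (hN : QCSpec N) :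
    QCSpec (kernel f) := by
  obtain ⟨A, ⟨i⟩⟩ := hM
  obtain ⟨B, ⟨j⟩⟩ := hN
  obtain ⟨g, hg⟩ := (H18.tl R).map_surjective (i.hom ≫ f ≫ j.inv)
  refine ⟨Limits.kernel g, ⟨PreservesKernel.iso (H18.tl R) g ≪≫ kernel.mapIso _ _ i j ?_⟩⟩
  simp [hg]

lemma QCSpec.cokernel {M N : (Spec R).Modules} (f : M ⟶ N) (hM : QCSpec M) (hN : QCSpec N) :
    QCSpec (cokernel f) := by
  obtain ⟨A, ⟨i⟩⟩ := hM
  obtain ⟨B, ⟨j⟩⟩ := hN
  obtain ⟨g, hg⟩ := (H18.tl R).map_surjective (i.hom ≫ f ≫ j.inv)
  refine ⟨Limits.cokernel g, ⟨PreservesCokernel.iso (H18.tl R) g ≪≫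
    cokernel.mapIso _ _ i j ?_⟩⟩
  simp [hg]

lemma isZero_of_isZero_gs {M : (Spec R).Modules} (hM : QCSpec M)
    (h : IsZero ((gs R).obj M)) : IsZero M := by
  have := hM.isIso
  exact ((H18.tl R).map_isZero h).of_iso (asIso ((tlgs R).counit.app M)).symm

/-- the counit, as an isomorphism -/
noncomputable def QCSpec.iso {M : (Spec R).Modules} (h : QCSpec M) :
    (H18.tl R).obj ((gs R).obj M) ≅ M :=
  @asIso _ _ _ _ ((tlgs R).counit.app M) h.isIso

/-- the counit isomorphism of short complexes. -/
noncomputable def counitSCIso {S : ShortComplex (Spec R).Modules}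
    (h1 : QCSpec S.X₁) (h2 : QCSpec S.X₂) (h3 : QCSpec S.X₃) :
    (S.map (gs R)).map (H18.tl R) ≅ S :=
  ShortComplex.isoMk h1.iso h2.iso h3.iso
    (((tlgs R).counit.naturality S.f).symm) (((tlgs R).counit.naturality S.g).symm)

/-- global sections are exact on quasi-coherent modules. -/
lemma shortExact_gs {S : ShortComplex (Spec R).Modules} (hS : S.ShortExact)
    (h1 : QCSpec S.X₁) (h2 : QCSpec S.X₂) (h3 : QCSpec S.X₃) :
    (S.map (gs R)).ShortExact := by
  have e := counitSCIso h1 h2 h3
  have h : ((S.map (gs R)).map (H18.tl R)).ShortExact :=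
    ShortComplex.shortExact_of_iso e.symm hS
  exact shortExact_of_map (H18.tl R) _ h

/-- conversely, exactness can be tested on global sections -/
lemma shortExact_of_gs {S : ShortComplex (Spec R).Modules}
    (h1 : QCSpec S.X₁) (h2 : QCSpec S.X₂) (h3 : QCSpec S.X₃)
    (h : (S.map (gs R)).ShortExact) : S.ShortExact := by
  have e := counitSCIso h1 h2 h3
  exact ShortComplex.shortExact_of_iso e (h.map_of_exact (H18.tl R))

end H18
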