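import Mathlib
import Pool.Agent.H18.Restr
import Pool.Agent.H18.TildeExact

/-! Quasi-coherent modules on schemes: locality, kernels and cokernels. -/

open CategoryTheory AlgebraicGeometry Limits TopologicalSpace Scheme.Modules

universe u

namespace H18
variable {X : Scheme.{u}}

set_option backward.isDefEq.respectTransparency false in
noncomputable def unitOverIso (U : X.Opens) :
    SheafOfModules.unit (X.ringCatSheaf.over U) ≅
      (overEquiv U).inverse.obj (SheafOfModules.unit (U : Scheme.{u}).ringCatSheaf) :=
  (overEquiv U).unitIso.app (SheafOfModules.unit (X.ringCatSheaf.over U)) ≪≫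
    (overEquiv U).inverse.mapIso
      ((overFunctorEquiv U).app (SheafOfModules.unit X.ringCatSheaf) ≪≫
        Scheme.Modules.restrictUnitIso U.ι)

set_option backward.isDefEq.respectTransparency false in
noncomputable def presOver (M : X.Modules) (U : X.Opens)
    (p : SheafOfModules.Presentation.{u} (M.restrict U.ι)) :
    SheafOfModules.Presentation.{u} (SheafOfModules.over M U) :=
  SheafOfModules.Presentation.ofIsIso.{u, u, u}
    ((overEquiv U).inverse.mapIso ((overFunctorEquiv U).app M).symm ≪≫
      ((overEquiv U).unitIso.app (SheafOfModules.over M U)).symm).hom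
    (p.map (overEquiv U).inverse (unitOverIso U))

set_option backward.isDefEq.respectTransparency false in
lemma isQuasicoherent_of_isOpenCover (M : X.Modules) {I : Type u} (U : I → X.Opens)
    (hU : IsOpenCover U)
    (h : ∀ i, Nonempty (SheafOfModules.Presentation.{u} (M.restrict (U i).ι))) :
    M.IsQuasicoherent :=
  SheafOfModules.QuasicoherentData.isQuasicoherent.{u}
    { I := I
      X := U
      coversTop := (Opens.coversTop_iff _ _).2 hU
      presentation := fun i => presOver M (U i) (h i).some }

set_option backward.isDefEq.respectTransparency false in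
/-- A module on `Spec R` in the essential image of tilde has a presentation. -/
lemma QCSpec.presentation {R : CommRingCat.{u}} {M : (Spec R).Modules} (h : QCSpec M) :
    Nonempty (SheafOfModules.Presentation.{u} M) := by
  obtain ⟨N, ⟨e⟩⟩ := h
  have e' : tilde N ≅ M := e
  exact ⟨SheafOfModules.Presentation.ofIsIso.{u, u, u} e'.hom
    (presentationTilde.{u} N .univ (by simp) _ (Submodule.span_eq _))⟩

set_option backward.isDefEq.respectTransparency false in
lemma presentation_of_QCSpec_restrict {R : CommRingCat.{u}} (f : Spec R ⟶ X) [IsOpenImmersion f]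
    (M : X.Modules) (h : QCSpec (M.restrict f)) :
    Nonempty (SheafOfModules.Presentation.{u} (M.restrict f.opensRange.ι)) := by
  obtain ⟨p⟩ := h.presentation
  have e : f.isoOpensRange.inv ≫ f = f.opensRange.ι := by simp
  let iso : (M.restrict f).restrict f.isoOpensRange.inv ≅ M.restrict f.opensRange.ι :=
    ((restrictFunctorComp f.isoOpensRange.inv f).symm ≪≫ restrictFunctorCongr e).app M
  exact ⟨SheafOfModules.Presentation.ofIsIso.{u, u, u} iso.hom
    (presentationRestrict f.isoOpensRange.inv p)⟩

/-- Quasi-coherence is local. -/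
lemma isQuasicoherent_of_local (M : X.Modules)
    (h : ∀ x : X, ∃ (R : CommRingCat.{u}) (f : Spec R ⟶ X) (_ : IsOpenImmersion f),
      x ∈ f.opensRange ∧ QCSpec (M.restrict f)) : M.IsQuasicoherent := by
  choose R f hf hx hM using h
  refine isQuasicoherent_of_isOpenCover M (I := X) (fun x => (f x).opensRange) ?_ ?_
  · rw [IsOpenCover, eq_top_iff]
    intro x _
    exact Opens.mem_iSup.2 ⟨x, hx x⟩
  · intro x
    exact presentation_of_QCSpec_restrict (f x) M (hM x)

lemma QCSpec_of_isQuasicoherent {R : CommRingCat.{u}} (f : Spec R ⟶ X) [IsOpenImmersion f]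
    (M : X.Modules) [M.IsQuasicoherent] : QCSpec (M.restrict f) := by
  have : (M.restrict f).IsQuasicoherent := isQuasicoherent_restrictFunctor f M
  have h : IsIso (M.restrict f).fromTildeΓ := isIso_fromTildeΓ_of_isQuasicoherent _
  exact isIso_fromTildeΓ_iff.1 h

lemma exists_affine_nhd (x : X) : ∃ (R : CommRingCat.{u}) (f : Spec R ⟶ X)
    (_ : IsOpenImmersion f), x ∈ f.opensRange := by
  obtain ⟨_, ⟨U, hU, rfl⟩, hx, -⟩ := X.isBasis_affineOpens.exists_subset_of_mem_open
    (Set.mem_univ x) isOpen_univ
  have hU' : IsAffineOpen U := hU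
  exact ⟨_, hU'.fromSpec, inferInstance, by
    rw [IsAffineOpen.opensRange_fromSpec]; exact hx⟩

instance isQuasicoherent_kernel {M N : X.Modules} (φ : M ⟶ N) [M.IsQuasicoherent]
    [N.IsQuasicoherent] : (kernel φ : X.Modules).IsQuasicoherent := by
  apply isQuasicoherent_of_local
  intro x
  obtain ⟨R, f, hf, hx⟩ := exists_affine_nhd x
  refine ⟨R, f, hf, hx, ?_⟩
  exact (QCSpec.kernel ((restrictFunctor f).map φ) (QCSpec_of_isQuasicoherent f M)
    (QCSpec_of_isQuasicoherent f N)).of_iso (PreservesKernel.iso (restrictFunctor f) φ).symm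

instance isQuasicoherent_cokernel {M N : X.Modules} (φ : M ⟶ N) [M.IsQuasicoherent]
    [N.IsQuasicoherent] : (cokernel φ : X.Modules).IsQuasicoherent := by
  apply isQuasicoherent_of_local
  intro x
  obtain ⟨R, f, hf, hx⟩ := exists_affine_nhd x
  refine ⟨R, f, hf, hx, ?_⟩
  exact (QCSpec.cokernel ((restrictFunctor f).map φ) (QCSpec_of_isQuasicoherent f M)
    (QCSpec_of_isQuasicoherent f N)).of_iso (PreservesCokernel.iso (restrictFunctor f) φ).symm

lemma isQuasicoherent_of_iso {M N : X.Modules} (e : M ≅ N) [M.IsQuasicoherent] :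
    N.IsQuasicoherent :=
  (SheafOfModules.isQuasicoherent X.ringCatSheaf).prop_of_iso e ‹_›

end H18
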