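import Mathlib
import Pool.Agent.H18.QC

/-! Sections of quasi-coherent modules over affine opens: exactness and localization. -/

open CategoryTheory AlgebraicGeometry Limits TopologicalSpace Scheme.Modules

universe u

namespace H18
variable {X : Scheme.{u}}

/-- restriction of sections -/
noncomputable abbrev res (M : X.Modules) {U V : X.Opens} (h : V ≤ U) (x : Γ(M, U)) : Γ(M, V) :=
  M.presheaf.map (homOfLE h).op x

/-- restriction of functions -/
noncomputable abbrev resO {U V : X.Opens} (h : V ≤ U) (x : Γ(X, U)) : Γ(X, V) :=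
  X.presheaf.map (homOfLE h).op x

lemma fromSpec_scalar {U : X.Opens} (hU : IsAffineOpen U) (W : (Spec Γ(X, U)).Opens)
    (h : hU.fromSpec ''ᵁ W ≤ U) :
    (Scheme.ΓSpecIso Γ(X, U)).inv ≫ (Spec Γ(X, U)).presheaf.map (Opens.leTop W).op ≫
      (hU.fromSpec.appIso W).inv = X.presheaf.map (homOfLE h).op := by
  rw [← Category.assoc, Iso.comp_inv_eq, Scheme.Hom.appIso_hom', Scheme.Hom.appLE,
    ← Category.assoc, Scheme.Hom.naturality, hU.fromSpec_app_self]
  simp only [Category.assoc, ← Functor.map_comp]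
  rfl

lemma smul_fromSpec {U : X.Opens} (hU : IsAffineOpen U) (M : X.Modules)
    (W : (Spec Γ(X, U)).Opens) (h : hU.fromSpec ''ᵁ W ≤ U) (r : Γ(X, U))
    (x : Γ(M.restrict hU.fromSpec, W)) :
    (r • x : Γ(M.restrict hU.fromSpec, W)) =
      (show Γ(M, hU.fromSpec ''ᵁ W) from
        (resO h r • (show Γ(M, hU.fromSpec ''ᵁ W) from x))) := by
  rw [Scheme.Modules.smul_Spec_def]
  have key : (hU.fromSpec.appIso W).inv ((Spec Γ(X, U)).presheaf.map (Opens.leTop W).op
      ((Scheme.ΓSpecIso Γ(X, U)).inv r)) = resO h r := congr($(fromSpec_scalar hU W h) r)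
  exact congrArg (fun (t : Γ(X, hU.fromSpec ''ᵁ W)) =>
    (t • (show Γ(M, hU.fromSpec ''ᵁ W) from x) : Γ(M, hU.fromSpec ''ᵁ W))) key

lemma res_res (M : X.Modules) {U V W : X.Opens} (h : V ≤ U) (h' : W ≤ V) (x : Γ(M, U)) :
    res M h' (res M h x) = res M (h'.trans h) x := by
  simp only [res, ← ConcreteCategory.comp_apply, ← Functor.map_comp]
  rfl

lemma resO_resO {U V W : X.Opens} (h : V ≤ U) (h' : W ≤ V) (x : Γ(X, U)) :
    resO h' (resO h x) = resO (h'.trans h) x := by
  simp only [resO, ← ConcreteCategory.comp_apply, ← Functor.map_comp]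
  rfl

lemma res_smul (M : X.Modules) {U V : X.Opens} (h : V ≤ U) (r : Γ(X, U)) (x : Γ(M, U)) :
    res M h (r • x) = resO h r • res M h x :=
  M.map_smul (homOfLE h) r x

lemma res_self (M : X.Modules) {U : X.Opens} (h : U ≤ U) (x : Γ(M, U)) : res M h x = x := by
  have : homOfLE h = 𝟙 U := rfl
  rw [res, this, op_id, M.presheaf.map_id]
  rfl

lemma res_injective_of_eq (M : X.Modules) {U V : X.Opens} (h : V ≤ U) (h' : U ≤ V) :
    Function.Injective (res M h) := by
  intro a b hab
  have := congrArg (res M h') hab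
  rwa [res_res, res_res, res_self, res_self] at this

/-- For a quasi-coherent module, sections over a basic open of an affine open extend after
multiplication by a power. -/
lemma exists_extend {U : X.Opens} (hU : IsAffineOpen U) (M : X.Modules) [M.IsQuasicoherent]
    (r : Γ(X, U)) (s : Γ(M, X.basicOpen r)) :
    ∃ (n : ℕ) (t : Γ(M, U)), res M (X.basicOpen_le r) t = resO (X.basicOpen_le r) r ^ n • s := by
  have h : QCSpec (M.restrict hU.fromSpec) := QCSpec_of_isQuasicoherent _ M
  have h1 : IsIso (M.restrict hU.fromSpec).fromTildeΓ := isIso_fromTildeΓ_iff.2 h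
  rw [isIso_fromTildeΓ_iff_isLocalizing] at h1
  have h2 := h1 r
  have e1 : hU.fromSpec ''ᵁ PrimeSpectrum.basicOpen r = X.basicOpen r :=
    hU.fromSpec_image_basicOpen r
  have e2 : hU.fromSpec ''ᵁ ⊤ = U := by
    rw [Scheme.Hom.image_top_eq_opensRange, hU.opensRange_fromSpec]
  obtain ⟨⟨x, ⟨_, n, rfl⟩⟩, hn⟩ := h2.surj (show _ from res M e1.le s)
  refine ⟨n, res M e2.ge (show Γ(M, hU.fromSpec ''ᵁ ⊤) from x), ?_⟩
  apply res_injective_of_eq M e1.le e1.ge
  rw [res_res, res_res, res_smul]
  have h3 := smul_fromSpec hU M (PrimeSpectrum.basicOpen r) (e1.le.trans (X.basicOpen_le r))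
    (r ^ n) (show _ from res M e1.le s)
  have h4 : resO e1.le (resO (X.basicOpen_le r) r ^ n) =
      resO (e1.le.trans (X.basicOpen_le r)) (r ^ n) := by
    rw [← resO_resO (X.basicOpen_le r) e1.le]
    exact congrArg (resO e1.le) (map_pow (X.presheaf.map (homOfLE (X.basicOpen_le r)).op).hom r n).symm
  rw [h4]
  exact Eq.trans hn.symm h3

/-- For a quasi-coherent module, sections over an affine open which vanish on a basic open
are killed by a power. -/
lemma exists_pow_smul_eq_zero {U : X.Opens} (hU : IsAffineOpen U) (M : X.Modules)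
    [M.IsQuasicoherent] (r : Γ(X, U)) (t : Γ(M, U)) (ht : res M (X.basicOpen_le r) t = 0) :
    ∃ n : ℕ, r ^ n • t = 0 := by
  have h : QCSpec (M.restrict hU.fromSpec) := QCSpec_of_isQuasicoherent _ M
  have h1 : IsIso (M.restrict hU.fromSpec).fromTildeΓ := isIso_fromTildeΓ_iff.2 h
  rw [isIso_fromTildeΓ_iff_isLocalizing] at h1
  have h2 := h1 r
  have e1 : hU.fromSpec ''ᵁ PrimeSpectrum.basicOpen r = X.basicOpen r :=
    hU.fromSpec_image_basicOpen r
  have e2 : hU.fromSpec ''ᵁ ⊤ = U := by
    rw [Scheme.Hom.image_top_eq_opensRange, hU.opensRange_fromSpec]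
  have h5 := h2.exists_of_eq (x₁ := show _ from res M e2.le t) (x₂ := 0) (by
    rw [map_zero]
    change res M (hU.fromSpec.image_mono le_top) (res M e2.le t) = 0
    rw [res_res, ← res_res M (X.basicOpen_le r) e1.le, ht]
    exact map_zero _)
  obtain ⟨⟨_, n, rfl⟩, hn⟩ := h5
  refine ⟨n, ?_⟩
  apply res_injective_of_eq M e2.le e2.ge
  rw [res_smul]
  have h3 := smul_fromSpec hU M ⊤ e2.le (r ^ n) (show _ from res M e2.le t)
  rw [smul_zero] at hn
  exact (Eq.trans h3.symm (Eq.trans hn (map_zero _).symm))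

end H18
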