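import Mathlib
import Pool.Agent.H18.Sec

/-! The section functor over an open subset and its exactness on quasi-coherent modules. -/

open CategoryTheory AlgebraicGeometry Limits TopologicalSpace Scheme.Modules

universe u

namespace H18
variable {X : Scheme.{u}}

/-- sections over an open subset, as a functor to modules over the functions -/
noncomputable def sec (U : X.Opens) : X.Modules ⥤ ModuleCat.{u} Γ(X, U) where
  obj M := ModuleCat.of Γ(X, U) Γ(M, U)
  map φ := ModuleCat.ofHom
    { toFun := φ.app U
      map_add' := fun a b => map_add _ a b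
      map_smul' := fun r a => Hom.app_smul φ r a }
  map_id M := by ext x; rfl
  map_comp f g := by ext x; rfl

instance (U : X.Opens) : (sec U).Additive where
  map_add {M N φ ψ} := by ext x; rfl

lemma sec_map_apply (U : X.Opens) {M N : X.Modules} (φ : M ⟶ N) (x : Γ(M, U)) :
    ((sec U).map φ).hom x = φ.app U x := rfl

lemma app_res {M N : X.Modules} (φ : M ⟶ N) {U V : X.Opens} (h : V ≤ U) (x : Γ(M, U)) :
    φ.app V (res M h x) = res N h (φ.app U x) := by
  have := (φ.mapPresheaf).naturality (homOfLE h).op
  exact congr($this x)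

lemma image_top_eq {U : X.Opens} (hU : IsAffineOpen U) : hU.fromSpec ''ᵁ ⊤ = U := by
  rw [Scheme.Hom.image_top_eq_opensRange, hU.opensRange_fromSpec]

/-- comparison of sections over an affine open and global sections of the restriction -/
noncomputable def secLin {U : X.Opens} (hU : IsAffineOpen U) (M : X.Modules) :
    ((sec U).obj M) →ₗ[Γ(X, U)] ((gs Γ(X, U)).obj (M.restrict hU.fromSpec)) where
  toFun x := (res M (image_top_eq hU).le (show Γ(M, U) from x) : Γ(M, hU.fromSpec ''ᵁ ⊤))
  map_add' a b := map_add (M.presheaf.map (homOfLE (image_top_eq hU).le).op).hom a b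
  map_smul' r a := by
    have h1 := res_smul M (image_top_eq hU).le r (show Γ(M, U) from a)
    have h2 := smul_fromSpec hU M ⊤ (image_top_eq hU).le r
      (show _ from res M (image_top_eq hU).le (show Γ(M, U) from a))
    exact h1.trans h2.symm

lemma secLin_bijective {U : X.Opens} (hU : IsAffineOpen U) (M : X.Modules) :
    Function.Bijective (secLin hU M) := by
  constructor
  · exact res_injective_of_eq M (image_top_eq hU).le (image_top_eq hU).ge
  · intro y
    refine ⟨res M (image_top_eq hU).ge (show Γ(M, hU.fromSpec ''ᵁ ⊤) from y), ?_⟩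
    have := res_res M (image_top_eq hU).ge (image_top_eq hU).le
      (show Γ(M, hU.fromSpec ''ᵁ ⊤) from y)
    rw [res_self] at this
    exact this

noncomputable def secNatIso {U : X.Opens} (hU : IsAffineOpen U) :
    sec U ≅ restrictFunctor hU.fromSpec ⋙ gs Γ(X, U) :=
  NatIso.ofComponents (fun M => (LinearEquiv.ofBijective (secLin hU M)
    (secLin_bijective hU M)).toModuleIso) (by
      intro M N φ
      ext x
      exact (app_res φ (image_top_eq hU).le x).symm)

/-- Sections over an affine open are exact on short exact sequences of quasi-coherent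
modules. -/
lemma shortExact_sec {U : X.Opens} (hU : IsAffineOpen U) {S : ShortComplex X.Modules}
    (hS : S.ShortExact) (h1 : S.X₁.IsQuasicoherent) (h2 : S.X₂.IsQuasicoherent)
    (h3 : S.X₃.IsQuasicoherent) : (S.map (sec U)).ShortExact := by
  have h := shortExact_gs (hS.map_of_exact (restrictFunctor hU.fromSpec))
    (QCSpec_of_isQuasicoherent _ _) (QCSpec_of_isQuasicoherent _ _)
    (QCSpec_of_isQuasicoherent _ _)
  exact ShortComplex.shortExact_of_iso (S.mapNatIso (secNatIso hU)).symm h

/-- sections over a smaller open of a module whose restriction vanishes -/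
lemma subsingleton_of_le {U : X.Opens} (hU : IsAffineOpen U) (M : X.Modules)
    [M.IsQuasicoherent] (h : Subsingleton Γ(M, U)) {V : X.Opens} (hV : V ≤ U) :
    Subsingleton Γ(M, V) := by
  have h1 : IsZero ((sec U).obj M) :=
    @ModuleCat.isZero_of_subsingleton _ _ ((sec U).obj M) h
  have h2 : IsZero ((gs Γ(X, U)).obj (M.restrict hU.fromSpec)) :=
    h1.of_iso ((secNatIso hU).app M).symm
  have h3 := isZero_of_isZero_gs (QCSpec_of_isQuasicoherent hU.fromSpec M) h2
  have h4 := subsingleton_of_isZero h3 (hU.fromSpec ⁻¹ᵁ V)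
  have e : hU.fromSpec ''ᵁ (hU.fromSpec ⁻¹ᵁ V) = V := by
    rw [Scheme.Hom.image_preimage_eq_opensRange_inf, hU.opensRange_fromSpec]
    exact inf_eq_right.2 hV
  constructor
  intro a b
  apply res_injective_of_eq M e.le e.ge
  exact h4.elim _ _

lemma eq_of_cover (M : X.Modules) {ι : Type*} (U : ι → X.Opens) (hU : ⨆ i, U i = ⊤)
    {V : X.Opens} (a b : Γ(M, V)) (h : ∀ i, res M inf_le_left a =
      (res M (inf_le_left : V ⊓ U i ≤ V) b : Γ(M, V ⊓ U i))) : a = b := by
  refine TopCat.Sheaf.eq_of_locally_eq' ⟨M.presheaf, M.isSheaf⟩ (fun i => V ⊓ U i) V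
    (fun i => homOfLE inf_le_left) ?_ a b h
  rw [← inf_iSup_eq, hU, inf_top_eq]

/-- A quasi-coherent module without sections on an affine cover is zero. -/
lemma isZero_of_cover (M : X.Modules) [M.IsQuasicoherent] {ι : Type*} (U : ι → X.Opens)
    (hU : ⨆ i, U i = ⊤) (hA : ∀ i, IsAffineOpen (U i))
    (h : ∀ i, Subsingleton Γ(M, U i)) : IsZero M := by
  apply isZero_of_subsingleton
  intro V
  constructor
  intro a b
  apply eq_of_cover M U hU
  intro i
  exact (subsingleton_of_le (hA i) M (h i) inf_le_right).elim _ _

end H18
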