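import Mathlib
import Pool.Agent.H18.Ex

/-! Modules representing sections, and line bundles given by cocycles. -/

open CategoryTheory AlgebraicGeometry Limits TopologicalSpace Scheme.Modules

universe u

set_option maxHeartbeats 400000

namespace H18
variable {X : Scheme.{u}}

/-- the module representing sections over an open subset -/
noncomputable def shr (U : X.Opens) : X.Modules :=
  (PresheafOfModules.sheafification (𝟙 X.ringCatSheaf.obj)).obj
    ((PresheafOfModules.free _).obj (yoneda.obj U))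

noncomputable def shrEquiv (U : X.Opens) (F : X.Modules) : (shr U ⟶ F) ≃ Γ(F, U) :=
  ((PresheafOfModules.sheafificationAdjunction (𝟙 X.ringCatSheaf.obj)).homEquiv _ _).trans
    PresheafOfModules.freeYonedaEquiv

lemma shrEquiv_comp (U : X.Opens) {F G : X.Modules} (φ : shr U ⟶ F) (ψ : F ⟶ G) :
    shrEquiv U G (φ ≫ ψ) = ψ.app U (shrEquiv U F φ) := by
  change PresheafOfModules.freeYonedaEquiv
    ((PresheafOfModules.sheafificationAdjunction (𝟙 X.ringCatSheaf.obj)).homEquiv _ _ (φ ≫ ψ)) = _
  rw [Adjunction.homEquiv_naturality_right]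
  rfl

/-- the universal section -/
noncomputable def gen (U : X.Opens) : Γ(shr U, U) := shrEquiv U _ (𝟙 _)

lemma shrEquiv_eq (U : X.Opens) {F : X.Modules} (φ : shr U ⟶ F) :
    shrEquiv U F φ = φ.app U (gen U) := by
  rw [gen, ← shrEquiv_comp, Category.id_comp]

noncomputable def shrDesc {U : X.Opens} {F : X.Modules} (s : Γ(F, U)) : shr U ⟶ F :=
  (shrEquiv U F).symm s

lemma shrDesc_gen {U : X.Opens} {F : X.Modules} (s : Γ(F, U)) :
    (shrDesc s).app U (gen U) = s := by
  rw [← shrEquiv_eq, shrDesc, Equiv.apply_symm_apply]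

lemma shr_hom_ext {U : X.Opens} {F : X.Modules} {φ ψ : shr U ⟶ F}
    (h : φ.app U (gen U) = ψ.app U (gen U)) : φ = ψ := by
  apply (shrEquiv U F).injective
  rw [shrEquiv_eq, shrEquiv_eq, h]

/-- a multiplicative cocycle of functions -/
structure Coc {J : Type} (U : J → X.Opens) where
  c : ∀ j, J → Γ(X, U j)
  self : ∀ j, c j j = 1
  mul : ∀ j k l, resO (inf_le_left : U j ⊓ U k ≤ U j) (c j l) =
    resO (inf_le_left : U j ⊓ U k ≤ U j) (c j k) * resO (inf_le_right : U j ⊓ U k ≤ U k) (c k l)

section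
variable {J : Type} {U : J → X.Opens} (c : Coc U)

/-- compatible families of sections -/
def Compat (F : X.Modules) (t : ∀ j, Γ(F, U j)) : Prop :=
  ∀ j k, res F (inf_le_left : U j ⊓ U k ≤ U j) (t j) =
    resO (inf_le_left : U j ⊓ U k ≤ U j) (c.c j k) • res F (inf_le_right : U j ⊓ U k ≤ U k) (t k)

variable (U) in
/-- the sum of the modules representing sections over the cover -/
noncomputable def cop : X.Modules := ∐ fun j : J => shr (U j)

variable (U) in
noncomputable def copι (j : J) : shr (U j) ⟶ cop U := Sigma.ι (fun j : J => shr (U j)) j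

lemma cop_hom_ext {F : X.Modules} {φ ψ : cop U ⟶ F} (h : ∀ j, copι U j ≫ φ = copι U j ≫ ψ) :
    φ = ψ := Sigma.hom_ext _ _ h

noncomputable def copDesc {F : X.Modules} (t : ∀ j, shr (U j) ⟶ F) : cop U ⟶ F := Sigma.desc t

lemma copι_desc {F : X.Modules} (t : ∀ j, shr (U j) ⟶ F) (j : J) :
    copι U j ≫ copDesc t = t j := Sigma.ι_desc _ _

variable (U) in
noncomputable def genC (j : J) : Γ(cop U, U j) := (copι U j).app (U j) (gen (U j))

/-- the relations -/
noncomputable def relSec (j k : J) : Γ(cop U, U j ⊓ U k) :=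
  res (cop U) (inf_le_left : U j ⊓ U k ≤ U j) (genC U j) -
    resO (inf_le_left : U j ⊓ U k ≤ U j) (c.c j k) •
      res (cop U) (inf_le_right : U j ⊓ U k ≤ U k) (genC U k)

noncomputable def linRel : (∐ fun p : J × J => shr (U p.1 ⊓ U p.2)) ⟶ cop U :=
  Sigma.desc fun p => shrDesc (relSec c p.1 p.2)

/-- the line bundle of a cocycle -/
noncomputable def lin : X.Modules := cokernel (linRel c)

noncomputable def linπ : cop U ⟶ lin c := cokernel.π (linRel c)

lemma lin_condition : linRel c ≫ linπ c = 0 := cokernel.condition (linRel c)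

instance : Epi (linπ c) := inferInstanceAs (Epi (cokernel.π (linRel c)))

noncomputable def linGen (j : J) : Γ(lin c, U j) := (linπ c).app (U j) (genC U j)

lemma lin_compat : Compat c (lin c) (linGen c) := by
  intro j k
  have h : (Sigma.ι (fun p : J × J => shr (U p.1 ⊓ U p.2)) (j, k) ≫ linRel c) ≫
      linπ c = 0 := by
    rw [Category.assoc, lin_condition, comp_zero]
  rw [linRel, Sigma.ι_desc] at h
  have h1 := congrArg (fun (t : shr (U j ⊓ U k) ⟶ lin c) => t.app (U j ⊓ U k) (gen _)) h
  have h2 : (linπ c).app (U j ⊓ U k) (relSec c j k) = 0 := by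
    conv_lhs => rw [← shrDesc_gen (relSec c j k)]
    exact h1
  rw [relSec, map_sub, Hom.app_smul, app_res, app_res, sub_eq_zero] at h2
  exact h2

variable {c}

lemma lin_desc_aux {F : X.Modules} {t : ∀ j, Γ(F, U j)} (ht : Compat c F t) :
    linRel c ≫ copDesc (fun j => shrDesc (t j)) = 0 := by
  apply Sigma.hom_ext
  rintro ⟨j, k⟩
  rw [linRel, Sigma.ι_desc_assoc, comp_zero]
  apply shr_hom_ext
  rw [Hom.comp_app, ConcreteCategory.comp_apply, shrDesc_gen, relSec, map_sub, Hom.app_smul,
    app_res, app_res]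
  have h : ∀ j, (copDesc (fun j => shrDesc (t j))).app (U j) (genC U j) = t j := by
    intro j
    rw [genC, ← ConcreteCategory.comp_apply, ← Hom.comp_app, copι_desc, shrDesc_gen]
  rw [h, h, ht j k, sub_self]
  rfl

noncomputable def linDesc {F : X.Modules} {t : ∀ j, Γ(F, U j)} (ht : Compat c F t) :
    lin c ⟶ F :=
  cokernel.desc _ (copDesc (fun j => shrDesc (t j))) (lin_desc_aux ht)

lemma linπ_desc {F : X.Modules} {t : ∀ j, Γ(F, U j)} (ht : Compat c F t) :
    linπ c ≫ linDesc ht = copDesc (fun j => shrDesc (t j)) :=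
  cokernel.π_desc (linRel c) _ (lin_desc_aux ht)

lemma linDesc_gen {F : X.Modules} {t : ∀ j, Γ(F, U j)} (ht : Compat c F t) (j : J) :
    (linDesc ht).app (U j) (linGen c j) = t j := by
  rw [linGen, genC, ← ConcreteCategory.comp_apply, ← Hom.comp_app, ← ConcreteCategory.comp_apply,
    ← Hom.comp_app,
    linπ_desc, copι_desc, shrDesc_gen]

lemma lin_hom_ext {F : X.Modules} {φ ψ : lin c ⟶ F}
    (h : ∀ j, φ.app (U j) (linGen c j) = ψ.app (U j) (linGen c j)) : φ = ψ := by
  rw [← cancel_epi (linπ c)]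
  apply cop_hom_ext
  intro j
  apply shr_hom_ext
  have := h j
  rw [linGen, genC, ← ConcreteCategory.comp_apply, ← Hom.comp_app,
    ← ConcreteCategory.comp_apply, ← Hom.comp_app, ← ConcreteCategory.comp_apply,
    ← Hom.comp_app, ← ConcreteCategory.comp_apply, ← Hom.comp_app] at this
  exact this

lemma Compat.map {F G : X.Modules} {t : ∀ j, Γ(F, U j)} (ht : Compat c F t) (φ : F ⟶ G) :
    Compat c G (fun j => φ.app (U j) (t j)) := by
  intro j k
  rw [← app_res, ht j k, Hom.app_smul, app_res]

end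

end H18
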