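import Mathlib
import Pool.Agent.H18.Tw
import Pool.Agent.H18.Defs

/-! The structure sheaf as a module, and restriction of line bundles. -/

open CategoryTheory AlgebraicGeometry Limits TopologicalSpace Scheme.Modules

universe u

set_option maxHeartbeats 400000

namespace H18
variable {Y : Scheme.{u}}

/-- functions as sections of the structure sheaf -/
def toOO {V : Y.Opens} (a : Γ(Y, V)) : Γ(OO Y, V) := a

/-- sections of the structure sheaf as functions -/
def ofOO {V : Y.Opens} (a : Γ(OO Y, V)) : Γ(Y, V) := a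

lemma toOO_smul {V : Y.Opens} (a b : Γ(Y, V)) : a • toOO b = toOO (a * b) := rfl

lemma toOO_eq {V : Y.Opens} (a : Γ(Y, V)) : toOO a = a • toOO (1 : Γ(Y, V)) := by
  rw [toOO_smul, mul_one]

lemma res_toOO {V W : Y.Opens} (h : W ≤ V) (a : Γ(Y, V)) :
    res (OO Y) h (toOO a) = toOO (resO h a) := rfl

lemma res_toOO_one {V W : Y.Opens} (h : W ≤ V) :
    res (OO Y) h (toOO (1 : Γ(Y, V))) = toOO (1 : Γ(Y, W)) := by
  rw [res_toOO]
  congr 1
  exact map_one (Y.presheaf.map (homOfLE h).op).hom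

/-- the morphism from the structure sheaf given by a global section -/
noncomputable def unitDesc {M : Y.Modules} (s : Γ(M, ⊤)) : OO Y ⟶ M :=
  M.unitHomEquiv.symm (PresheafOfModules.sectionsMk (fun V => res M le_top s) (by
    intro V W f
    exact res_res M le_top (leOfHom f.unop) s))

lemma unitDesc_one {M : Y.Modules} (s : Γ(M, ⊤)) (V : Y.Opens) :
    (unitDesc s).app V (toOO (1 : Γ(Y, V))) = res M le_top s := by
  exact one_smul Γ(Y, V) _

lemma unitDesc_apply {M : Y.Modules} (s : Γ(M, ⊤)) (V : Y.Opens) (a : Γ(Y, V)) :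
    (unitDesc s).app V (toOO a) = a • res M le_top s := by
  rw [toOO_eq, Hom.app_smul, unitDesc_one]

lemma unit_hom_ext {M : Y.Modules} {φ ψ : OO Y ⟶ M}
    (h : φ.app ⊤ (toOO (1 : Γ(Y, ⊤))) = ψ.app ⊤ (toOO (1 : Γ(Y, ⊤)))) : φ = ψ := by
  apply Scheme.Modules.hom_ext
  intro V
  ext a
  have h1 : a = ofOO a • res (OO Y) le_top (toOO (1 : Γ(Y, ⊤))) := by
    rw [res_toOO_one, toOO_smul, mul_one]
    rfl
  rw [h1, Hom.app_smul, Hom.app_smul, app_res, app_res, h]

section restr
variable {X : Scheme.{u}} (f : Y ⟶ X) [IsOpenImmersion f]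

/-- adjunction between restriction and direct image on morphisms -/
noncomputable def adjE (M : X.Modules) (G : Y.Modules) :
    (M.restrict f ⟶ G) ≃ (M ⟶ (pushforward f).obj G) :=
  (restrictAdjunction f).homEquiv M G

lemma adjE_app {M : X.Modules} {G : Y.Modules} (ψ : M.restrict f ⟶ G) (V : X.Opens)
    (x : Γ(M, V)) :
    (show Γ(G, f ⁻¹ᵁ V) from (adjE f M G ψ).app V x) =
      ψ.app (f ⁻¹ᵁ V) (show Γ(M, f ''ᵁ (f ⁻¹ᵁ V)) from res M (f.image_preimage_le V) x) := by
  rw [adjE, Adjunction.homEquiv_unit]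
  rfl

variable {J : Type} {U : J → X.Opens} (c : Coc U)

lemma image_top_le {V : X.Opens} (h : f.opensRange ≤ V) : f ''ᵁ ⊤ ≤ V := by
  rwa [Scheme.Hom.image_top_eq_opensRange]

/-- the generator of a restricted line bundle -/
noncomputable def linGenR (j : J) (h : f.opensRange ≤ U j) : Γ((lin c).restrict f, ⊤) :=
  res (lin c) (image_top_le f h) (linGen c j)

lemma preimage_eq_top {V : X.Opens} (h : f.opensRange ≤ V) : f ⁻¹ᵁ V = ⊤ := by
  rw [eq_top_iff]
  intro x _
  exact h ⟨x, rfl⟩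

/-- the comparison morphism from the structure sheaf -/
noncomputable def linTriv (j : J) (h : f.opensRange ≤ U j) : OO Y ⟶ (lin c).restrict f :=
  unitDesc (linGenR f c j h)

lemma adjE_linGen {G : Y.Modules} (ψ : (lin c).restrict f ⟶ G) (j : J)
    (h : f.opensRange ≤ U j) :
    (show Γ(G, f ⁻¹ᵁ (U j)) from (adjE f (lin c) G ψ).app (U j) (linGen c j)) =
      res G le_top (ψ.app ⊤ (linGenR f c j h)) := by
  rw [adjE_app, ← app_res]
  congr 1
  exact (res_res (lin c) (image_top_le f h) _ (linGen c j)).symm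

lemma isIso_linTriv (j : J) (h : f.opensRange ≤ U j) : IsIso (linTriv f c j h) := by
  apply isIso_of_coyoneda_map_bijective
  intro G
  have htop : f ⁻¹ᵁ (U j) = ⊤ := preimage_eq_top f h
  constructor
  · intro ψ ψ' hψ
    have hψ1 : ψ.app ⊤ (linGenR f c j h) = ψ'.app ⊤ (linGenR f c j h) := by
      have h1 := congrArg (fun (t : OO Y ⟶ G) => t.app ⊤ (toOO (1 : Γ(Y, ⊤)))) hψ
      have h2 : ∀ ψ : (lin c).restrict f ⟶ G, (linTriv f c j h ≫ ψ).app ⊤
          (toOO (1 : Γ(Y, ⊤))) = ψ.app ⊤ (linGenR f c j h) := by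
        intro ψ
        rw [Hom.comp_app, ConcreteCategory.comp_apply, linTriv, unitDesc_one, res_self]
      rw [← h2, ← h2]
      exact h1
    apply (adjE f (lin c) G).injective
    apply lin_hom_ext
    have hj : (adjE f (lin c) G ψ).app (U j) (linGen c j) =
        (adjE f (lin c) G ψ').app (U j) (linGen c j) := by
      have e1 := adjE_linGen f c ψ j h
      have e2 := adjE_linGen f c ψ' j h
      rw [hψ1] at e1
      exact e1.trans e2.symm
    intro k
    have hc1 := ((lin_compat c).map (adjE f (lin c) G ψ)) k j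
    have hc2 := ((lin_compat c).map (adjE f (lin c) G ψ')) k j
    simp only at hc1 hc2
    rw [hj, ← hc2] at hc1
    have hle : f ⁻¹ᵁ (U k ⊓ U j) ≤ f ⁻¹ᵁ (U k) := fun x hx => hx.1
    have hge : f ⁻¹ᵁ (U k) ≤ f ⁻¹ᵁ (U k ⊓ U j) := fun x hx => ⟨hx, h ⟨x, rfl⟩⟩
    exact res_injective_of_eq G hle hge hc1
  · intro y
    let y1 : Γ(G, ⊤) := y.app ⊤ (toOO (1 : Γ(Y, ⊤)))
    let t : ∀ k, Γ((pushforward f).obj G, U k) := fun k =>
      c.c k j • (show Γ((pushforward f).obj G, U k) from (res G le_top y1 : Γ(G, f ⁻¹ᵁ (U k))))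
    have ht : Compat c _ t := by
      intro k l
      simp only [t]
      rw [res_smul, res_smul, smul_smul, ← c.mul]
      congr 1
      refine Eq.trans (b := (show Γ((pushforward f).obj G, U k ⊓ U l) from
        (res G le_top y1 : Γ(G, f ⁻¹ᵁ (U k ⊓ U l))))) ?_ ?_
      · exact res_res G _ _ y1
      · exact (res_res G _ _ y1).symm
    obtain ⟨ψ, hψ⟩ := (adjE f (lin c) G).surjective (linDesc ht)
    refine ⟨ψ, ?_⟩
    apply unit_hom_ext
    change (linTriv f c j h ≫ ψ).app ⊤ (toOO (1 : Γ(Y, ⊤))) = _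
    rw [Hom.comp_app, ConcreteCategory.comp_apply, linTriv, unitDesc_one, res_self]
    have e1 := adjE_linGen f c ψ j h
    rw [hψ, linDesc_gen] at e1
    have e2 : t j = (show Γ((pushforward f).obj G, U j) from
        (res G le_top y1 : Γ(G, f ⁻¹ᵁ (U j)))) := by
      simp only [t]
      rw [c.self, one_smul]
    rw [e2] at e1
    exact (res_injective_of_eq G le_top htop.ge e1).symm

end restr

end H18
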