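import Mathlib
import Pool.Agent.H18.Unit

/-! Sections and quasi-coherence of line bundles. -/

open CategoryTheory AlgebraicGeometry Limits TopologicalSpace Scheme.Modules

universe u

set_option maxHeartbeats 400000

namespace H18
variable {X : Scheme.{u}} {J : Type} {U : J → X.Opens} (c : Coc U)

lemma app_bijective_of_isIso {Y : Scheme.{u}} {M N : Y.Modules} (φ : M ⟶ N) [IsIso φ]
    (V : Y.Opens) : Function.Bijective (φ.app V) := by
  have : IsIso (φ.app V) := inferInstance
  exact ConcreteCategory.bijective_of_isIso (φ.app V)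

lemma lin_bijective {j : J} {V : X.Opens} (hV : V ≤ U j) :
    Function.Bijective (fun a : Γ(X, V) => a • res (lin c) hV (linGen c j)) := by
  have h : V.ι.opensRange ≤ U j := by rwa [Scheme.Opens.opensRange_ι]
  have e : V.ι ''ᵁ ⊤ = V := by simp
  have h1 := isIso_linTriv V.ι c j h
  have h2 := app_bijective_of_isIso (linTriv V.ι c j h) ⊤
  have h3 : ∀ a : Γ(V, ⊤), (linTriv V.ι c j h).app ⊤ (toOO a) =
      (show Γ(lin c, V.ι ''ᵁ ⊤) from
        ((V.ι.appIso ⊤).inv a • (res (lin c) (image_top_le V.ι h) (linGen c j)))) := by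
    intro a
    rw [linTriv, unitDesc_apply, res_self]
    rfl
  constructor
  · intro a b hab
    have h4 := congrArg (res (lin c) e.le) hab
    simp only [res_smul, res_res] at h4
    have h5 : (V.ι.appIso ⊤).inv ((V.ι.appIso ⊤).hom (resO e.le a)) = resO e.le a :=
      congr($((V.ι.appIso ⊤).hom_inv_id) (resO e.le a))
    have h6 : (V.ι.appIso ⊤).inv ((V.ι.appIso ⊤).hom (resO e.le b)) = resO e.le b :=
      congr($((V.ι.appIso ⊤).hom_inv_id) (resO e.le b))
    rw [← h5, ← h6] at h4
    have h7 : toOO ((V.ι.appIso ⊤).hom (resO e.le a)) =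
        toOO ((V.ι.appIso ⊤).hom (resO e.le b)) := by
      apply h2.1
      rw [h3, h3]
      exact h4
    have h8 : resO e.le a = resO e.le b := by
      rw [← h5, ← h6]
      exact congrArg (fun t => (V.ι.appIso ⊤).inv (ofOO t)) h7
    have h9 := congrArg (resO e.ge) h8
    rw [resO_resO, resO_resO] at h9
    have : ∀ a : Γ(X, V), resO (le_refl V) a = a := fun a => by
      change (X.presheaf.map (𝟙 _)) a = a
      rw [X.presheaf.map_id]; rfl
    rwa [this, this] at h9
  · intro x
    obtain ⟨a, ha⟩ := h2.2 (show Γ(lin c, V.ι ''ᵁ ⊤) from res (lin c) e.le x)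
    refine ⟨resO e.ge ((V.ι.appIso ⊤).inv (ofOO a)), ?_⟩
    apply res_injective_of_eq (lin c) e.le e.ge
    simp only [res_smul, res_res]
    rw [resO_resO]
    have : ∀ a : Γ(X, V.ι ''ᵁ ⊤), resO (le_refl (V.ι ''ᵁ ⊤)) a = a := fun a => by
      change (X.presheaf.map (𝟙 _)) a = a
      rw [X.presheaf.map_id]; rfl
    rw [this]
    exact (h3 (ofOO a)).symm.trans ha

lemma QCSpec_OO (R : CommRingCat.{u}) : QCSpec (OO (Spec R)) :=
  ⟨ModuleCat.of R R, ⟨tildeSelf⟩⟩

lemma lin_isQuasicoherent (hU : ⨆ j, U j = ⊤) (hA : ∀ j, IsAffineOpen (U j)) :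
    (lin c).IsQuasicoherent := by
  apply isQuasicoherent_of_local
  intro x
  have hx : x ∈ ⨆ j, U j := by rw [hU]; trivial
  obtain ⟨j, hj⟩ := Opens.mem_iSup.1 hx
  have h : (hA j).fromSpec.opensRange ≤ U j := (hA j).opensRange_fromSpec.le
  refine ⟨_, (hA j).fromSpec, inferInstance, ?_, ?_⟩
  · rw [(hA j).opensRange_fromSpec]; exact hj
  · have h1 := isIso_linTriv (hA j).fromSpec c j h
    exact (QCSpec_OO _).of_iso (asIso (linTriv (hA j).fromSpec c j h))

end H18
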