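import Mathlib
import Pool.Agent.H18.Lin
import Pool.Agent.H18.Dev

/-! Chart systems, and extension of sections to twists. -/

open CategoryTheory AlgebraicGeometry Limits TopologicalSpace Scheme.Modules

universe u

set_option maxHeartbeats 400000

namespace H18

/-- A chart system: the formal properties of the standard affine charts of the plane. -/
structure Plane (X : Scheme.{u}) where
  U : Fin 3 → X.Opens
  cover : ⨆ j, U j = ⊤
  affine : ∀ j, IsAffineOpen (U j)
  g : ∀ j, Fin 3 → Γ(X, U j)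
  g_self : ∀ j, g j j = 1
  g_mul : ∀ j k l, resO (inf_le_left : U j ⊓ U k ≤ U j) (g j l) =
    resO (inf_le_left : U j ⊓ U k ≤ U j) (g j k) * resO (inf_le_right : U j ⊓ U k ≤ U k) (g k l)
  basicOpen_g : ∀ j k, X.basicOpen (g j k) = U j ⊓ U k
  noeth : ∀ j, IsNoetherianRing Γ(X, U j)

variable {X : Scheme.{u}}

lemma resO_pow {U V : X.Opens} (h : V ≤ U) (a : Γ(X, U)) (n : ℕ) :
    resO h (a ^ n) = resO h a ^ n :=
  map_pow (X.presheaf.map (homOfLE h).op).hom a n

lemma resO_mul {U V : X.Opens} (h : V ≤ U) (a b : Γ(X, U)) :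
    resO h (a * b) = resO h a * resO h b :=
  map_mul (X.presheaf.map (homOfLE h).op).hom a b

lemma resO_one {U V : X.Opens} (h : V ≤ U) : resO h (1 : Γ(X, U)) = 1 :=
  map_one (X.presheaf.map (homOfLE h).op).hom

lemma res_sub (M : X.Modules) {U V : X.Opens} (h : V ≤ U) (a b : Γ(M, U)) :
    res M h (a - b) = res M h a - res M h b :=
  map_sub (M.presheaf.map (homOfLE h).op).hom a b

lemma res_add (M : X.Modules) {U V : X.Opens} (h : V ≤ U) (a b : Γ(M, U)) :
    res M h (a + b) = res M h a + res M h b :=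
  map_add (M.presheaf.map (homOfLE h).op).hom a b

lemma res_zero (M : X.Modules) {U V : X.Opens} (h : V ≤ U) :
    res M h (0 : Γ(M, U)) = 0 :=
  map_zero (M.presheaf.map (homOfLE h).op).hom

namespace Plane
variable (P : Plane X)

/-- the cocycle of the `n`-th twist -/
def coc (n : ℕ) : Coc P.U where
  c j k := P.g j k ^ n
  self j := by rw [P.g_self, one_pow]
  mul j k l := by rw [resO_pow, resO_pow, resO_pow, P.g_mul j k l, mul_pow]

lemma coc_c (n : ℕ) (j k : Fin 3) : (P.coc n).c j k = P.g j k ^ n := rfl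

/-- Every section over a chart of a quasi-coherent module comes from a twist. -/
lemma exists_compat (F : X.Modules) [F.IsQuasicoherent] (i : Fin 3) (s : Γ(F, P.U i)) :
    ∃ (n : ℕ) (t : ∀ j, Γ(F, P.U j)), Compat (P.coc n) F t ∧ t i = s := by
  have hle : ∀ j, X.basicOpen (P.g j i) ≤ P.U i := fun j => by
    rw [P.basicOpen_g]; exact inf_le_right
  choose n t ht using fun j => exists_extend (P.affine j) F (P.g j i) (res F (hle j) s)
  let N := ∑ j, n j
  have hN : ∀ j, n j ≤ N := fun j => Finset.single_le_sum (fun _ _ => Nat.zero_le _)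
    (Finset.mem_univ j)
  obtain ⟨t', ht'⟩ : ∃ t' : ∀ j, Γ(F, P.U j), ∀ j, res F (X.basicOpen_le (P.g j i)) (t' j) =
      resO (X.basicOpen_le (P.g j i)) (P.g j i) ^ N • res F (hle j) s := by
    refine ⟨fun j => P.g j i ^ (N - n j) • t j, ?_⟩
    intro j
    rw [res_smul, ht, resO_pow, smul_smul, ← pow_add, Nat.sub_add_cancel (hN j)]
  have hU : ∀ j k, IsAffineOpen (P.U j ⊓ P.U k) := fun j k => by
    rw [← P.basicOpen_g]; exact (P.affine j).basicOpen _
  -- the differences
  let d : ∀ j k, Γ(F, P.U j ⊓ P.U k) := fun j k =>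
    res F (inf_le_left : P.U j ⊓ P.U k ≤ P.U j) (t' j) -
      resO (inf_le_left : P.U j ⊓ P.U k ≤ P.U j) (P.g j k) ^ N •
        res F (inf_le_right : P.U j ⊓ P.U k ≤ P.U k) (t' k)
  have hd : ∀ j k, res F (X.basicOpen_le (resO (inf_le_left : P.U j ⊓ P.U k ≤ P.U j) (P.g j i)))
      (d j k) = 0 := by
    intro j k
    have hb : X.basicOpen (resO (inf_le_left : P.U j ⊓ P.U k ≤ P.U j) (P.g j i)) =
        (P.U j ⊓ P.U k) ⊓ X.basicOpen (P.g j i) := Scheme.basicOpen_res _ _ _
    have h1 : X.basicOpen (resO (inf_le_left : P.U j ⊓ P.U k ≤ P.U j) (P.g j i)) ≤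
        X.basicOpen (P.g j i) := hb.trans_le inf_le_right
    have h2 : X.basicOpen (resO (inf_le_left : P.U j ⊓ P.U k ≤ P.U j) (P.g j i)) ≤
        X.basicOpen (P.g k i) := by
      rw [hb, P.basicOpen_g, P.basicOpen_g]
      exact le_inf (inf_le_left.trans inf_le_right) (inf_le_right.trans inf_le_right)
    have h3 := congrArg (res F h1) (ht' j)
    have h4 := congrArg (res F h2) (ht' k)
    rw [res_res, res_smul, res_res, resO_pow, resO_resO] at h3 h4
    simp only [d]
    rw [res_sub, res_smul, res_res, res_res, resO_pow, resO_resO, h3, h4, smul_smul, ← mul_pow]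
    have h5 := congrArg (resO (X.basicOpen_le
      (resO (inf_le_left : P.U j ⊓ P.U k ≤ P.U j) (P.g j i)))) (P.g_mul j k i)
    rw [resO_mul, resO_resO, resO_resO, resO_resO] at h5
    rw [← h5, sub_self]
  choose m hm using fun j k => exists_pow_smul_eq_zero (hU j k) F _ (d j k) (hd j k)
  let M := ∑ j, ∑ k, m j k
  have hM : ∀ j k, m j k ≤ M := fun j k =>
    (Finset.single_le_sum (f := fun k => m j k) (fun _ _ => Nat.zero_le _)
      (Finset.mem_univ k)).trans
    (Finset.single_le_sum (f := fun j => ∑ k, m j k) (fun _ _ => Nat.zero_le _)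
      (Finset.mem_univ j))
  refine ⟨N + M, fun j => P.g j i ^ M • t' j, ?_, ?_⟩
  · intro j k
    rw [coc_c]
    have h1 := hm j k
    have h2 : resO (inf_le_left : P.U j ⊓ P.U k ≤ P.U j) (P.g j i) ^ M • d j k = 0 := by
      rw [← Nat.sub_add_cancel (hM j k), pow_add, mul_smul, h1, smul_zero]
    simp only [d] at h2
    rw [smul_sub, sub_eq_zero] at h2
    rw [res_smul, res_smul, resO_pow, h2, resO_pow, resO_pow, smul_smul, smul_smul]
    congr 1
    rw [P.g_mul j k i]
    ring
  · simp only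
    rw [P.g_self, one_pow, one_smul]
    have h1 : P.U i ≤ X.basicOpen (P.g i i) := by
      rw [P.basicOpen_g, inf_idem]
    apply res_injective_of_eq F (X.basicOpen_le (P.g i i)) h1
    have h2 : ∀ (V : X.Opens) (hV : V ≤ P.U i), resO hV (P.g i i) = 1 := by
      intro V hV; rw [P.g_self, resO_one]
    rw [ht' i, h2, one_pow, one_smul]

end Plane
end H18
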