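import Mathlib
import Pool.Agent.H18.Plane

/-! Coherent modules over a chart system: exactness of sections. -/

open CategoryTheory AlgebraicGeometry Limits TopologicalSpace Scheme.Modules ZeroObject

universe u

set_option maxHeartbeats 400000

namespace H18
variable {X : Scheme.{u}}

section exact
variable {V : X.Opens}

lemma app_injective_of_mono {M N : X.Modules} (φ : M ⟶ N) [Mono φ] (V : X.Opens) :
    Function.Injective (φ.app V) := (mono_iff_app_inj φ).1 inferInstance V

lemma app_surjective_of_epi (hV : IsAffineOpen V) {M N : X.Modules} (φ : M ⟶ N) [Epi φ]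
    (hM : M.IsQuasicoherent) (hN : N.IsQuasicoherent) : Function.Surjective (φ.app V) := by
  have h := shortExact_sec hV (shortExact_kernel φ) (isQuasicoherent_kernel φ) hM hN
  have := h.epi_g
  exact (ModuleCat.epi_iff_surjective _).1 this

lemma image_isQuasicoherent {M N : X.Modules} (φ : M ⟶ N)
    (hM : M.IsQuasicoherent) (hN : N.IsQuasicoherent) :
    (Abelian.image φ : X.Modules).IsQuasicoherent :=
  isQuasicoherent_kernel (cokernel.π φ)

lemma exists_of_cokernel (hV : IsAffineOpen V) {M N : X.Modules} (φ : M ⟶ N)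
    (hM : M.IsQuasicoherent) (hN : N.IsQuasicoherent) (x : Γ(N, V))
    (hx : (cokernel.π φ).app V x = 0) : ∃ y : Γ(M, V), φ.app V y = x := by
  have hI := image_isQuasicoherent φ hM hN
  have h := shortExact_sec hV (shortExact_im_right φ) hI hN (isQuasicoherent_cokernel φ)
  obtain ⟨z, hz⟩ := (ShortComplex.ShortExact.moduleCat_exact_iff_function_exact _).1 h.exact x |>.1 hx
  obtain ⟨y, hy⟩ := app_surjective_of_epi hV (Abelian.factorThruImage φ) hM hI z
  refine ⟨y, ?_⟩
  rw [← hz, ← hy]
  change _ = (Abelian.image.ι φ).app V ((Abelian.factorThruImage φ).app V y)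
  rw [← ConcreteCategory.comp_apply, ← Hom.comp_app, Abelian.image.fac]

lemma exists_of_kernel (hV : IsAffineOpen V) {M N : X.Modules} (φ : M ⟶ N)
    (hM : M.IsQuasicoherent) (hN : N.IsQuasicoherent) (x : Γ(M, V))
    (hx : φ.app V x = 0) : ∃ y : Γ(kernel φ, V), (kernel.ι φ).app V y = x := by
  have hI := image_isQuasicoherent φ hM hN
  have h := shortExact_sec hV (shortExact_im_left φ) (isQuasicoherent_kernel φ) hM hI
  have h1 : (Abelian.factorThruImage φ).app V x = 0 := by
    apply app_injective_of_mono (Abelian.image.ι φ) V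
    rw [← ConcreteCategory.comp_apply, ← Hom.comp_app, Abelian.image.fac, hx, map_zero]
  exact (ShortComplex.ShortExact.moduleCat_exact_iff_function_exact _).1 h.exact x |>.1 h1

end exact

namespace Plane
variable (P : Plane X)

lemma isZero_of_sections {M : X.Modules} (hM : M.IsQuasicoherent)
    (h : ∀ j, ∀ x : Γ(M, P.U j), x = 0) : IsZero M :=
  isZero_of_cover M P.U P.cover P.affine (fun j => ⟨fun a b => by rw [h j a, h j b]⟩)

lemma eq_zero_of_sections {M N : X.Modules} (φ : M ⟶ N) (hM : M.IsQuasicoherent)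
    (hN : N.IsQuasicoherent) (h : ∀ j, ∀ x : Γ(M, P.U j), φ.app (P.U j) x = 0) : φ = 0 := by
  have hI := image_isQuasicoherent φ hM hN
  have h1 : IsZero (Abelian.image φ) := by
    apply P.isZero_of_sections hI
    intro j x
    obtain ⟨y, rfl⟩ := app_surjective_of_epi (P.affine j) (Abelian.factorThruImage φ) hM hI x
    apply app_injective_of_mono (Abelian.image.ι φ) _
    rw [← ConcreteCategory.comp_apply, ← Hom.comp_app, Abelian.image.fac, h j y, map_zero]
  rw [← Abelian.image.fac φ, h1.eq_zero_of_src (Abelian.image.ι φ), comp_zero]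

lemma epi_of_sections {M N : X.Modules} (φ : M ⟶ N) (hM : M.IsQuasicoherent)
    (hN : N.IsQuasicoherent) (h : ∀ j, Function.Surjective (φ.app (P.U j))) : Epi φ := by
  have h1 : IsZero (cokernel φ) := by
    apply P.isZero_of_sections (isQuasicoherent_cokernel φ)
    intro j x
    obtain ⟨y, rfl⟩ := app_surjective_of_epi (P.affine j) (cokernel.π φ) hN
      (isQuasicoherent_cokernel φ) x
    obtain ⟨z, rfl⟩ := h j y
    rw [← ConcreteCategory.comp_apply, ← Hom.comp_app, cokernel.condition]
    rfl
  exact Preadditive.epi_of_isZero_cokernel φ h1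

lemma mono_of_sections {M N : X.Modules} (φ : M ⟶ N) (hM : M.IsQuasicoherent)
    (hN : N.IsQuasicoherent) (h : ∀ j, Function.Injective (φ.app (P.U j))) : Mono φ := by
  have h1 : IsZero (kernel φ) := by
    apply P.isZero_of_sections (isQuasicoherent_kernel φ)
    intro j x
    apply app_injective_of_mono (kernel.ι φ) _
    apply h j
    rw [← ConcreteCategory.comp_apply, ← Hom.comp_app, kernel.condition, map_zero, map_zero]
    rfl
  exact Preadditive.mono_of_isZero_kernel φ h1

/-- Quasi-coherent modules with finitely generated sections over the charts. -/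
structure Coh (F : X.Modules) : Prop where
  qc : F.IsQuasicoherent
  fin : ∀ j, Module.Finite Γ(X, P.U j) Γ(F, P.U j)

/-- sections as a linear map -/
noncomputable def appLin {M N : X.Modules} (φ : M ⟶ N) (V : X.Opens) : Γ(M, V) →ₗ[Γ(X, V)] Γ(N, V) where
  toFun := φ.app V
  map_add' a b := map_add _ a b
  map_smul' r a := Hom.app_smul φ r a

variable {P}

lemma Coh.of_injective {M N : X.Modules} (hN : P.Coh N) (hM : M.IsQuasicoherent) (φ : M ⟶ N)
    (h : ∀ j, Function.Injective (φ.app (P.U j))) : P.Coh M := by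
  refine ⟨hM, fun j => ?_⟩
  have := P.noeth j
  have := hN.fin j
  exact Module.Finite.of_injective (appLin φ (P.U j)) (h j)

lemma Coh.of_surjective {M N : X.Modules} (hM : P.Coh M) (hN : N.IsQuasicoherent) (φ : M ⟶ N)
    (h : ∀ j, Function.Surjective (φ.app (P.U j))) : P.Coh N := by
  refine ⟨hN, fun j => ?_⟩
  have := hM.fin j
  exact Module.Finite.of_surjective (appLin φ (P.U j)) (h j)

lemma Coh.kernel {M N : X.Modules} (hM : P.Coh M) (hN : P.Coh N) (φ : M ⟶ N) :
    P.Coh (Limits.kernel φ) := by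
  have := hM.qc
  have := hN.qc
  exact hM.of_injective (isQuasicoherent_kernel φ) (kernel.ι φ)
    (fun j => app_injective_of_mono _ _)

lemma Coh.cokernel {M N : X.Modules} (hM : P.Coh M) (hN : P.Coh N) (φ : M ⟶ N) :
    P.Coh (Limits.cokernel φ) := by
  have := hM.qc
  have := hN.qc
  exact hN.of_surjective (isQuasicoherent_cokernel φ) (cokernel.π φ)
    (fun j => app_surjective_of_epi (P.affine j) _ this inferInstance)

lemma Coh.of_iso {M N : X.Modules} (hM : P.Coh M) (e : M ≅ N) : P.Coh N := by
  have := hM.qc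
  exact hM.of_surjective (isQuasicoherent_of_iso e) e.hom
    (fun j => (app_bijective_of_isIso e.hom _).2)

lemma Coh.of_isZero {M : X.Modules} (h : IsZero M) : P.Coh M := by
  refine ⟨?_, fun j => ?_⟩
  · apply isQuasicoherent_of_local
    intro x
    obtain ⟨R, f, hf, hx⟩ := exists_affine_nhd x
    refine ⟨R, f, hf, hx, ?_⟩
    have h1 : IsZero (M.restrict f) := (restrictFunctor f).map_isZero h
    have h2 : IsZero ((tl R).obj (0 : ModuleCat R)) := (tl R).map_isZero (isZero_zero _)
    exact (QCSpec.tl _).of_iso (h2.iso h1)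
  · have := subsingleton_of_isZero h (P.U j)
    infer_instance

lemma Coh.biprod {M N : X.Modules} (hM : P.Coh M) (hN : P.Coh N) : P.Coh (M ⊞ N) := by
  have := hM.qc
  have := hN.qc
  have hqc : (M ⊞ N : X.Modules).IsQuasicoherent := by
    apply isQuasicoherent_of_local
    intro x
    obtain ⟨R, f, hf, hx⟩ := exists_affine_nhd x
    refine ⟨R, f, hf, hx, ?_⟩
    obtain ⟨A, ⟨i⟩⟩ := QCSpec_of_isQuasicoherent f M
    obtain ⟨B, ⟨j⟩⟩ := QCSpec_of_isQuasicoherent f N
    have h1 := preservesBinaryBiproducts_of_preservesBiproducts (tl R)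
    have h2 := preservesBinaryBiproducts_of_preservesBiproducts (restrictFunctor f)
    have e : (tl R).obj (A ⊞ B) ≅ (restrictFunctor f).obj (M ⊞ N) :=
      (tl R).mapBiprod A B ≪≫ biprod.mapIso i j ≪≫ ((restrictFunctor f).mapBiprod M N).symm
    exact ⟨A ⊞ B, ⟨e⟩⟩
  refine ⟨hqc, fun j => ?_⟩
  have := hM.fin j
  have := hN.fin j
  refine Module.Finite.of_surjective ((appLin (biprod.inl : M ⟶ M ⊞ N) (P.U j)).coprod
    (appLin (biprod.inr : N ⟶ M ⊞ N) (P.U j))) ?_
  intro x
  refine ⟨((biprod.fst : M ⊞ N ⟶ M).app (P.U j) x, (biprod.snd : M ⊞ N ⟶ N).app (P.U j) x), ?_⟩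
  have h := congrArg (fun (t : M ⊞ N ⟶ M ⊞ N) => t.app (P.U j) x) (biprod.total (X := M) (Y := N))
  exact h

end Plane
end H18
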