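import Mathlib
import Pool.Agent.H18.Coh

/-! Twists on the coordinate strata. -/

open CategoryTheory AlgebraicGeometry Limits TopologicalSpace Scheme.Modules ZeroObject

universe u

set_option maxHeartbeats 400000

namespace H18
variable {X : Scheme.{u}}

namespace Plane
variable (P : Plane X)

/-- modules killed by the first `c` coordinates -/
def Kill (c : ℕ) (F : X.Modules) : Prop :=
  ∀ j (a : Fin 3), a.val < c → ∀ x : Γ(F, P.U j), P.g j a • x = 0

/-- twists of the structure sheaf of the stratum where the first `c` coordinates vanish -/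
structure Tow (c : ℕ) where
  R : ℕ → X.Modules
  μ : Fin 3 → ∀ n, R (n + 1) ⟶ R n
  e : ∀ n j, Γ(R n, P.U j)
  coh : ∀ n, P.Coh (R n)
  kill : ∀ n, P.Kill c (R n)
  compat : ∀ n, Compat (P.coc n) (R n) (e n)
  gen : ∀ n j (x : Γ(R n, P.U j)), ∃ a : Γ(X, P.U j), x = a • e n j
  μ_e : ∀ a n j, (μ a n).app (P.U j) (e (n + 1) j) = P.g j a • e n j
  desc : ∀ n (F : X.Modules), F.IsQuasicoherent → P.Kill c F →
    ∀ t, Compat (P.coc n) F t → ∃ φ : R n ⟶ F, ∀ j, φ.app (P.U j) (e n j) = t j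
  ann : ∀ n j (a : Γ(X, P.U j)), a • e n j = 0 →
    a ∈ Ideal.span {b | ∃ i : Fin 3, i.val < c ∧ b = P.g j i}

variable {P}

lemma Kill.of_injective {c : ℕ} {M N : X.Modules} (hN : P.Kill c N) (φ : M ⟶ N)
    (h : ∀ j, Function.Injective (φ.app (P.U j))) : P.Kill c M := by
  intro j a ha x
  apply h j
  rw [Hom.app_smul, hN j a ha, map_zero]

lemma Kill.of_surjective {c : ℕ} {M N : X.Modules} (hM : P.Kill c M) (φ : M ⟶ N)
    (h : ∀ j, Function.Surjective (φ.app (P.U j))) : P.Kill c N := by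
  intro j a ha x
  obtain ⟨y, rfl⟩ := h j x
  rw [← Hom.app_smul, hM j a ha, map_zero]

namespace Tow

lemma hom_ext {c : ℕ} (T : P.Tow c) {n : ℕ} {F : X.Modules} (hF : F.IsQuasicoherent)
    {φ ψ : T.R n ⟶ F}
    (h : ∀ j, φ.app (P.U j) (T.e n j) = ψ.app (P.U j) (T.e n j)) : φ = ψ := by
  rw [← sub_eq_zero]
  apply P.eq_zero_of_sections _ (T.coh n).qc hF
  intro j x
  obtain ⟨a, rfl⟩ := T.gen n j x
  rw [Hom.app_smul, Hom.sub_app]
  change a • (φ.app (P.U j) (T.e n j) - ψ.app (P.U j) (T.e n j)) = 0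
  rw [h j, sub_self, smul_zero]

lemma comm {c : ℕ} (T : P.Tow c) (a b : Fin 3) (n : ℕ) :
    T.μ a (n + 1) ≫ T.μ b n = T.μ b (n + 1) ≫ T.μ a n := by
  apply T.hom_ext (T.coh n).qc
  intro j
  rw [Hom.comp_app, Hom.comp_app, ConcreteCategory.comp_apply, ConcreteCategory.comp_apply,
    T.μ_e, T.μ_e, Hom.app_smul, Hom.app_smul, T.μ_e, T.μ_e, smul_smul, smul_smul, mul_comm]

variable (P) in
/-- the tower of line bundles -/
noncomputable def base : P.Tow 0 where
  R n := lin (P.coc n)
  μ a n := linDesc (c := P.coc (n + 1)) (F := lin (P.coc n))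
    (t := fun j => P.g j a • linGen (P.coc n) j) (by
      intro j k
      rw [res_smul, res_smul, lin_compat, coc_c, coc_c, smul_smul, smul_smul, resO_pow, resO_pow,
        P.g_mul j k a]
      congr 1
      ring)
  e n j := linGen (P.coc n) j
  coh n := by
    refine ⟨lin_isQuasicoherent _ P.cover P.affine, fun j => ?_⟩
    have h := lin_bijective (P.coc n) (j := j) (le_refl (P.U j))
    refine Module.Finite.of_surjective (LinearMap.toSpanSingleton Γ(X, P.U j) _
      (linGen (P.coc n) j)) ?_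
    intro x
    obtain ⟨a, ha⟩ := h.2 x
    refine ⟨a, ?_⟩
    rw [← ha]
    simp only [LinearMap.toSpanSingleton_apply, res_self]
  kill n := by
    intro j a ha
    omega
  compat n := lin_compat _
  gen n j x := by
    obtain ⟨a, ha⟩ := (lin_bijective (P.coc n) (j := j) (le_refl (P.U j))).2 x
    refine ⟨a, ?_⟩
    rw [← ha]
    simp only [res_self]
  μ_e a n j := linDesc_gen _ j
  desc n F _ _ t ht := ⟨linDesc ht, linDesc_gen ht⟩
  ann n j a ha := by
    have h := (lin_bijective (P.coc n) (j := j) (le_refl (P.U j))).1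
    have h0 : a = 0 := by
      apply h
      simp only [res_self, ha, zero_smul]
    rw [h0]
    exact zero_mem _

/-- the next stratum -/
noncomputable def next {c : ℕ} (T : P.Tow c) (κ : Fin 3) (hκ : κ.val = c) : P.Tow (c + 1) where
  R n := cokernel (T.μ κ n)
  μ a n := cokernel.map (T.μ κ (n + 1)) (T.μ κ n) (T.μ a (n + 1)) (T.μ a n) (T.comm κ a n)
  e n j := (cokernel.π (T.μ κ n)).app (P.U j) (T.e n j)
  coh n := (T.coh (n + 1)).cokernel (T.coh n) _
  kill n := by
    have h1 : P.Kill c (cokernel (T.μ κ n)) := (T.kill n).of_surjective (cokernel.π (T.μ κ n))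
      (fun j => app_surjective_of_epi (P.affine j) _ (T.coh n).qc
        ((T.coh (n + 1)).cokernel (T.coh n) _).qc)
    intro j a ha x
    rcases Nat.lt_succ_iff_lt_or_eq.1 ha with h | h
    · exact h1 j a h x
    · have : a = κ := Fin.ext (h.trans hκ.symm)
      subst this
      obtain ⟨y, rfl⟩ := app_surjective_of_epi (P.affine j) (cokernel.π (T.μ a n)) (T.coh n).qc
        ((T.coh (n + 1)).cokernel (T.coh n) _).qc x
      obtain ⟨b, rfl⟩ := T.gen n j y
      rw [← Hom.app_smul, smul_comm, ← T.μ_e, ← Hom.app_smul, ← ConcreteCategory.comp_apply,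
        ← Hom.comp_app, cokernel.condition]
      rfl
  compat n := (T.compat n).map (cokernel.π (T.μ κ n))
  gen n j x := by
    obtain ⟨y, rfl⟩ := app_surjective_of_epi (P.affine j) (cokernel.π (T.μ κ n)) (T.coh n).qc
        ((T.coh (n + 1)).cokernel (T.coh n) _).qc x
    obtain ⟨b, rfl⟩ := T.gen n j y
    exact ⟨b, Hom.app_smul _ _ _⟩
  μ_e a n j := by
    rw [← ConcreteCategory.comp_apply, ← Hom.comp_app, cokernel.π_desc, Hom.comp_app,
      ConcreteCategory.comp_apply, T.μ_e, Hom.app_smul]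
  desc n F hF hK t ht := by
    obtain ⟨φ, hφ⟩ := T.desc n F hF (fun j a ha x => hK j a (by omega) x) t ht
    have h0 : T.μ κ n ≫ φ = 0 := by
      apply T.hom_ext hF
      intro j
      rw [Hom.comp_app, ConcreteCategory.comp_apply, T.μ_e, Hom.app_smul,
        hK j κ (by omega)]
      rfl
    refine ⟨cokernel.desc _ φ h0, fun j => ?_⟩
    rw [← ConcreteCategory.comp_apply, ← Hom.comp_app, cokernel.π_desc, hφ]
  ann n j a ha := by
    rw [← Hom.app_smul] at ha
    obtain ⟨y, hy⟩ := exists_of_cokernel (P.affine j) (T.μ κ n) (T.coh (n + 1)).qc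
      (T.coh n).qc _ ha
    obtain ⟨b, rfl⟩ := T.gen (n + 1) j y
    rw [Hom.app_smul, T.μ_e, smul_smul] at hy
    have h1 : (a - b * P.g j κ) • T.e n j = 0 := by
      rw [sub_smul, ← hy, sub_self]
    have h2 := T.ann n j _ h1
    have h3 : Ideal.span {b | ∃ i : Fin 3, i.val < c ∧ b = P.g j i} ≤
        Ideal.span {b | ∃ i : Fin 3, i.val < c + 1 ∧ b = P.g j i} := by
      apply Ideal.span_mono
      rintro _ ⟨i, hi, rfl⟩
      exact ⟨i, by omega, rfl⟩
    have h4 : b * P.g j κ ∈ Ideal.span {b | ∃ i : Fin 3, i.val < c + 1 ∧ b = P.g j i} :=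
      Ideal.mul_mem_left _ _ (Ideal.subset_span ⟨κ, by omega, rfl⟩)
    have h5 := add_mem (h3 h2) h4
    rwa [sub_add_cancel] at h5

end Tow

end Plane
end H18
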