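import Mathlib
import Pool.Agent.H18.Tower
import Pool.Agent.H18.GD

/-! The stratification argument. -/

open CategoryTheory AlgebraicGeometry Limits TopologicalSpace Scheme.Modules ZeroObject

universe u

set_option maxHeartbeats 400000

namespace H18
variable {X : Scheme.{u}}

attribute [local instance] Abelian.hasFiniteBiproducts

lemma app_sum {M N : X.Modules} {ι : Type*} (s : Finset ι) (φ : ι → (M ⟶ N)) (V : X.Opens)
    (x : Γ(M, V)) : (∑ i ∈ s, φ i).app V x = ∑ i ∈ s, (φ i).app V x := by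
  let f : (M ⟶ N) →+ Γ(N, V) :=
    { toFun := fun φ => φ.app V x
      map_zero' := rfl
      map_add' := fun _ _ => rfl }
  exact map_sum f φ s

lemma sum_sections {m : ℕ} (f : Fin m → X.Modules) (V : X.Opens) (z : Γ(⨁ f, V)) :
    z = ∑ i, (biproduct.ι f i).app V ((biproduct.π f i).app V z) := by
  have h := congrArg (fun (t : ⨁ f ⟶ ⨁ f) => t.app V z) (biproduct.total (f := f))
  simp only [app_sum] at h
  exact h.symm

namespace Plane
variable {P : Plane X}

lemma Tow.ext_section {c : ℕ} (T : P.Tow c) {F : X.Modules} (hF : P.Coh F) (hK : P.Kill c F)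
    (i : Fin 3) (s : Γ(F, P.U i)) :
    ∃ (n : ℕ) (φ : T.R n ⟶ F), φ.app (P.U i) (T.e n i) = s := by
  have := hF.qc
  obtain ⟨n, t, ht, hi⟩ := P.exists_compat F i s
  obtain ⟨φ, hφ⟩ := T.desc n F hF.qc hK t ht
  exact ⟨n, φ, (hφ i).trans hi⟩

lemma Coh.biproduct {m : ℕ} (f : Fin m → X.Modules) (h : ∀ i, P.Coh (f i)) : P.Coh (⨁ f) :=
  biproduct_fin_of_sum P.Coh (fun e h => h.of_iso e) (fun h => Coh.of_isZero h)
    (fun h h' => h.biprod h') f h

lemma Tow.exists_epi {c : ℕ} (T : P.Tow c) {F : X.Modules} (hF : P.Coh F) (hK : P.Kill c F) :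
    ∃ (m : ℕ) (n : Fin m → ℕ) (π : (⨁ fun i => T.R (n i)) ⟶ F), Epi π := by
  have hfin := hF.fin
  choose S hS using fun j => (hfin j).fg_top
  let I := Σ j : Fin 3, S j
  let m := Fintype.card I
  let E : Fin m ≃ I := (Fintype.equivFin I).symm
  choose n φ hφ using fun i : I => T.ext_section hF hK i.1 i.2.1
  refine ⟨m, fun i => n (E i), biproduct.desc (fun i => φ (E i)), ?_⟩
  apply P.epi_of_sections _ (Coh.biproduct _ (fun i => T.coh _)).qc hF.qc
  intro j
  let L : Γ(⨁ fun i => T.R (n (E i)), P.U j) →ₗ[Γ(X, P.U j)] Γ(F, P.U j) :=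
    appLin (biproduct.desc (fun i => φ (E i))) (P.U j)
  have h1 : (⊤ : Submodule Γ(X, P.U j) Γ(F, P.U j)) ≤ LinearMap.range L := by
    rw [← hS j, Submodule.span_le]
    intro s hs
    have h2 := hφ ⟨j, ⟨s, hs⟩⟩
    obtain ⟨i, hi⟩ := E.surjective ⟨j, ⟨s, hs⟩⟩
    refine ⟨(biproduct.ι (fun i => T.R (n (E i))) i).app (P.U j) (T.e (n (E i)) j), ?_⟩
    change (biproduct.desc (fun i => φ (E i))).app (P.U j) _ = _
    rw [← ConcreteCategory.comp_apply, ← Hom.comp_app, biproduct.ι_desc, hi]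
    exact h2
  exact fun x => h1 (Submodule.mem_top : x ∈ ⊤)

/-- multiplication by a coordinate on sums of twists -/
noncomputable def Tow.mul {c : ℕ} (T : P.Tow c) (κ : Fin 3) {m : ℕ} (n : Fin m → ℕ) :
    (⨁ fun i => T.R (n i + 1)) ⟶ (⨁ fun i => T.R (n i)) :=
  biproduct.map (fun i => T.μ κ (n i))

lemma Tow.mul_ι {c : ℕ} (T : P.Tow c) (κ : Fin 3) {m : ℕ} (n : Fin m → ℕ) (j : Fin 3)
    (i : Fin m) (b : Γ(X, P.U j)) :
    (T.mul κ n).app (P.U j) ((biproduct.ι (fun i => T.R (n i + 1)) i).app (P.U j)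
      (b • T.e (n i + 1) j)) = P.g j κ • (biproduct.ι (fun i => T.R (n i)) i).app (P.U j)
      (b • T.e (n i) j) := by
  rw [← ConcreteCategory.comp_apply, ← Hom.comp_app, Tow.mul, biproduct.ι_map, Hom.comp_app,
    ConcreteCategory.comp_apply, Hom.app_smul, T.μ_e, smul_comm, Hom.app_smul]

lemma Tow.exists_mul {c : ℕ} (T : P.Tow c) (κ : Fin 3) {m : ℕ} (n : Fin m → ℕ) (j : Fin 3)
    (z : Γ(⨁ (fun i => T.R (n i)), P.U j)) :
    ∃ w, (T.mul κ n).app (P.U j) w = P.g j κ • z := by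
  choose b hb using fun i => T.gen (n i) j
    ((biproduct.π (fun i => T.R (n i)) i).app (P.U j) z)
  refine ⟨∑ i, (biproduct.ι (fun i => T.R (n i + 1)) i).app (P.U j)
    (b i • T.e (n i + 1) j), ?_⟩
  conv_rhs => rw [sum_sections _ _ z]
  rw [map_sum, Finset.smul_sum]
  refine Finset.sum_congr rfl fun i _ => ?_
  rw [T.mul_ι, ← hb]

lemma Tow.mul_eq {c : ℕ} (T : P.Tow c) (κ : Fin 3) {m : ℕ} (n : Fin m → ℕ) (j : Fin 3)
    (w : Γ(⨁ (fun i => T.R (n i + 1)), P.U j)) :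
    ∃ z, (T.mul κ n).app (P.U j) w = P.g j κ • z := by
  choose b hb using fun i => T.gen (n i + 1) j
    ((biproduct.π (fun i => T.R (n i + 1)) i).app (P.U j) w)
  refine ⟨∑ i, (biproduct.ι (fun i => T.R (n i)) i).app (P.U j)
    (b i • T.e (n i) j), ?_⟩
  conv_lhs => rw [sum_sections _ _ w]
  rw [map_sum, Finset.smul_sum]
  refine Finset.sum_congr rfl fun i _ => ?_
  rw [hb, T.mul_ι]

lemma nilp_aux {G : ObjectProperty X.Modules} (hG : IsDev G) {c : ℕ} (T : P.Tow c) (κ : Fin 3)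
    (hκ : κ.val = c) (hnext : ∀ F, P.Coh F → P.Kill (c + 1) F → G F) (N : ℕ) :
    ∀ F, P.Coh F → P.Kill c F → (∀ j, ∀ x : Γ(F, P.U j), P.g j κ ^ N • x = 0) → G F := by
  induction N with
  | zero =>
    intro F hF _ h
    apply hG.zero
    apply P.isZero_of_sections hF.qc
    intro j x
    have := h j x
    rwa [pow_zero, one_smul] at this
  | succ N ih =>
    intro F hF hK h
    obtain ⟨m, n, π, hπ⟩ := T.exists_epi hF hK
    have hP0 : P.Coh (⨁ fun i => T.R (n i)) := Coh.biproduct _ (fun i => T.coh _)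
    have hP1 : P.Coh (⨁ fun i => T.R (n i + 1)) := Coh.biproduct _ (fun i => T.coh _)
    let ψ := T.mul κ n ≫ π
    have hQ : P.Coh (cokernel ψ) := hP1.cokernel hF ψ
    have hI : P.Coh (Abelian.image ψ) := hF.kernel hQ (cokernel.π ψ)
    have hπs := fun j => app_surjective_of_epi (P.affine j) π hP0.qc hF.qc
    have hqs := fun j => app_surjective_of_epi (P.affine j) (cokernel.π ψ) hF.qc hQ.qc
    have hfs := fun j => app_surjective_of_epi (P.affine j) (Abelian.factorThruImage ψ)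
      hP1.qc hI.qc
    have hKQ : P.Kill (c + 1) (cokernel ψ) := by
      intro j a ha x
      rcases Nat.lt_succ_iff_lt_or_eq.1 ha with h' | h'
      · exact hK.of_surjective (cokernel.π ψ) hqs j a h' x
      · have : a = κ := Fin.ext (h'.trans hκ.symm)
        subst this
        obtain ⟨y, rfl⟩ := hqs j x
        obtain ⟨z, rfl⟩ := hπs j y
        obtain ⟨w, hw⟩ := T.exists_mul a n j z
        have h1 : (T.mul a n ≫ π) ≫ cokernel.π ψ = 0 := cokernel.condition ψ
        have h2 := congrArg (fun (t : _ ⟶ cokernel ψ) => t.app (P.U j) w) h1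
        rw [← Hom.app_smul, ← Hom.app_smul, ← hw]
        exact h2
    have hKI : P.Kill c (Abelian.image ψ) := hK.of_injective (Abelian.image.ι ψ)
      (fun j => app_injective_of_mono _ _)
    have hnil : ∀ j, ∀ x : Γ((Abelian.image ψ : X.Modules), P.U j), P.g j κ ^ N • x = 0 := by
      intro j x
      apply app_injective_of_mono (Abelian.image.ι ψ) (P.U j)
      obtain ⟨w, rfl⟩ := hfs j x
      obtain ⟨z, hz⟩ := T.mul_eq κ n j w
      rw [Hom.app_smul, map_zero, ← ConcreteCategory.comp_apply, ← Hom.comp_app,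
        Abelian.image.fac, Hom.comp_app, ConcreteCategory.comp_apply, hz, Hom.app_smul,
        smul_smul, ← pow_succ, h]
    exact hG.mid (shortExact_im_right ψ) (ih _ hI hKI hnil) (hnext _ hQ hKQ)

lemma exists_nilp {F : X.Modules} (hF : P.Coh F) (κ : Fin 3)
    (h : Subsingleton Γ(F, P.U κ)) :
    ∃ N : ℕ, ∀ j, ∀ x : Γ(F, P.U j), P.g j κ ^ N • x = 0 := by
  have hqc := hF.qc
  have h1 : ∀ j, ∀ x : Γ(F, P.U j), ∃ n : ℕ, P.g j κ ^ n • x = 0 := by
    intro j x
    apply exists_pow_smul_eq_zero (P.affine j) F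
    have h2 : X.basicOpen (P.g j κ) ≤ P.U κ := by
      rw [P.basicOpen_g]; exact inf_le_right
    exact (subsingleton_of_le (P.affine κ) F h h2).elim _ _
  have h2 : ∀ j, ∃ N : ℕ, ∀ x : Γ(F, P.U j), P.g j κ ^ N • x = 0 := by
    intro j
    obtain ⟨S, hS⟩ := (hF.fin j).fg_top
    choose n hn using h1 j
    refine ⟨∑ s ∈ S, n s, ?_⟩
    have h3 : (⊤ : Submodule Γ(X, P.U j) Γ(F, P.U j)) ≤
        LinearMap.ker (LinearMap.lsmul Γ(X, P.U j) Γ(F, P.U j) (P.g j κ ^ (∑ s ∈ S, n s))) := by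
      rw [← hS, Submodule.span_le]
      intro s hs
      change P.g j κ ^ (∑ s ∈ S, n s) • s = 0
      have h4 : n s ≤ ∑ s ∈ S, n s := Finset.single_le_sum (fun _ _ => Nat.zero_le _) hs
      rw [← Nat.sub_add_cancel h4, pow_add, mul_smul, hn, smul_zero]
    intro x
    exact h3 (Submodule.mem_top : x ∈ ⊤)
  choose N hN using h2
  refine ⟨∑ j, N j, fun j x => ?_⟩
  have h4 : N j ≤ ∑ j, N j := Finset.single_le_sum (fun _ _ => Nat.zero_le _)
    (Finset.mem_univ j)
  rw [← Nat.sub_add_cancel h4, pow_add, mul_smul, hN, smul_zero]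

lemma isAb (c : ℕ) : IsAb (fun F : X.Modules => P.Coh F ∧ P.Kill c F) where
  iso e h := ⟨h.1.of_iso e, h.2.of_surjective e.hom (fun j => (app_bijective_of_isIso e.hom _).2)⟩
  ker f h1 h2 := ⟨h1.1.kernel h2.1 f, h1.2.of_injective (kernel.ι f)
    (fun j => app_injective_of_mono _ _)⟩
  coker f h1 h2 := ⟨h1.1.cokernel h2.1 f, h2.2.of_surjective (cokernel.π f)
    (fun j => app_surjective_of_epi (P.affine j) _ h2.1.qc (h1.1.cokernel h2.1 f).qc)⟩
  sum {M N} h1 h2 := ⟨h1.1.biprod h2.1, fun j a ha x => by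
    have h := congrArg (fun (t : M ⊞ N ⟶ M ⊞ N) => t.app (P.U j) x)
      (biprod.total (X := M) (Y := N))
    have h3 : (biprod.inl : M ⟶ M ⊞ N).app (P.U j) ((biprod.fst : M ⊞ N ⟶ M).app (P.U j) x) +
      (biprod.inr : N ⟶ M ⊞ N).app (P.U j) ((biprod.snd : M ⊞ N ⟶ N).app (P.U j) x) = x := h
    have e1 : P.g j a • (biprod.inl : M ⟶ M ⊞ N).app (P.U j)
        ((biprod.fst : M ⊞ N ⟶ M).app (P.U j) x) = 0 := by
      rw [← Hom.app_smul, h1.2 j a ha, map_zero]
    have e2 : P.g j a • (biprod.inr : N ⟶ M ⊞ N).app (P.U j)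
        ((biprod.snd : M ⊞ N ⟶ N).app (P.U j) x) = 0 := by
      rw [← Hom.app_smul, h2.2 j a ha, map_zero]
    rw [← h3, smul_add, e1, e2, add_zero]⟩

/-- one step of the stratification -/
theorem claim_step {G : ObjectProperty X.Modules} (hG : IsDev G) {c : ℕ} (T : P.Tow c)
    (κ : Fin 3) (hκ : κ.val = c) (hT : ∀ n, G (T.R n)) {B : Type u} [CommRing B]
    (β : B →+* Γ(X, P.U κ))
    (hinj : ∀ b, β b ∈ Ideal.span {b | ∃ i : Fin 3, i.val < c ∧ b = P.g κ i} → b = 0)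
    (hsurj : ∀ a, ∃ b, a - β b ∈ Ideal.span {b | ∃ i : Fin 3, i.val < c ∧ b = P.g κ i})
    (hB : GD B 2) (hnext : ∀ F, P.Coh F → P.Kill (c + 1) F → G F) :
    ∀ F, P.Coh F → P.Kill c F → G F := by
  intro F hF hK
  let Γ' : X.Modules ⥤ ModuleCat.{u} B := sec (P.U κ) ⋙ ModuleCat.restrictScalars β
  have hadd : Γ'.Additive := inferInstance
  refine level hG (isAb (P := P) c)
    (fun h => ⟨Coh.of_isZero h, fun j a _ x => (subsingleton_of_isZero h _).elim _ _⟩)
    Γ' ?_ T.R hT (fun n => ⟨T.coh n, T.kill n⟩) (fun n => T.e n κ) ?_ ?_ ?_ ?_ 2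
    ⟨hF, hK⟩ (hB _)
  · intro S hS h1 h2 h3
    have h4 := shortExact_sec (P.affine κ) hS h1.1.qc h2.1.qc h3.1.qc
    exact h4.map_of_exact (ModuleCat.restrictScalars β)
  · intro n
    constructor
    · intro b b' hbb
      have h1 : (β (b - b')) • T.e n κ = 0 := by
        rw [map_sub, sub_smul, sub_eq_zero]
        exact hbb
      exact sub_eq_zero.1 (hinj _ (T.ann n κ _ h1))
    · intro x
      obtain ⟨a, ha⟩ := T.gen n κ x
      obtain ⟨b, hb⟩ := hsurj a
      refine ⟨b, ?_⟩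
      have h1 : Ideal.span {b | ∃ i : Fin 3, i.val < c ∧ b = P.g κ i} ≤
          LinearMap.ker (LinearMap.toSpanSingleton Γ(X, P.U κ) _ (T.e n κ)) := by
        rw [Ideal.span_le]
        rintro _ ⟨i, hi, rfl⟩
        exact T.kill n κ i hi _
      have h2 : (a - β b) • T.e n κ = 0 := h1 hb
      rw [sub_smul, sub_eq_zero] at h2
      exact h2.symm.trans ha.symm
  · intro F hF s
    exact T.ext_section hF.1 hF.2 κ s
  · intro F hF
    exact T.exists_epi hF.1 hF.2
  · intro F hF h0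
    have h1 : Subsingleton Γ(F, P.U κ) :=
      @ModuleCat.subsingleton_of_isZero B _ (Γ'.obj F) h0
    obtain ⟨N, hN⟩ := exists_nilp hF.1 κ h1
    exact nilp_aux hG T κ hκ hnext N F hF.1 hF.2 hN

end Plane
end H18
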