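import Mathlib
import Pool.Agent.H18.Claim

/-! The stratification argument for the plane over a field. -/

open CategoryTheory AlgebraicGeometry Limits TopologicalSpace Scheme.Modules ZeroObject

universe u

set_option maxHeartbeats 400000

namespace H18
variable {X : Scheme.{u}}

/-- A chart system with polynomial rings. -/
structure PlaneK (k : Type u) [Field k] (X : Scheme.{u}) extends Plane X where
  φ : ∀ j, MvPolynomial (Fin 2) k ≃+* Γ(X, U j)
  φ_X : ∀ j i, φ j (MvPolynomial.X i) = g j (j.succAbove i)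
  φ_C : ∀ j l (a : k), resO (inf_le_left : U j ⊓ U l ≤ U j) (φ j (MvPolynomial.C a)) =
    resO (inf_le_right : U j ⊓ U l ≤ U l) (φ l (MvPolynomial.C a))

section poly
variable {k : Type u} [Field k]

/-- set some variables to zero -/
noncomputable def ev (S : Fin 2 → Prop) [DecidablePred S] :
    MvPolynomial (Fin 2) k →ₐ[k] MvPolynomial (Fin 2) k :=
  MvPolynomial.aeval (fun i => if S i then 0 else MvPolynomial.X i)

lemma sub_ev_mem (S : Fin 2 → Prop) [DecidablePred S] (a : MvPolynomial (Fin 2) k) :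
    a - ev S a ∈ Ideal.span {b | ∃ i, S i ∧ b = (MvPolynomial.X i : MvPolynomial (Fin 2) k)} := by
  induction a using MvPolynomial.induction_on with
  | C a => simp [ev]
  | add p q hp hq =>
    rw [map_add, add_sub_add_comm]
    exact add_mem hp hq
  | mul_X p i hp =>
    rw [map_mul]
    have h1 : p * MvPolynomial.X i - ev S p * ev S (MvPolynomial.X i) = MvPolynomial.X i * (p - ev S p) + ev S p * (MvPolynomial.X i - ev S (MvPolynomial.X i)) := by
      ring
    rw [h1]
    refine add_mem (Ideal.mul_mem_left _ _ hp) (Ideal.mul_mem_left _ _ ?_)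
    rw [ev, MvPolynomial.aeval_X]
    split_ifs with h
    · rw [sub_zero]; exact Ideal.subset_span ⟨i, h, rfl⟩
    · rw [sub_self]; exact zero_mem _

lemma ev_eq_zero (S : Fin 2 → Prop) [DecidablePred S] {a : MvPolynomial (Fin 2) k}
    (h : a ∈ Ideal.span {b | ∃ i, S i ∧ b = (MvPolynomial.X i : MvPolynomial (Fin 2) k)}) : ev S a = 0 := by
  have h1 : Ideal.span {b | ∃ i, S i ∧ b = (MvPolynomial.X i : MvPolynomial (Fin 2) k)} ≤
      RingHom.ker (ev S : MvPolynomial (Fin 2) k →ₐ[k] MvPolynomial (Fin 2) k) := by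
    rw [Ideal.span_le]
    rintro _ ⟨i, hi, rfl⟩
    change ev S (MvPolynomial.X i) = 0
    rw [ev, MvPolynomial.aeval_X, if_pos hi]
  exact h1 h

lemma mem_iff_ev (S : Fin 2 → Prop) [DecidablePred S] (a : MvPolynomial (Fin 2) k) :
    a ∈ Ideal.span {b | ∃ i, S i ∧ b = (MvPolynomial.X i : MvPolynomial (Fin 2) k)} ↔ ev S a = 0 := by
  refine ⟨ev_eq_zero S, fun h => ?_⟩
  have := sub_ev_mem S a
  rwa [h, sub_zero] at this

lemma ev_X_mul (S : Fin 2 → Prop) [DecidablePred S] (i : Fin 2) (hi : ¬ S i)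
    (a : MvPolynomial (Fin 2) k) (h : ev S (MvPolynomial.X i * a) = 0) : ev S a = 0 := by
  rw [map_mul, ev, MvPolynomial.aeval_X, if_neg hi] at h
  exact (mul_eq_zero.1 h).resolve_left (MvPolynomial.X_ne_zero i)

end poly

namespace PlaneK
variable {k : Type u} [Field k] (P : PlaneK k X)

/-- the ideal of the stratum on a chart -/
def strat (c : ℕ) (j : Fin 3) : Ideal Γ(X, P.U j) :=
  Ideal.span {b | ∃ i : Fin 3, i.val < c ∧ b = P.g j i}

lemma strat_eq_top {c : ℕ} {j : Fin 3} (h : j.val < c) : P.strat c j = ⊤ := by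
  rw [Ideal.eq_top_iff_one]
  exact Ideal.subset_span ⟨j, h, (P.g_self j).symm⟩

lemma g_eq_φ (j i : Fin 3) (h : i ≠ j) : ∃ i' : Fin 2, j.succAbove i' = i ∧
    P.g j i = P.φ j (MvPolynomial.X i') := by
  obtain ⟨i', hi'⟩ := Fin.exists_succAbove_eq h
  exact ⟨i', hi', by rw [P.φ_X, hi']⟩

lemma strat_eq_map {c : ℕ} {j : Fin 3} (h : c ≤ j.val) :
    P.strat c j = (Ideal.span {b | ∃ i : Fin 2, i.val < c ∧
      b = (MvPolynomial.X i : MvPolynomial (Fin 2) k)}).map (P.φ j) := by
  rw [Ideal.map_span, strat]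
  congr 1
  ext b
  constructor
  · rintro ⟨i, hi, rfl⟩
    have hne : i ≠ j := fun h' => by subst h'; omega
    obtain ⟨i', hi', h'⟩ := P.g_eq_φ j i hne
    refine ⟨_, ⟨i', ?_, rfl⟩, h'.symm⟩
    rw [← hi'] at hi
    have h1 : (i' : Fin 2).castSucc < j := by
      by_contra h2
      rw [Fin.succAbove_of_le_castSucc _ _ (not_lt.1 h2), Fin.val_succ] at hi
      rw [not_lt, Fin.le_def, Fin.val_castSucc] at h2
      omega
    rw [Fin.succAbove_of_castSucc_lt _ _ h1, Fin.val_castSucc] at hi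
    exact hi
  · rintro ⟨_, ⟨i, hi, rfl⟩, rfl⟩
    refine ⟨j.succAbove i, ?_, P.φ_X j i⟩
    rw [Fin.succAbove_of_castSucc_lt _ _ (by rw [Fin.lt_def, Fin.val_castSucc]; omega),
      Fin.val_castSucc]
    exact hi

lemma mem_strat_iff {c : ℕ} {j : Fin 3} (h : c ≤ j.val) (a : Γ(X, P.U j)) :
    a ∈ P.strat c j ↔ ev (fun i => i.val < c) ((P.φ j).symm a) = 0 := by
  rw [P.strat_eq_map h, ← mem_iff_ev, Ideal.mem_map_of_equiv]
  constructor
  · rintro ⟨x, hx, rfl⟩
    rwa [RingEquiv.symm_apply_apply]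
  · intro h
    exact ⟨_, h, RingEquiv.apply_symm_apply _ _⟩

/-- the next coordinate is a non zero divisor on each stratum -/
lemma strat_regular {c : ℕ} (κ : Fin 3) (hκ : κ.val = c) (j : Fin 3) (a : Γ(X, P.U j))
    (h : P.g j κ * a ∈ P.strat c j) : a ∈ P.strat c j := by
  rcases lt_or_ge j.val c with hj | hj
  · rw [P.strat_eq_top hj]; trivial
  · by_cases hne : κ = j
    · subst hne
      rwa [P.g_self, one_mul] at h
    · obtain ⟨i', hi', h'⟩ := P.g_eq_φ j κ hne
      rw [mem_strat_iff P hj] at h ⊢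
      rw [h', map_mul, RingEquiv.symm_apply_apply] at h
      apply ev_X_mul _ i' _ _ h
      intro h1
      rw [← hi', Fin.succAbove_of_castSucc_lt _ _
        (by rw [Fin.lt_def, Fin.val_castSucc]; omega), Fin.val_castSucc] at hκ
      omega

end PlaneK

namespace Plane
variable {P : Plane X}

lemma Tow.mono_μ {c : ℕ} (T : P.Tow c) (κ : Fin 3)
    (h : ∀ j (a : Γ(X, P.U j)), P.g j κ * a ∈ Ideal.span {b | ∃ i : Fin 3, i.val < c ∧ b = P.g j i} →
      a ∈ Ideal.span {b | ∃ i : Fin 3, i.val < c ∧ b = P.g j i}) (n : ℕ) : Mono (T.μ κ n) := by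
  apply P.mono_of_sections _ (T.coh _).qc (T.coh _).qc
  intro j
  rw [injective_iff_map_eq_zero]
  intro x hx
  obtain ⟨a, rfl⟩ := T.gen (n + 1) j x
  rw [Hom.app_smul, T.μ_e, smul_smul, mul_comm] at hx
  have h1 := h j a (T.ann n j _ hx)
  have h2 : Ideal.span {b | ∃ i : Fin 3, i.val < c ∧ b = P.g j i} ≤
      LinearMap.ker (LinearMap.toSpanSingleton Γ(X, P.U j) _ (T.e (n + 1) j)) := by
    rw [Ideal.span_le]
    rintro _ ⟨i, hi, rfl⟩
    exact T.kill (n + 1) j i hi _
  exact h2 h1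

lemma Tow.ses {c : ℕ} (T : P.Tow c) (κ : Fin 3) (_hκ : κ.val = c) (n : ℕ) [Mono (T.μ κ n)] :
    (ShortComplex.mk (T.μ κ n) (cokernel.π (T.μ κ n)) (cokernel.condition _)).ShortExact :=
  shortExact_cokernel _

end Plane

namespace PlaneK
variable {k : Type u} [Field k] (P : PlaneK k X)

noncomputable def T0 : P.Tow 0 := Plane.Tow.base P.toPlane
noncomputable def T1 : P.Tow 1 := P.T0.next 0 rfl
noncomputable def T2 : P.Tow 2 := P.T1.next 1 rfl

instance mono0 (n : ℕ) : Mono (P.T0.μ 0 n) := P.T0.mono_μ 0 (P.strat_regular 0 rfl) n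
instance mono1 (n : ℕ) : Mono (P.T1.μ 1 n) := P.T1.mono_μ 1 (P.strat_regular 1 rfl) n
instance mono2 (n : ℕ) : Mono (P.T2.μ 2 n) := P.T2.mono_μ 2 (P.strat_regular 2 rfl) n

instance epi2 (n : ℕ) : Epi (P.T2.μ 2 n) := by
  apply P.epi_of_sections _ (P.T2.coh _).qc (P.T2.coh _).qc
  intro j x
  obtain ⟨a, rfl⟩ := P.T2.gen n j x
  by_cases hj : j = 2
  · subst hj
    refine ⟨a • P.T2.e (n + 1) 2, ?_⟩
    rw [Hom.app_smul, P.T2.μ_e, P.g_self, one_smul]
  · refine ⟨0, ?_⟩
    have h1 := P.T2.kill n j j (by omega) (a • P.T2.e n j)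
    rw [P.g_self, one_smul] at h1
    rw [h1, map_zero]

instance iso2 (n : ℕ) : IsIso (P.T2.μ 2 n) := isIso_of_mono_of_epi _

variable {G : ObjectProperty X.Modules} (hG : IsDev G)
include hG

lemma G_T2 (h1 : G (P.T0.R 1)) (h2 : G (P.T0.R 2)) (h3 : G (P.T0.R 3)) (n : ℕ) :
    G (P.T2.R n) := by
  have a1 : G (P.T1.R 1) := hG.right (P.T0.ses 0 rfl 1) h2 h1
  have a2 : G (P.T1.R 2) := hG.right (P.T0.ses 0 rfl 2) h3 h2
  have b1 : G (P.T2.R 1) := hG.right (P.T1.ses 1 rfl 1) a2 a1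
  have b0 : G (P.T2.R 0) := hG.iso (asIso (P.T2.μ 2 0)) b1
  induction n with
  | zero => exact b0
  | succ n ih => exact hG.iso (asIso (P.T2.μ 2 n)).symm ih

lemma G_T1 (h1 : G (P.T0.R 1)) (h2 : G (P.T0.R 2)) (h3 : G (P.T0.R 3)) (n : ℕ) :
    G (P.T1.R n) := by
  have a1 : G (P.T1.R 1) := hG.right (P.T0.ses 0 rfl 1) h2 h1
  have b := P.G_T2 hG h1 h2 h3
  have a0 : G (P.T1.R 0) := hG.mid (P.T1.ses 1 rfl 0) a1 (b 0)
  induction n with
  | zero => exact a0
  | succ n ih => exact hG.left (P.T1.ses 1 rfl n) ih (b n)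

lemma G_T0 (h1 : G (P.T0.R 1)) (h2 : G (P.T0.R 2)) (h3 : G (P.T0.R 3)) (n : ℕ) :
    G (P.T0.R n) := by
  have b := P.G_T1 hG h1 h2 h3
  have a0 : G (P.T0.R 0) := hG.mid (P.T0.ses 0 rfl 0) h1 (b 0)
  induction n with
  | zero => exact a0
  | succ n ih => exact hG.left (P.T0.ses 0 rfl n) ih (b n)

/-- Every coherent module is generated by three twists. -/
theorem all_coh (h1 : G (P.T0.R 1)) (h2 : G (P.T0.R 2)) (h3 : G (P.T0.R 3)) (F : X.Modules)
    (hF : P.Coh F) : G F := by
  have c3 : ∀ F, P.Coh F → P.Kill 3 F → G F := by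
    intro F hF hK
    apply hG.zero
    apply P.isZero_of_sections hF.qc
    intro j x
    have := hK j j j.isLt x
    rwa [P.g_self, one_smul] at this
  have c2 : ∀ F, P.Coh F → P.Kill 2 F → G F := by
    refine Plane.claim_step hG P.T2 2 rfl (P.G_T2 hG h1 h2 h3)
      (((P.φ 2) : MvPolynomial (Fin 2) k →+* Γ(X, P.U 2)).comp MvPolynomial.C) ?_ ?_
      ((GD.field k).mono (by omega)) c3
    · intro b hb
      have hb' := (P.mem_strat_iff (c := 2) (j := 2) le_rfl _).1 hb
      change ev _ ((P.φ 2).symm (P.φ 2 (MvPolynomial.C b))) = 0 at hb'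
      rw [RingEquiv.symm_apply_apply, ev, MvPolynomial.aeval_C] at hb'
      exact (map_eq_zero_iff _ (MvPolynomial.C_injective (Fin 2) k)).1 hb'
    · intro a
      refine ⟨MvPolynomial.constantCoeff ((P.φ 2).symm a), ?_⟩
      apply (P.mem_strat_iff (c := 2) (j := 2) le_rfl _).2
      change ev _ ((P.φ 2).symm (a - P.φ 2 (MvPolynomial.C _))) = 0
      rw [map_sub, RingEquiv.symm_apply_apply, map_sub, sub_eq_zero, ev, MvPolynomial.aeval_C]
      have : (fun i : Fin 2 => if i.val < 2 then (0 : MvPolynomial (Fin 2) k)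
          else MvPolynomial.X i) = fun _ => 0 := by
        ext1 i
        rw [if_pos i.isLt]
      rw [this, MvPolynomial.aeval_zero']
  have c1 : ∀ F, P.Coh F → P.Kill 1 F → G F := by
    refine Plane.claim_step hG P.T1 1 rfl (P.G_T1 hG h1 h2 h3)
      (((P.φ 1) : MvPolynomial (Fin 2) k →+* Γ(X, P.U 1)).comp
        (MvPolynomial.rename (fun _ => 1) : MvPolynomial (Fin 1) k →ₐ[k] _).toRingHom) ?_ ?_
      ((GD.mvPolynomial k 1).mono (by omega)) c2
    · intro b hb
      have hb' := (P.mem_strat_iff (c := 1) (j := 1) le_rfl _).1 hb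
      change ev _ ((P.φ 1).symm (P.φ 1 (MvPolynomial.rename _ b))) = 0 at hb'
      rw [RingEquiv.symm_apply_apply, ev, MvPolynomial.aeval_rename] at hb'
      have h : ((fun i : Fin 2 => if i.val < 1 then (0 : MvPolynomial (Fin 2) k)
          else MvPolynomial.X i) ∘ fun _ : Fin 1 => (1 : Fin 2)) =
          fun i => MvPolynomial.X ((fun _ : Fin 1 => (1 : Fin 2)) i) := by
        ext1 i
        simp
      rw [h] at hb'
      have h2 : Function.Injective (fun _ : Fin 1 => (1 : Fin 2)) := fun _ _ _ =>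
        Subsingleton.elim _ _
      have h3 : MvPolynomial.rename (fun _ : Fin 1 => (1 : Fin 2)) b = 0 := by
        have h4 : (MvPolynomial.rename (fun _ : Fin 1 => (1 : Fin 2)) :
            MvPolynomial (Fin 1) k →ₐ[k] MvPolynomial (Fin 2) k) =
            MvPolynomial.aeval (fun i => MvPolynomial.X ((fun _ : Fin 1 => (1 : Fin 2)) i)) := by
          apply MvPolynomial.algHom_ext
          intro i
          simp
        rw [h4]
        exact hb'
      exact (map_eq_zero_iff _ (MvPolynomial.rename_injective _ h2)).1 h3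
    · intro a
      let ε : MvPolynomial (Fin 2) k →ₐ[k] MvPolynomial (Fin 1) k :=
        MvPolynomial.aeval (fun i => if i.val < 1 then 0 else MvPolynomial.X 0)
      refine ⟨ε ((P.φ 1).symm a), ?_⟩
      apply (P.mem_strat_iff (c := 1) (j := 1) le_rfl _).2
      change ev _ ((P.φ 1).symm (a - P.φ 1 (MvPolynomial.rename (fun _ => 1) _))) = 0
      rw [map_sub, RingEquiv.symm_apply_apply, map_sub, sub_eq_zero]
      have h : ev (fun i : Fin 2 => i.val < 1) = ((ev (fun i : Fin 2 => i.val < 1)).comp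
          (MvPolynomial.rename (fun _ => 1))).comp ε := by
        ext i
        fin_cases i <;> simp [ev, ε]
      exact congrArg (fun t => t ((P.φ 1).symm a)) h
  have c0 : ∀ F, P.Coh F → P.Kill 0 F → G F := by
    refine Plane.claim_step hG P.T0 0 rfl (P.G_T0 hG h1 h2 h3)
      ((P.φ 0) : MvPolynomial (Fin 2) k →+* Γ(X, P.U 0)) ?_ ?_ (GD.mvPolynomial k 2) c1
    · intro b hb
      have hb' := (P.mem_strat_iff (c := 0) (j := 0) le_rfl _).1 hb
      change ev _ ((P.φ 0).symm (P.φ 0 b)) = 0 at hb'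
      rw [RingEquiv.symm_apply_apply] at hb'
      have h : ev (k := k) (fun i : Fin 2 => i.val < 0) = AlgHom.id k _ := by
        ext i
        simp [ev]
      rw [h] at hb'
      exact hb'
    · intro a
      refine ⟨(P.φ 0).symm a, ?_⟩
      change a - P.φ 0 ((P.φ 0).symm a) ∈ _
      rw [RingEquiv.apply_symm_apply, sub_self]
      exact zero_mem _
  exact c0 F hF (fun j a ha => by omega)

end PlaneK
end H18
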