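import Mathlib
import Pool.Agent.H18.PlaneK

/-! Global functions on the plane are constant. -/

open CategoryTheory AlgebraicGeometry Limits TopologicalSpace Scheme.Modules

universe u

set_option maxHeartbeats 400000

namespace H18

section alg
variable {k R : Type*} [Field k] [CommRing R] (A B : MvPolynomial (Fin 2) k →+* R)

lemma const_aux (h0 : A (.X 0) * B (.X 0) = 1) (h1 : A (.X 1) = A (.X 0) * B (.X 1))
    (hC : ∀ c, A (.C c) = B (.C c)) (b : MvPolynomial (Fin 2) k) :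
    ∃ N0 : ℕ, ∀ N, N0 ≤ N → ∃ h : MvPolynomial (Fin 2) k, A (.X 0 ^ N) * B b = A h ∧
      ∀ m : Fin 2 →₀ ℕ, N ≤ m 0 → MvPolynomial.coeff m h =
        if m = Finsupp.single 0 N then MvPolynomial.constantCoeff b else 0 := by
  induction b using MvPolynomial.induction_on with
  | C c =>
    refine ⟨0, fun N _ => ⟨MvPolynomial.monomial (Finsupp.single 0 N) c, ?_, ?_⟩⟩
    · rw [← hC, ← map_mul, MvPolynomial.X_pow_eq_monomial, MvPolynomial.C_apply,
        MvPolynomial.monomial_mul, add_zero, one_mul]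
    · intro m _
      rw [MvPolynomial.coeff_monomial, MvPolynomial.constantCoeff_C]
      simp only [eq_comm]
  | add p q hp hq =>
    obtain ⟨N1, H1⟩ := hp
    obtain ⟨N2, H2⟩ := hq
    refine ⟨max N1 N2, fun N hN => ?_⟩
    obtain ⟨h, e1, c1⟩ := H1 N (le_trans (le_max_left _ _) hN)
    obtain ⟨h', e2, c2⟩ := H2 N (le_trans (le_max_right _ _) hN)
    refine ⟨h + h', by rw [map_add, mul_add, e1, e2, map_add], fun m hm => ?_⟩
    rw [MvPolynomial.coeff_add, c1 m hm, c2 m hm, map_add]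
    split_ifs <;> simp
  | mul_X p i hp =>
    obtain ⟨N1, H1⟩ := hp
    refine ⟨N1 + 1, fun N hN => ?_⟩
    obtain ⟨N', rfl⟩ : ∃ N', N = N' + 1 := ⟨N - 1, by omega⟩
    obtain ⟨h, e1, c1⟩ := H1 N' (by omega)
    have hcc : MvPolynomial.constantCoeff (p * .X i) = 0 := by
      rw [map_mul, MvPolynomial.constantCoeff_X, mul_zero]
    rw [hcc]
    have hi : i = 0 ∨ i = 1 := by omega
    rcases hi with rfl | rfl
    · refine ⟨h, ?_, fun m hm => ?_⟩
      · rw [← e1, pow_succ, map_mul, map_mul]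
        linear_combination (A (.X 0 ^ N') * B p) * h0
      · rw [ite_self, c1 m (by omega), if_neg]
        rintro rfl
        rw [Finsupp.single_eq_same] at hm
        omega
    · refine ⟨h * .X 1, ?_, fun m hm => ?_⟩
      · rw [map_mul A h, ← e1, pow_succ, map_mul, map_mul, h1]
        ring
      · rw [ite_self, MvPolynomial.coeff_mul_X']
        split_ifs with h2
        · have hm0 : (m - Finsupp.single 1 1 : Fin 2 →₀ ℕ) 0 = m 0 := by
            simp
          rw [c1 _ (by omega), if_neg]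
          intro h3
          rw [h3, Finsupp.single_eq_same] at hm0
          omega
        · rfl

lemma const_of_agree (h0 : A (.X 0) * B (.X 0) = 1) (h1 : A (.X 1) = A (.X 0) * B (.X 1))
    (hC : ∀ c, A (.C c) = B (.C c)) (hA : Function.Injective A) (a b : MvPolynomial (Fin 2) k)
    (hab : A a = B b) : a = .C (MvPolynomial.constantCoeff b) := by
  obtain ⟨N, H⟩ := const_aux A B h0 h1 hC b
  obtain ⟨h, e, c⟩ := H N le_rfl
  have h2 : .X 0 ^ N * a = h := by
    apply hA
    rw [map_mul, hab, e]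
  ext m
  have h3 : MvPolynomial.coeff (Finsupp.single 0 N + m) (.X 0 ^ N * a) =
      MvPolynomial.coeff m a := by
    rw [MvPolynomial.X_pow_eq_monomial, MvPolynomial.coeff_monomial_mul, one_mul]
  rw [← h3, h2, c _ (by simp), MvPolynomial.coeff_C]
  congr 1
  rw [eq_comm (a := (0 : Fin 2 →₀ ℕ))]
  simp

end alg

variable {X : Scheme.{u}}

namespace Plane
variable (P : Plane X)

lemma g_mul_g (j k : Fin 3) : resO (inf_le_left : P.U j ⊓ P.U k ≤ P.U j) (P.g j k) *
    resO (inf_le_right : P.U j ⊓ P.U k ≤ P.U k) (P.g k j) = 1 := by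
  rw [← P.g_mul j k j, P.g_self, resO_one]

lemma res_inj (M : X.Modules) [M.IsQuasicoherent] (j k : Fin 3)
    (hreg : ∀ a : Γ(M, P.U j), P.g j k • a = 0 → a = 0) (x : Γ(M, P.U j))
    (hx : res M (inf_le_left : P.U j ⊓ P.U k ≤ P.U j) x = 0) : x = 0 := by
  have h1 : X.basicOpen (P.g j k) ≤ P.U j ⊓ P.U k := (P.basicOpen_g j k).le
  have h2 := congrArg (res M h1) hx
  rw [res_res, res_zero] at h2
  obtain ⟨n, hn⟩ := exists_pow_smul_eq_zero (P.affine j) M (P.g j k) x h2
  clear hx h2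
  induction n with
  | zero => simpa using hn
  | succ n ih =>
    apply ih
    apply hreg
    rw [smul_smul, ← pow_succ', hn]

lemma lin_smul_eq_zero {n : ℕ} {j : Fin 3} {V : X.Opens} (hV : V ≤ P.U j) (a : Γ(X, V))
    (h : a • res (lin (P.coc n)) hV (linGen (P.coc n) j) = 0) : a = 0 := by
  apply (lin_bijective (P.coc n) hV).1
  simp only [h, zero_smul]

lemma resO_inj (j k : Fin 3) (hreg : ∀ a : Γ(X, P.U j), P.g j k * a = 0 → a = 0) :
    Function.Injective (resO (inf_le_left : P.U j ⊓ P.U k ≤ P.U j)) := by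
  have hqc := lin_isQuasicoherent (P.coc 0) P.cover P.affine
  intro a b hab
  rw [← sub_eq_zero]
  have h1 : ∀ a : Γ(X, P.U j), a • linGen (P.coc 0) j = 0 → a = 0 := fun a h =>
    P.lin_smul_eq_zero (n := 0) (le_refl (P.U j)) a (by rwa [res_self])
  apply h1
  apply P.res_inj _ j k
  · intro x hx
    obtain ⟨c, rfl⟩ := (lin_bijective (P.coc 0) (j := j) (le_refl (P.U j))).2 x
    simp only [res_self] at hx ⊢
    rw [smul_smul] at hx
    rw [hreg c (h1 _ hx), zero_smul]
  · have h2 : resO (inf_le_left : P.U j ⊓ P.U k ≤ P.U j) (a - b) =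
        resO inf_le_left a - resO inf_le_left b :=
      map_sub (X.presheaf.map (homOfLE (inf_le_left : P.U j ⊓ P.U k ≤ P.U j)).op).hom a b
    rw [res_smul, h2, hab, sub_self, zero_smul]

end Plane

namespace PlaneK
variable {k : Type u} [Field k] (P : PlaneK k X)

lemma isDomain (j : Fin 3) : IsDomain Γ(X, P.U j) :=
  (P.φ j).symm.toMulEquiv.isDomain _

lemma g_ne_zero (j i : Fin 3) : P.g j i ≠ 0 := by
  have := P.isDomain j
  by_cases h : i = j
  · subst h
    rw [P.g_self]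
    exact one_ne_zero
  · obtain ⟨i', -, h'⟩ := P.g_eq_φ j i h
    rw [h']
    intro h2
    exact MvPolynomial.X_ne_zero i' ((map_eq_zero_iff _ (P.φ j).injective).1 h2)

lemma reg (j i : Fin 3) (a : Γ(X, P.U j)) (h : P.g j i * a = 0) : a = 0 := by
  have := P.isDomain j
  exact (mul_eq_zero.1 h).resolve_left (P.g_ne_zero j i)

lemma resO_inj (j i : Fin 3) :
    Function.Injective (resO (inf_le_left : P.U j ⊓ P.U i ≤ P.U j)) :=
  P.toPlane.resO_inj j i (P.reg j i)

/-- The ring homomorphism from polynomials to functions on an intersection. -/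
noncomputable def toInf (j : Fin 3) {V : X.Opens} (h : V ≤ P.U j) :
    MvPolynomial (Fin 2) k →+* Γ(X, V) :=
  (X.presheaf.map (homOfLE h).op).hom.comp (P.φ j : MvPolynomial (Fin 2) k →+* Γ(X, P.U j))

lemma toInf_apply (j : Fin 3) {V : X.Opens} (h : V ≤ P.U j) (a : MvPolynomial (Fin 2) k) :
    P.toInf j h a = resO h (P.φ j a) := rfl

lemma const_zero_one (a : Γ(X, P.U 0)) (b : Γ(X, P.U 1))
    (h : resO (inf_le_left : P.U 0 ⊓ P.U 1 ≤ P.U 0) a =
      resO (inf_le_right : P.U 0 ⊓ P.U 1 ≤ P.U 1) b) :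
    ∃ c : k, a = P.φ 0 (.C c) := by
  have h1 := const_of_agree (P.toInf 0 (inf_le_left : P.U 0 ⊓ P.U 1 ≤ P.U 0))
    (P.toInf 1 (inf_le_right : P.U 0 ⊓ P.U 1 ≤ P.U 1)) ?_ ?_ ?_ ?_ ((P.φ 0).symm a)
    ((P.φ 1).symm b) ?_
  · exact ⟨_, by rw [← h1, RingEquiv.apply_symm_apply]⟩
  · rw [toInf_apply, toInf_apply, P.φ_X, P.φ_X]
    exact P.g_mul_g 0 1
  · rw [toInf_apply, toInf_apply, toInf_apply, P.φ_X, P.φ_X, P.φ_X]
    exact P.g_mul 0 1 2
  · intro c
    exact P.φ_C 0 1 c
  · intro x y hxy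
    exact (P.φ 0).injective (P.resO_inj 0 1 hxy)
  · rw [toInf_apply, toInf_apply, RingEquiv.apply_symm_apply, RingEquiv.apply_symm_apply, h]

/-- Compatible functions on the charts are constant. -/
theorem const_of_compat (a : ∀ j, Γ(X, P.U j))
    (h : ∀ j l, resO (inf_le_left : P.U j ⊓ P.U l ≤ P.U j) (a j) =
      resO (inf_le_right : P.U j ⊓ P.U l ≤ P.U l) (a l)) :
    ∃ c : k, ∀ j, a j = P.φ j (.C c) := by
  obtain ⟨c, hc⟩ := P.const_zero_one (a 0) (a 1) (h 0 1)
  refine ⟨c, fun j => ?_⟩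
  apply P.resO_inj j 0
  rw [h j 0, hc, P.φ_C j 0 c]

end PlaneK
end H18
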