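import Mathlib
import Pool.Agent.H18.Dev

/-! Devissage in the derived category. -/

open CategoryTheory Limits Pretriangulated DerivedCategory Triangulated

universe w v u

set_option maxHeartbeats 400000

namespace H18

variable {C : Type u} [Category.{v} C] [Abelian C] [HasDerivedCategory.{w} C]

/-- the objects of the abelian category which lie in a given class of the derived category -/
def onHeart (T : ObjectProperty (DerivedCategory C)) : ObjectProperty C :=
  fun F => T ((singleFunctor C 0).obj F)

lemma isDev_onHeart (T : ObjectProperty (DerivedCategory C)) [T.IsTriangulated]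
    [T.IsStableUnderRetracts] : IsDev (onHeart T) where
  iso e h := T.prop_of_iso ((singleFunctor C 0).mapIso e) h
  zero h := T.prop_of_isZero ((singleFunctor C 0).map_isZero h)
  left hS h2 h3 := T.ext_of_isTriangulatedClosed₁ _ hS.singleTriangle_distinguished h2 h3
  mid hS h1 h3 := T.ext_of_isTriangulatedClosed₂ _ hS.singleTriangle_distinguished h1 h3
  right hS h1 h2 := T.ext_of_isTriangulatedClosed₃ _ hS.singleTriangle_distinguished h1 h2
  summand {X Y} h := by
    refine T.prop_of_retract (Y := (singleFunctor C 0).obj (X ⊞ Y))
      { i := (singleFunctor C 0).map biprod.inr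
        r := (singleFunctor C 0).map biprod.snd
        retract := ?_ } h
    rw [← Functor.map_comp, biprod.inr_snd, CategoryTheory.Functor.map_id]

lemma single_of_onHeart (T : ObjectProperty (DerivedCategory C)) [T.IsTriangulated]
    [T.IsStableUnderRetracts] {F : C} (h : onHeart T F) (n : ℤ) :
    T ((singleFunctor C n).obj F) := by
  have e := ((singleFunctors C).shiftIso (-n) n 0 (by simp)).app F
  exact T.prop_of_iso e (T.le_shift (-n) _ h)

/-- Bounded objects whose cohomology lies in `G` belong to every thick class containing `G`. -/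
theorem devissage (T : ObjectProperty (DerivedCategory C)) [T.IsTriangulated]
    [T.IsStableUnderRetracts] (G : ObjectProperty C) (hGT : ∀ F, G F → onHeart T F)
    (hiso : ∀ {X Y : C}, (X ≅ Y) → G X → G Y) (hzero : ∀ {X : C}, IsZero X → G X) (n : ℕ) :
    ∀ (a : ℤ) (K : DerivedCategory C), K.IsGE a → K.IsLE (a + n) →
      (∀ i, G ((homologyFunctor C i).obj K)) → T K := by
  induction n with
  | zero =>
    intro a K h1 h2 h
    have h2' : K.IsLE a := by simpa using h2
    obtain ⟨Y, ⟨e⟩⟩ := exists_iso_singleFunctor_obj_of_isGE_of_isLE K a
    have e1 : (homologyFunctor C a).obj K ≅ Y :=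
      (homologyFunctor C a).mapIso e ≪≫ (singleFunctorCompHomologyFunctorIso C a).app Y
    exact T.prop_of_iso e.symm (single_of_onHeart T (hGT _ (hiso e1 (h a))) a)
  | succ n ih =>
    intro a K h1 h2 h
    obtain ⟨A, B, hA, hB, f, g, δ, hT⟩ := TStructure.t.exists_triangle K (a + n) (a + n + 1) rfl
    have hA' : A.IsLE (a + n) := ⟨hA⟩
    have hB' : B.IsGE (a + n + 1) := ⟨hB⟩
    have hAz : ∀ i, a + n < i → IsZero ((homologyFunctor C i).obj A) :=
      (isLE_iff A _).1 hA'
    have hBz : ∀ i, i < a + n + 1 → IsZero ((homologyFunctor C i).obj B) :=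
      (isGE_iff B _).1 hB'
    have hisoA : ∀ i, i ≤ a + n → IsIso ((homologyFunctor C i).map f) := by
      intro i hi
      have m : Mono ((homologyFunctor C i).map f) :=
        (HomologySequence.mono_homologyMap_mor₁_iff _ hT (i - 1) i (by omega)).2
          ((hBz (i - 1) (by omega)).eq_zero_of_src _)
      have e : Epi ((homologyFunctor C i).map f) :=
        (HomologySequence.epi_homologyMap_mor₁_iff _ hT i).2
          ((hBz i (by omega)).eq_zero_of_tgt _)
      exact isIso_of_mono_of_epi _
    have hisoB : ∀ i, a + n + 1 ≤ i → IsIso ((homologyFunctor C i).map g) := by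
      intro i hi
      have m : Mono ((homologyFunctor C i).map g) :=
        (HomologySequence.mono_homologyMap_mor₂_iff _ hT i).2
          ((hAz i (by omega)).eq_zero_of_src _)
      have e : Epi ((homologyFunctor C i).map g) :=
        (HomologySequence.epi_homologyMap_mor₂_iff _ hT i (i + 1) rfl).2
          ((hAz (i + 1) (by omega)).eq_zero_of_tgt _)
      exact isIso_of_mono_of_epi _
    have hGA : ∀ i, G ((homologyFunctor C i).obj A) := by
      intro i
      rcases le_or_gt i (a + n) with hi | hi
      · have := hisoA i hi
        exact hiso (asIso ((homologyFunctor C i).map f)).symm (h i)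
      · exact hzero (hAz i hi)
    have hGB : ∀ i, G ((homologyFunctor C i).obj B) := by
      intro i
      rcases lt_or_ge i (a + n + 1) with hi | hi
      · exact hzero (hBz i hi)
      · have := hisoB i hi
        exact hiso (asIso ((homologyFunctor C i).map g)) (h i)
    have hAge : A.IsGE a := by
      rw [isGE_iff]
      intro i hi
      have := hisoA i (by omega)
      exact (K.isZero_of_isGE a i hi).of_iso (asIso ((homologyFunctor C i).map f))
    have hBle : B.IsLE (a + n + 1) := by
      rw [isLE_iff]
      intro i hi
      have := hisoB i (by omega)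
      exact (K.isZero_of_isLE (a + (n + 1 : ℕ)) i (by push_cast; omega)).of_iso
        (asIso ((homologyFunctor C i).map g)).symm
    have hTA : T A := ih a A hAge hA' hGA
    have hTB : T B := by
      obtain ⟨Y, ⟨e⟩⟩ := exists_iso_singleFunctor_obj_of_isGE_of_isLE B (a + n + 1)
      have e1 : (homologyFunctor C (a + n + 1)).obj B ≅ Y :=
        (homologyFunctor C _).mapIso e ≪≫ (singleFunctorCompHomologyFunctorIso C _).app Y
      exact T.prop_of_iso e.symm (single_of_onHeart T (hGT _ (hiso e1 (hGB _))) _)
    exact T.ext_of_isTriangulatedClosed₂ _ hT hTA hTB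

end H18
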