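import Mathlib
import Pool.Agent.H18.Dev

/-! Exact functors commute with cohomology; classes closed under kernels and cokernels are
closed under cohomology. -/

open CategoryTheory Limits DerivedCategory

universe w w' v v' u u'

set_option maxHeartbeats 400000

namespace H18

section
variable {C : Type u} [Category.{v} C] [Abelian C] [HasDerivedCategory.{w} C]
  {D : Type u'} [Category.{v'} D] [Abelian D] [HasDerivedCategory.{w'} D]
  (F : C ⥤ D) [F.Additive] [PreservesFiniteLimits F] [PreservesFiniteColimits F]

/-- cohomology of the image of a complex under an exact functor -/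
noncomputable def mapComplexHomology (E : CochainComplex C ℤ) (i : ℤ) :
    ((F.mapHomologicalComplex (ComplexShape.up ℤ)).obj E).homology i ≅ F.obj (E.homology i) :=
  (E.sc i).mapHomologyIso F

noncomputable def mapDHomology (K : DerivedCategory C) (i : ℤ) :
    (homologyFunctor D i).obj (F.mapDerivedCategory.obj K) ≅
      F.obj ((homologyFunctor C i).obj K) :=
  (homologyFunctor D i).mapIso (F.mapDerivedCategory.mapIso (Q.objObjPreimageIso K).symm) ≪≫
    (homologyFunctor D i).mapIso (F.mapDerivedCategoryFactors.app (Q.objPreimage K)) ≪≫
    (homologyFunctorFactors D i).app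
      ((F.mapHomologicalComplex (ComplexShape.up ℤ)).obj (Q.objPreimage K)) ≪≫
    mapComplexHomology F (Q.objPreimage K) i ≪≫
    F.mapIso ((homologyFunctorFactors C i).app (Q.objPreimage K)).symm ≪≫
    F.mapIso ((homologyFunctor C i).mapIso (Q.objObjPreimageIso K))

end

section
variable {C : Type u} [Category.{v} C] [Abelian C]

/-- A class closed under kernels and cokernels is closed under homology. -/
lemma IsAb.homology {P : ObjectProperty C} (hP : IsAb P) (S : ShortComplex C)
    (h1 : P S.X₁) (h2 : P S.X₂) (h3 : P S.X₃) : P S.homology := by
  have e1 : kernel S.g ≅ S.cycles :=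
    (kernelIsKernel S.g).conePointUniqueUpToIso S.cyclesIsKernel
  have hc : P S.cycles := hP.iso e1 (hP.ker _ h2 h3)
  have e2 : cokernel S.toCycles ≅ S.homology :=
    (cokernelIsCokernel S.toCycles).coconePointUniqueUpToIso S.homologyIsCokernel
  exact hP.iso e2 (hP.coker _ h1 hc)

lemma IsAb.retract {P : ObjectProperty C} (hP : IsAb P) {X Y : C} (h : Retract X Y)
    (hY : P Y) : P X := by
  -- X is the kernel of the complementary idempotent
  have e : kernel (𝟙 Y - h.r ≫ h.i) ≅ X :=
    { hom := kernel.ι _ ≫ h.r
      inv := kernel.lift _ h.i (by simp)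
      hom_inv_id := by
        rw [← cancel_mono (kernel.ι _), Category.assoc, Category.assoc, kernel.lift_ι,
          Category.id_comp]
        have := kernel.condition (𝟙 Y - h.r ≫ h.i)
        rw [Preadditive.comp_sub, Category.comp_id, sub_eq_zero] at this
        exact this.symm
      inv_hom_id := by
        rw [kernel.lift_ι_assoc, h.retract] }
  exact hP.iso e (hP.ker _ hY hY)

end

end H18
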