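import Mathlib
import Pool.Agent.H18.Claim
import Pool.Agent.H18.MapHom
import Pool.Agent.H18.Defs

/-! Perfect complexes have bounded coherent cohomology. -/

open CategoryTheory AlgebraicGeometry Limits TopologicalSpace Scheme.Modules DerivedCategory

universe u

set_option maxHeartbeats 400000

namespace H18

attribute [local instance] Abelian.hasFiniteBiproducts

section fg
variable {R : CommRingCat.{u}}

/-- modules of the form `tilde M` with `M` finitely generated -/
def FG (M : (Spec R).Modules) : Prop := QCSpec M ∧ Module.Finite R ((gs R).obj M)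

lemma FG.of_iso {M N : (Spec R).Modules} (e : M ≅ N) (h : FG M) : FG N := by
  refine ⟨h.1.of_iso e, ?_⟩
  have := h.2
  exact Module.Finite.equiv ((gs R).mapIso e).toLinearEquiv

lemma QCSpec.of_isZero {M : (Spec R).Modules} (h : IsZero M) : QCSpec M := by
  have h2 : IsZero ((H18.tl R).obj (ModuleCat.of R PUnit)) :=
    (H18.tl R).map_isZero (ModuleCat.isZero_of_subsingleton _)
  exact (QCSpec.tl _).of_iso (h2.iso h)

lemma FG.of_isZero {M : (Spec R).Modules} (h : IsZero M) : FG M := by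
  refine ⟨QCSpec.of_isZero h, ?_⟩
  have : Subsingleton ((gs R).obj M) := ModuleCat.subsingleton_of_isZero ((gs R).map_isZero h)
  infer_instance

lemma QCSpec.biprod {M N : (Spec R).Modules} (h1 : QCSpec M) (h2 : QCSpec N) :
    QCSpec (M ⊞ N) := by
  obtain ⟨A, ⟨i⟩⟩ := h1
  obtain ⟨B, ⟨j⟩⟩ := h2
  have h1 := preservesBinaryBiproducts_of_preservesBiproducts (H18.tl R)
  exact ⟨A ⊞ B, ⟨(H18.tl R).mapBiprod A B ≪≫ biprod.mapIso i j⟩⟩

lemma finite_of_shortExact {B : Type u} [CommRing B] {S : ShortComplex (ModuleCat.{u} B)}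
    (hS : S.ShortExact) (h1 : Module.Finite B S.X₁) (h3 : Module.Finite B S.X₃) :
    Module.Finite B S.X₂ :=
  Module.Finite.of_exact
    ((ShortComplex.ShortExact.moduleCat_exact_iff_function_exact _).1 hS.exact)
    ((ModuleCat.epi_iff_surjective _).1 hS.epi_g)

variable [IsNoetherianRing R]

lemma isAb_FG : IsAb (FG : (Spec R).Modules → Prop) where
  iso e h := h.of_iso e
  ker {X Y} f hX hY := by
    refine ⟨QCSpec.kernel f hX.1 hY.1, ?_⟩
    have hm : Mono ((gs R).map (kernel.ι f)) := inferInstance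
    have := hX.2
    exact Module.Finite.of_injective ((gs R).map (kernel.ι f)).hom
      ((ModuleCat.mono_iff_injective _).1 hm)
  coker {X Y} f hX hY := by
    refine ⟨QCSpec.cokernel f hX.1 hY.1, ?_⟩
    have hI : QCSpec (Abelian.image f) := QCSpec.kernel _ hY.1 (QCSpec.cokernel f hX.1 hY.1)
    have h := shortExact_gs (shortExact_im_right f) hI hY.1 (QCSpec.cokernel f hX.1 hY.1)
    have := hY.2
    exact Module.Finite.of_surjective ((gs R).map (cokernel.π f)).hom
      ((ModuleCat.epi_iff_surjective _).1 h.epi_g)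
  sum {X Y} hX hY := by
    refine ⟨QCSpec.biprod hX.1 hY.1, ?_⟩
    have hS : (ShortComplex.mk (biprod.inl : X ⟶ X ⊞ Y) biprod.snd biprod.inl_snd).ShortExact :=
      (ShortComplex.Splitting.ofHasBinaryBiproduct X Y).shortExact
    exact finite_of_shortExact (shortExact_gs hS hX.1 (QCSpec.biprod hX.1 hY.1) hY.1) hX.2 hY.2

omit [IsNoetherianRing R] in
lemma FG_OO : FG (OO (Spec R)) := by
  refine ⟨QCSpec_OO R, ?_⟩
  have : IsIso ((tlgs R).unit) := inferInstance
  have e : ModuleCat.of R R ≅ (gs R).obj ((tl R).obj (ModuleCat.of R R)) :=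
    asIso ((tlgs R).unit.app _)
  have e2 : (gs R).obj ((tl R).obj (ModuleCat.of R R)) ≅ (gs R).obj (OO (Spec R)) :=
    (gs R).mapIso tildeSelf
  exact Module.Finite.equiv (e ≪≫ e2).toLinearEquiv

end fg

section finite
variable {X : Scheme.{u}}

/-- finite generation is local on affine opens -/
lemma finite_of_local {W : X.Opens} (hW : IsAffineOpen W) (H : X.Modules) [H.IsQuasicoherent]
    (S : Set Γ(X, W)) (hS : Ideal.span S = ⊤)
    (h : ∀ r ∈ S, Module.Finite Γ(X, X.basicOpen r) Γ(H, X.basicOpen r)) :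
    Module.Finite Γ(X, W) Γ(H, W) := by
  obtain ⟨S', hS', hspan⟩ := (Ideal.span_eq_top_iff_finite S).1 hS
  have h' : ∀ r : S', Module.Finite Γ(X, X.basicOpen r.1) Γ(H, X.basicOpen r.1) :=
    fun r => h r.1 (hS' r.2)
  choose G hG using fun r => (h' r).fg_top
  choose n t ht using fun (r : S') (g : Γ(H, X.basicOpen r.1)) => exists_extend hW H r.1 g
  classical
  let T : Finset Γ(H, W) := Finset.univ.biUnion fun r : S' => (G r).image (t r)
  let N : Submodule Γ(X, W) Γ(H, W) := Submodule.span _ (T : Set Γ(H, W))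
  have htN : ∀ (r : S') (g), g ∈ G r → t r g ∈ N := by
    intro r g hg
    apply Submodule.subset_span
    simp only [T, Finset.coe_biUnion, Set.mem_iUnion, Finset.coe_image]
    exact ⟨r, by simp, g, hg, rfl⟩
  have key : ∀ (r : S') (y : Γ(H, X.basicOpen r.1)), ∃ (m : ℕ), ∃ z ∈ N,
      res H (X.basicOpen_le r.1) z = resO (X.basicOpen_le r.1) r.1 ^ m • y := by
    intro r y
    have hy : y ∈ Submodule.span Γ(X, X.basicOpen r.1) (G r : Set Γ(H, X.basicOpen r.1)) := by
      rw [hG r]; trivial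
    induction hy using Submodule.span_induction with
    | mem g hg => exact ⟨n r g, t r g, htN r g hg, ht r g⟩
    | zero => exact ⟨0, 0, zero_mem _, by rw [res_zero, smul_zero]⟩
    | add a b _ _ ha hb =>
      obtain ⟨m, z, hz, hz'⟩ := ha
      obtain ⟨m', z', hz1, hz1'⟩ := hb
      refine ⟨m + m', r.1 ^ m' • z + r.1 ^ m • z', add_mem (N.smul_mem _ hz) (N.smul_mem _ hz1),
        ?_⟩
      rw [res_add, res_smul, res_smul, hz', hz1', resO_pow, resO_pow, smul_add, smul_smul,
        smul_smul, ← pow_add, ← pow_add, add_comm m' m]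
    | smul a y _ hy =>
      obtain ⟨m, z, hz, hz'⟩ := hy
      have hloc := hW.isLocalization_basicOpen r.1
      obtain ⟨m', a', ha'⟩ := IsLocalization.Away.surj (S := Γ(X, X.basicOpen r.1)) r.1 a
      have ha2 : resO (X.basicOpen_le r.1) a' = resO (X.basicOpen_le r.1) r.1 ^ m' * a := by
        rw [mul_comm]
        exact ha'.symm
      refine ⟨m + m', a' • z, N.smul_mem _ hz, ?_⟩
      rw [res_smul, hz', ha2, smul_smul, smul_smul, pow_add]
      congr 1
      ring
  have htop : (⊤ : Submodule Γ(X, W) Γ(H, W)) ≤ N := by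
    intro x _
    apply Submodule.mem_of_span_eq_top_of_smul_pow_mem N (S' : Set Γ(X, W)) hspan x
    intro r
    obtain ⟨m, z, hz, hz'⟩ := key r (res H (X.basicOpen_le r.1) x)
    have h1 : res H (X.basicOpen_le r.1) (r.1 ^ m • x - z) = 0 := by
      rw [res_sub, res_smul, resO_pow, hz', sub_self]
    obtain ⟨m', hm'⟩ := exists_pow_smul_eq_zero hW H r.1 _ h1
    refine ⟨m' + m, ?_⟩
    rw [smul_sub, sub_eq_zero, smul_smul, ← pow_add] at hm'
    rw [hm']
    exact N.smul_mem _ hz
  exact ⟨⟨T, top_le_iff.1 htop⟩⟩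

end finite

section perfect
variable {X : Scheme.{u}}

lemma FG_restrict_free {R : CommRingCat.{u}} [IsNoetherianRing R] {Y : Scheme.{u}}
    (h : Spec R ⟶ Y) [IsOpenImmersion h] (n : ℕ) :
    FG ((restrictFunctor h).obj (⨁ fun _ : Fin n => OO Y)) := by
  refine biproduct_fin_of_sum (fun M : Y.Modules => FG ((restrictFunctor h).obj M))
    ?_ ?_ ?_ _ ?_
  · intro M N e hM
    exact hM.of_iso ((restrictFunctor h).mapIso e)
  · intro M hM
    exact FG.of_isZero ((restrictFunctor h).map_isZero hM)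
  · intro M N hM hN
    have h2 := preservesBinaryBiproducts_of_preservesBiproducts (restrictFunctor h)
    exact (isAb_FG.sum hM hN).of_iso ((restrictFunctor h).mapBiprod M N).symm
  · intro _
    exact FG_OO.of_iso (restrictUnitIso h).symm

/-- cohomology of a locally strictly perfect object, restricted to a small affine -/
lemma FG_homology {K : DerivedCategory X.Modules} {U : X.Opens}
    {E : CochainComplex (U : Scheme.{u}).Modules ℤ} (hE : IsStrictlyPerfect E)
    (e : (restrictD U).obj K ≅ Q.obj E) {R : CommRingCat.{u}} [IsNoetherianRing R]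
    (h : Spec R ⟶ U) [IsOpenImmersion h] (i : ℤ) :
    FG (((homologyFunctor X.Modules i).obj K).restrict (h ≫ U.ι)) := by
  let F := restrictFunctor h
  have h1 : ∀ j, FG (((F.mapHomologicalComplex (ComplexShape.up ℤ)).obj E).X j) := by
    intro j
    obtain ⟨n, ⟨r⟩⟩ := hE.2 j
    exact isAb_FG.retract (r.map F) (FG_restrict_free h n)
  have h2 : FG (((F.mapHomologicalComplex (ComplexShape.up ℤ)).obj E).homology i) :=
    isAb_FG.homology _ (h1 _) (h1 _) (h1 _)
  have e1 : ((F.mapHomologicalComplex (ComplexShape.up ℤ)).obj E).homology i ≅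
      F.obj (E.homology i) := mapComplexHomology F E i
  have e2 : E.homology i ≅ (homologyFunctor _ i).obj (Q.obj E) :=
    ((homologyFunctorFactors _ i).app E).symm
  have e3 : (homologyFunctor _ i).obj (Q.obj E) ≅
      (homologyFunctor _ i).obj ((restrictD U).obj K) :=
    (homologyFunctor _ i).mapIso e.symm
  have e4 : (homologyFunctor _ i).obj ((restrictD U).obj K) ≅
      (restrictFunctor U.ι).obj ((homologyFunctor X.Modules i).obj K) :=
    mapDHomology (restrictFunctor U.ι) K i
  have e5 : ((homologyFunctor X.Modules i).obj K).restrict (h ≫ U.ι) ≅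
      F.obj ((restrictFunctor U.ι).obj ((homologyFunctor X.Modules i).obj K)) :=
    (restrictFunctorComp h U.ι).app _
  exact h2.of_iso (e1 ≪≫ F.mapIso (e2 ≪≫ e3 ≪≫ e4) ≪≫ e5.symm)

lemma isZero_homology {K : DerivedCategory X.Modules} {U : X.Opens}
    {E : CochainComplex (U : Scheme.{u}).Modules ℤ} 
    (e : (restrictD U).obj K ≅ Q.obj E) (i : ℤ) (hi : IsZero (E.X i)) :
    IsZero ((restrictFunctor U.ι).obj ((homologyFunctor X.Modules i).obj K)) := by
  have h1 : IsZero (E.homology i) :=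
    ShortComplex.isZero_homology_of_isZero_X₂ _ hi
  exact h1.of_iso ((mapDHomology (restrictFunctor U.ι) K i).symm ≪≫
    (homologyFunctor _ i).mapIso e ≪≫ (homologyFunctorFactors _ i).app E)

/-- the open immersion of a smaller affine -/
lemma exists_lift {V U : X.Opens} (hV : IsAffineOpen V) (hVU : V ≤ U) :
    ∃ (h : Spec Γ(X, V) ⟶ U) (_ : IsOpenImmersion h), h ≫ U.ι = hV.fromSpec := by
  have hr : Set.range hV.fromSpec ⊆ Set.range U.ι := by
    have h1 : (hV.fromSpec.opensRange : Set X) ⊆ (U.ι.opensRange : Set X) := by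
      rw [hV.opensRange_fromSpec, Scheme.Opens.opensRange_ι]; exact hVU
    exact h1
  refine ⟨IsOpenImmersion.lift U.ι hV.fromSpec hr, ?_, IsOpenImmersion.lift_fac _ _ _⟩
  have : IsOpenImmersion (IsOpenImmersion.lift U.ι hV.fromSpec hr ≫ U.ι) := by
    rw [IsOpenImmersion.lift_fac]; infer_instance
  exact IsOpenImmersion.of_comp _ U.ι

lemma FG_homology' [IsLocallyNoetherian X] {K : DerivedCategory X.Modules} {U : X.Opens}
    {E : CochainComplex (U : Scheme.{u}).Modules ℤ} (hE : IsStrictlyPerfect E)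
    (e : (restrictD U).obj K ≅ Q.obj E) {V : X.Opens} (hV : IsAffineOpen V) (hVU : V ≤ U)
    (i : ℤ) : FG (((homologyFunctor X.Modules i).obj K).restrict hV.fromSpec) := by
  obtain ⟨h, hh, hfac⟩ := exists_lift hV hVU
  have : IsNoetherianRing Γ(X, V) := IsLocallyNoetherian.component_noetherian ⟨V, hV⟩
  exact (FG_homology hE e h i).of_iso ((restrictFunctorCongr hfac).app _)

lemma IsPerfect.homology_qc [IsLocallyNoetherian X] {K : DerivedCategory X.Modules}
    (hK : IsPerfect K) (i : ℤ) :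
    ((homologyFunctor X.Modules i).obj K : X.Modules).IsQuasicoherent := by
  apply isQuasicoherent_of_local
  intro x
  obtain ⟨U, hx, E, hE, ⟨e⟩⟩ := hK x
  obtain ⟨_, ⟨V, hV, rfl⟩, hxV, hVU⟩ := X.isBasis_affineOpens.exists_subset_of_mem_open
    hx U.isOpen
  have hV' : IsAffineOpen V := hV
  exact ⟨_, hV'.fromSpec, inferInstance, by rw [IsAffineOpen.opensRange_fromSpec]; exact hxV,
    (FG_homology' hE e hV' hVU i).1⟩

lemma IsPerfect.homology_finite [IsLocallyNoetherian X] {K : DerivedCategory X.Modules}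
    (hK : IsPerfect K) (i : ℤ) {W : X.Opens} (hW : IsAffineOpen W) :
    Module.Finite Γ(X, W) Γ((homologyFunctor X.Modules i).obj K, W) := by
  have hqc := hK.homology_qc i
  have hloc : ∀ x : W, ∃ r : Γ(X, W), x.1 ∈ X.basicOpen r ∧
      Module.Finite Γ(X, X.basicOpen r)
        Γ((homologyFunctor X.Modules i).obj K, X.basicOpen r) := by
    intro x
    obtain ⟨U, hx, E, hE, ⟨e⟩⟩ := hK x.1
    obtain ⟨r, hr, hxr⟩ := hW.exists_basicOpen_le (V := U) ⟨x.1, hx⟩ x.2
    refine ⟨r, hxr, ?_⟩
    have hV := hW.basicOpen r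
    have h1 := FG_homology' hE e hV hr i
    have := h1.2
    let e2 : (sec (X.basicOpen r)).obj ((homologyFunctor X.Modules i).obj K) ≅
        (gs Γ(X, X.basicOpen r)).obj
          (((homologyFunctor X.Modules i).obj K).restrict hV.fromSpec) :=
      (secNatIso hV).app ((homologyFunctor X.Modules i).obj K)
    exact Module.Finite.equiv e2.toLinearEquiv.symm
  choose r hr hfin using hloc
  apply finite_of_local hW _ (Set.range r)
  · apply hW.self_le_iSup_basicOpen_iff.1
    intro x hx
    exact Opens.mem_iSup.2 ⟨⟨r ⟨x, hx⟩, ⟨x, hx⟩, rfl⟩, hr ⟨x, hx⟩⟩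
  · rintro _ ⟨x, rfl⟩
    exact hfin x

lemma isZero_of_restrict_cover (M : X.Modules) {ι : Type*} (U : ι → X.Opens)
    (hU : ⨆ i, U i = ⊤) (h : ∀ i, IsZero ((restrictFunctor (U i).ι).obj M)) : IsZero M := by
  apply isZero_of_subsingleton
  intro V
  constructor
  intro a b
  apply eq_of_cover M U hU
  intro i
  have h1 := subsingleton_of_isZero (h i) ((U i).ι ⁻¹ᵁ V)
  have e : (U i).ι ''ᵁ ((U i).ι ⁻¹ᵁ V) = V ⊓ U i := by
    rw [Scheme.Hom.image_preimage_eq_opensRange_inf, Scheme.Opens.opensRange_ι, inf_comm]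
  apply res_injective_of_eq M e.le e.ge
  exact h1.elim _ _

lemma IsPerfect.bounded [CompactSpace X] {K : DerivedCategory X.Modules} (hK : IsPerfect K) :
    ∃ (a : ℤ) (n : ℕ), K.IsGE a ∧ K.IsLE (a + n) := by
  choose U hx E hE e using hK
  choose a b hab using fun x => (hE x).1
  obtain ⟨t, ht⟩ := isCompact_univ.elim_finite_subcover (fun x : X => (U x : Set X))
    (fun x => (U x).isOpen) (fun x _ => Set.mem_iUnion.2 ⟨x, hx x⟩)
  have hcov : ⨆ x : t, U x.1 = ⊤ := by
    rw [eq_top_iff]
    intro y _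
    obtain ⟨x, hx⟩ := Set.mem_iUnion.1 (ht (Set.mem_univ y))
    obtain ⟨hxt, hy⟩ := Set.mem_iUnion.1 hx
    exact Opens.mem_iSup.2 ⟨⟨x, hxt⟩, hy⟩
  obtain ⟨N, hN⟩ : ∃ N : ℕ, ∀ x ∈ t, -(N : ℤ) ≤ a x ∧ b x ≤ N := by
    refine ⟨∑ x ∈ t, ((a x).natAbs + (b x).natAbs), fun x hx => ?_⟩
    have h1 : (a x).natAbs + (b x).natAbs ≤ ∑ x ∈ t, ((a x).natAbs + (b x).natAbs) :=
      Finset.single_le_sum (f := fun x => (a x).natAbs + (b x).natAbs)
        (fun _ _ => Nat.zero_le _) hx
    omega
  have hz : ∀ i : ℤ, (i < -(N : ℤ) ∨ (N : ℤ) < i) →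
      IsZero ((homologyFunctor X.Modules i).obj K) := by
    intro i hi
    apply isZero_of_restrict_cover _ (fun x : t => U x.1) hcov
    intro x
    obtain ⟨e⟩ := e x.1
    apply isZero_homology e i
    apply hab
    have := hN x.1 x.2
    omega
  refine ⟨-N, 2 * N, ?_, ?_⟩
  · rw [isGE_iff]
    intro i hi
    exact hz i (Or.inl hi)
  · rw [isLE_iff]
    intro i hi
    exact hz i (Or.inr (by push_cast at hi; omega))

end perfect

end H18
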