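import Mathlib
import Pool.Agent.H18.Defs
import Pool.Agent.H18.DerDev
import Pool.Agent.H18.Perf
import Pool.Agent.H18.PlaneK

/-! Generation of the perfect complexes by two objects. -/

open CategoryTheory AlgebraicGeometry Limits Pretriangulated DerivedCategory ZeroObject

universe u

set_option maxHeartbeats 400000

namespace H18

section
variable {D : Type*} [Category* D] [HasZeroObject D] [HasShift D ℤ] [Preadditive D]
    [∀ n : ℤ, (shiftFunctor D n).Additive] [Pretriangulated D] {T : ObjectProperty D}

lemma IsThick.retracts (h : IsThick T) : T.IsStableUnderRetracts :=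
  ⟨fun r hY => h.summand _ _ r hY⟩

lemma IsThick.triangulated (h : IsThick T) : T.IsTriangulated := by
  have := h.retracts
  have h0 : T.ContainsZero := ⟨⟨0, isZero_zero D, h.zero _ (isZero_zero _)⟩⟩
  have h1 : T.IsStableUnderShift ℤ := ⟨fun a => ⟨fun X hX => h.shift X a hX⟩⟩
  have h3 : T.IsTriangulatedClosed₃ := .mk' fun Δ hΔ h1 h2 => h.cone Δ hΔ h1 h2
  have h4 : T.IsTriangulatedClosed₂ := .of_isTriangulatedClosed₃
  constructor

end

variable {X : Scheme.{u}}

lemma Plane.isLocallyNoetherian (P : Plane X) : IsLocallyNoetherian X :=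
  isLocallyNoetherian_of_affine_cover (S := fun j => ⟨P.U j, P.affine j⟩) P.cover P.noeth

lemma Plane.compactSpace (P : Plane X) : CompactSpace X := by
  constructor
  have h : (Set.univ : Set X) = ⋃ j, (P.U j : Set X) := by
    have := congrArg (fun V : X.Opens => (V : Set X)) P.cover
    rw [TopologicalSpace.Opens.coe_iSup] at this
    exact this.symm
  rw [h]
  exact isCompact_iUnion fun j => (P.affine j).isCompact

lemma Plane.Coh.homology (P : Plane X) {K : DerivedCategory X.Modules} (hK : IsPerfect K) (i : ℤ) :
    P.Coh ((homologyFunctor X.Modules i).obj K) := by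
  have := P.isLocallyNoetherian
  exact ⟨hK.homology_qc i, fun j => hK.homology_finite i (P.affine j)⟩

namespace PlaneK
variable {k : Type u} [Field k] (P : PlaneK k X)

/-- The three consecutive twists generate all perfect complexes. -/
theorem generate {T : ObjectProperty (DerivedCategory X.Modules)} (hT : IsThick T)
    (h1 : onHeart T (P.T0.R 1)) (h2 : onHeart T (P.T0.R 2)) (h3 : onHeart T (P.T0.R 3))
    (K : DerivedCategory X.Modules) (hK : IsPerfect K) : T K := by
  have := hT.retracts
  have := hT.triangulated
  have := P.compactSpace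
  obtain ⟨a, n, ha, hn⟩ := hK.bounded
  refine devissage T P.Coh (fun F hF => P.all_coh (isDev_onHeart T) h1 h2 h3 F hF)
    (fun e h => h.of_iso e) (fun h => Plane.Coh.of_isZero h) n a K ha hn
    (fun i => Plane.Coh.homology P.toPlane hK i)

/-- the two coordinates give a map between twists -/
noncomputable def inc : P.T0.R 3 ⟶ P.T0.R 1 ⊞ P.T0.R 2 :=
  biprod.lift (P.T0.μ 1 2 ≫ P.T0.μ 1 1) (-(P.T0.μ 0 2))

lemma inc_snd : P.inc ≫ biprod.snd = -(P.T0.μ 0 2) := by
  rw [inc, biprod.lift_snd]

lemma inc_fst : P.inc ≫ biprod.fst = P.T0.μ 1 2 ≫ P.T0.μ 1 1 := by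
  rw [inc, biprod.lift_fst]

instance : Mono P.inc := by
  have h : Mono (P.inc ≫ biprod.snd) := by
    rw [inc_snd]
    infer_instance
  exact mono_of_mono P.inc biprod.snd

/-- the twisted ideal sheaf -/
noncomputable def F₂ : X.Modules := cokernel P.inc

theorem generate' {T : ObjectProperty (DerivedCategory X.Modules)} (hT : IsThick T)
    (h3 : onHeart T (P.T0.R 3)) (hF : onHeart T P.F₂)
    (K : DerivedCategory X.Modules) (hK : IsPerfect K) : T K := by
  have := hT.retracts
  have := hT.triangulated
  have hD := isDev_onHeart T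
  have h12 : onHeart T (P.T0.R 1 ⊞ P.T0.R 2) := hD.mid (shortExact_cokernel P.inc) h3 hF
  exact P.generate hT (hD.summand_left h12) (hD.summand h12) h3 K hK

end PlaneK
end H18
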