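import Mathlib
import Pool.Agent.H18.Defs

/-! Simple-like modules. -/

open CategoryTheory AlgebraicGeometry Limits DerivedCategory

universe u

set_option maxHeartbeats 400000

namespace H18

variable {X : Scheme.{u}} {k : Type u} [Field k] (f : X ⟶ Spec (.of k))

lemma smul_eq_mulEnd (M : X.Modules) (c : k) :
    letI := kLinear f
    c • 𝟙 M = mulEnd (scalars f c) M := by
  exact Category.comp_id _

theorem simpleLike_single (M : X.Modules) (h0 : ¬ IsZero M)
    (h : ∀ φ : M ⟶ M, ∃ c : k, φ = mulEnd (scalars f c) M) :
    SimpleLike f ((singleFunctor X.Modules 0).obj M) := by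
  constructor
  · intro p hp φ
    have := TStructure.t.isGE_shift ((singleFunctor X.Modules 0).obj M) 0 p (-p)
    exact TStructure.t.zero φ 0 (-p)
  · letI := kLinear f
    apply finrank_eq_one (𝟙 _)
    · intro h1
      apply h0
      rw [IsZero.iff_id_eq_zero]
      apply (singleFunctor X.Modules 0).map_injective
      rw [CategoryTheory.Functor.map_id, h1, Functor.map_zero]
    · intro w
      obtain ⟨φ, rfl⟩ := (singleFunctor X.Modules 0).map_surjective w
      obtain ⟨c, rfl⟩ := h φ
      refine ⟨c, ?_⟩
      rw [← CategoryTheory.Functor.map_id, ← Functor.map_smul, smul_eq_mulEnd]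

end H18
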