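import Mathlib
import Pool.Agent.H18.ConstP
import Pool.Agent.H18.Simple
import Pool.Agent.H18.Gen

/-! Endomorphisms of the two objects. -/

open CategoryTheory AlgebraicGeometry Limits TopologicalSpace Scheme.Modules

universe u

set_option maxHeartbeats 400000

namespace H18
variable {X : Scheme.{u}}

lemma app_comp {M N L : X.Modules} (φ : M ⟶ N) (ψ : N ⟶ L) (V : X.Opens) (x : Γ(M, V)) :
    (φ ≫ ψ).app V x = ψ.app V (φ.app V x) := by
  rw [Hom.comp_app, ConcreteCategory.comp_apply]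

lemma app_add' {M N : X.Modules} (φ : M ⟶ N) (V : X.Opens) (x y : Γ(M, V)) :
    φ.app V (x + y) = φ.app V x + φ.app V y := map_add _ _ _

lemma app_zero' {M N : X.Modules} (φ : M ⟶ N) (V : X.Opens) :
    φ.app V (0 : Γ(M, V)) = 0 := map_zero _

lemma biprod_section {M N : X.Modules} (V : X.Opens) (y : Γ(M ⊞ N, V)) :
    y = (biprod.inl : M ⟶ M ⊞ N).app V ((biprod.fst : M ⊞ N ⟶ M).app V y) +
      (biprod.inr : N ⟶ M ⊞ N).app V ((biprod.snd : M ⊞ N ⟶ N).app V y) := by
  have h := congrArg (fun t : M ⊞ N ⟶ M ⊞ N => t.app V y) (biprod.total (X := M) (Y := N))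
  rw [← app_comp, ← app_comp]
  exact h.symm

namespace PlaneK
variable {k : Type u} [Field k] (P : PlaneK k X)

/-- compatibility of a structure morphism with the chart system -/
def Structure (f : X ⟶ Spec (.of k)) : Prop :=
  ∀ j c, resO (le_top : P.U j ≤ ⊤) (scalars f c) = P.φ j (.C c)

variable {P} {f : X ⟶ Spec (.of k)} (hf : P.Structure f)
include hf

lemma mulEnd_scalars (M : X.Modules) (j : Fin 3) (c : k) (x : Γ(M, P.U j)) :
    (mulEnd (scalars f c) M).app (P.U j) x = P.φ j (.C c) • x := by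
  rw [← hf j c, mulEnd_app]

theorem end_L (n : ℕ) (φ : P.T0.R n ⟶ P.T0.R n) : ∃ c, φ = mulEnd (scalars f c) _ := by
  choose a ha using fun j => P.T0.gen n j (φ.app (P.U j) (P.T0.e n j))
  obtain ⟨c, hc⟩ := P.const_of_compat a (by
    intro j l
    have h1 := congrArg (res _ (inf_le_left : P.U j ⊓ P.U l ≤ P.U j)) (ha j)
    have h2 := congrArg (res _ (inf_le_right : P.U j ⊓ P.U l ≤ P.U l)) (ha l)
    rw [← app_res, res_smul] at h1 h2
    have h3 := P.T0.compat n j l
    rw [h3, Hom.app_smul, h2, smul_comm, ← h3] at h1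
    exact ((lin_bijective (P.coc n) (inf_le_left : P.U j ⊓ P.U l ≤ P.U j)).1 h1).symm)
  refine ⟨c, ?_⟩
  apply P.T0.hom_ext (P.T0.coh n).qc
  intro j
  rw [mulEnd_scalars hf, ha, hc]

omit hf in
lemma not_isZero_L (n : ℕ) : ¬ IsZero (P.T0.R n) := by
  intro h
  have h1 := subsingleton_of_isZero h (P.U 0)
  have h2 := P.toPlane.lin_smul_eq_zero (n := n) (j := 0) (le_refl (P.U 0)) 1
    (h1.elim _ _)
  have := P.isDomain 0
  exact one_ne_zero h2

theorem simpleLike_L (n : ℕ) :
    SimpleLike f ((DerivedCategory.singleFunctor X.Modules 0).obj (P.T0.R n)) :=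
  simpleLike_single f _ (not_isZero_L n) (fun φ => end_L hf n φ)

end PlaneK
end H18
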