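import Mathlib
import Pool.Agent.H18.EndP

/-! Endomorphisms of the twisted ideal sheaf. -/

open CategoryTheory AlgebraicGeometry Limits TopologicalSpace Scheme.Modules

universe u

set_option maxHeartbeats 400000

namespace H18
variable {X : Scheme.{u}}

namespace PlaneK
variable {k : Type u} [Field k] (P : PlaneK k X)

noncomputable def q1 : P.T0.R 1 ⟶ P.F₂ := biprod.inl ≫ cokernel.π P.inc
noncomputable def q2 : P.T0.R 2 ⟶ P.F₂ := biprod.inr ≫ cokernel.π P.inc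

lemma inc_π : P.T0.μ 1 2 ≫ P.T0.μ 1 1 ≫ P.q1 = P.T0.μ 0 2 ≫ P.q2 := by
  have h : P.inc ≫ cokernel.π P.inc = 0 := cokernel.condition P.inc
  have h1 : P.inc = (P.T0.μ 1 2 ≫ P.T0.μ 1 1) ≫ biprod.inl - P.T0.μ 0 2 ≫ biprod.inr := by
    apply biprod.hom_ext
    · simp [inc]
    · simp [inc]
  have h2 : P.inc ≫ cokernel.π P.inc = ((P.T0.μ 1 2 ≫ P.T0.μ 1 1) ≫ biprod.inl -
      P.T0.μ 0 2 ≫ biprod.inr) ≫ cokernel.π P.inc := congrArg (fun t => t ≫ cokernel.π P.inc) h1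
  rw [h, Preadditive.sub_comp] at h2
  have h3 := sub_eq_zero.1 h2.symm
  rw [Category.assoc, Category.assoc, Category.assoc] at h3
  exact h3

noncomputable def f1 (j : Fin 3) : Γ(P.F₂, P.U j) := P.q1.app (P.U j) (P.T0.e 1 j)
noncomputable def f2 (j : Fin 3) : Γ(P.F₂, P.U j) := P.q2.app (P.U j) (P.T0.e 2 j)

lemma compat_f1 : Compat (P.coc 1) P.F₂ P.f1 := (P.T0.compat 1).map P.q1
lemma compat_f2 : Compat (P.coc 2) P.F₂ P.f2 := (P.T0.compat 2).map P.q2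

lemma rel_f (j : Fin 3) : P.g j 1 ^ 2 • P.f1 j = P.g j 0 • P.f2 j := by
  have h := congrArg (fun t : P.T0.R 3 ⟶ P.F₂ => t.app (P.U j) (P.T0.e 3 j)) P.inc_π
  simp only [app_comp] at h
  rw [P.T0.μ_e 1 2 j, P.T0.μ_e 0 2 j, Hom.app_smul, P.T0.μ_e 1 1 j, Hom.app_smul,
    Hom.app_smul, Hom.app_smul, smul_smul, ← pow_two] at h
  exact h

lemma coh_sum : P.Coh (P.T0.R 1 ⊞ P.T0.R 2) := (P.T0.coh 1).biprod (P.T0.coh 2)

lemma coh_F₂ : P.Coh P.F₂ := (P.T0.coh 3).cokernel P.coh_sum _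

lemma exists_smul {n : ℕ} {j : Fin 3} {V : X.Opens} (h : V ≤ P.U j) (x : Γ(P.T0.R n, V)) :
    ∃ a : Γ(X, V), x = a • res (P.T0.R n) h (P.T0.e n j) := by
  obtain ⟨a, ha⟩ := (lin_bijective (P.coc n) h).2 x
  exact ⟨a, ha.symm⟩

lemma smul_inj {n : ℕ} {j : Fin 3} {V : X.Opens} (h : V ≤ P.U j) (a b : Γ(X, V))
    (hab : a • res (P.T0.R n) h (P.T0.e n j) = b • res (P.T0.R n) h (P.T0.e n j)) : a = b :=
  (lin_bijective (P.coc n) h).1 hab

lemma gen_f {j : Fin 3} {V : X.Opens} (hV : IsAffineOpen V) (h : V ≤ P.U j) (x : Γ(P.F₂, V)) :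
    ∃ a b : Γ(X, V), x = a • res P.F₂ h (P.f1 j) + b • res P.F₂ h (P.f2 j) := by
  obtain ⟨y, rfl⟩ := app_surjective_of_epi hV (cokernel.π P.inc) P.coh_sum.qc P.coh_F₂.qc x
  obtain ⟨a, ha⟩ := P.exists_smul h ((biprod.fst : P.T0.R 1 ⊞ P.T0.R 2 ⟶ _).app V y)
  obtain ⟨b, hb⟩ := P.exists_smul h ((biprod.snd : P.T0.R 1 ⊞ P.T0.R 2 ⟶ _).app V y)
  refine ⟨a, b, ?_⟩
  conv_lhs => rw [biprod_section V y, ha, hb]
  rw [app_add', Hom.app_smul, Hom.app_smul, app_res, app_res, Hom.app_smul, Hom.app_smul,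
    app_res, app_res, ← app_comp, ← app_comp]
  rfl

lemma zero_app_res {M N : X.Modules} {U V : X.Opens} (h : V ≤ U) (x : Γ(M, U)) :
    res N h ((0 : M ⟶ N).app U x) = 0 := by
  have : ((0 : M ⟶ N).app U x) = 0 := rfl
  rw [this, res_zero]

lemma rel_of {j : Fin 3} {V : X.Opens} (hV : IsAffineOpen V) (h : V ≤ P.U j) (a b : Γ(X, V))
    (hab : a • res P.F₂ h (P.f1 j) + b • res P.F₂ h (P.f2 j) = 0) :
    ∃ c : Γ(X, V), a = c * resO h (P.g j 1) ^ 2 ∧ b = - (c * resO h (P.g j 0)) := by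
  let y : Γ(P.T0.R 1 ⊞ P.T0.R 2, V) :=
    a • res _ h ((biprod.inl : _ ⟶ P.T0.R 1 ⊞ P.T0.R 2).app (P.U j) (P.T0.e 1 j)) +
      b • res _ h ((biprod.inr : _ ⟶ P.T0.R 1 ⊞ P.T0.R 2).app (P.U j) (P.T0.e 2 j))
  have hy : (cokernel.π P.inc).app V y = 0 := by
    refine Eq.trans ?_ hab
    simp only [y]
    rw [app_add', Hom.app_smul, Hom.app_smul, app_res, app_res, ← app_comp, ← app_comp]
    rfl
  obtain ⟨z, hz⟩ := exists_of_cokernel hV P.inc (P.T0.coh 3).qc P.coh_sum.qc y hy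
  obtain ⟨c, rfl⟩ := P.exists_smul h z
  refine ⟨c, ?_, ?_⟩
  · have h1 := congrArg ((biprod.fst : P.T0.R 1 ⊞ P.T0.R 2 ⟶ _).app V) hz
    rw [← app_comp, inc_fst] at h1
    simp only [y] at h1
    rw [app_add', Hom.app_smul, Hom.app_smul, app_res, app_res, Hom.app_smul, app_res,
      ← app_comp, ← app_comp, biprod.inl_fst, biprod.inr_fst, app_comp, P.T0.μ_e, Hom.app_smul,
      P.T0.μ_e, smul_smul, res_smul, smul_smul, zero_app_res, smul_zero, add_zero] at h1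
    apply P.smul_inj h
    rw [pow_two, ← resO_mul]
    exact h1.symm
  · have h1 := congrArg ((biprod.snd : P.T0.R 1 ⊞ P.T0.R 2 ⟶ _).app V) hz
    rw [← app_comp, inc_snd] at h1
    simp only [y] at h1
    have h2 : (-(P.T0.μ 0 2)).app (P.U j) (P.T0.e 3 j) = (-(P.g j 0)) • P.T0.e 2 j := by
      rw [neg_smul, ← P.T0.μ_e 0 2 j]
      rfl
    rw [app_add', Hom.app_smul, Hom.app_smul, app_res, app_res, Hom.app_smul, app_res,
      ← app_comp, ← app_comp, biprod.inl_snd, biprod.inr_snd, zero_app_res, smul_zero, zero_add,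
      h2, res_smul, smul_smul] at h1
    apply P.smul_inj h
    refine h1.symm.trans ?_
    have h4 : resO h (-P.g j 0) = - resO h (P.g j 0) :=
      map_neg (X.presheaf.map (homOfLE h).op).hom (P.g j 0)
    rw [h4, mul_neg]

/-- the first coordinate is a non zero divisor on the ideal sheaf over the last chart -/
lemma reg_F (x : Γ(P.F₂, P.U 2)) (hx : P.g 2 0 • x = 0) : x = 0 := by
  have hd := P.isDomain 2
  obtain ⟨a, b, rfl⟩ := P.gen_f (P.affine 2) (le_refl (P.U 2)) x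
  rw [smul_add, smul_smul, smul_smul] at hx
  obtain ⟨c, h1, h2⟩ := P.rel_of (P.affine 2) (le_refl (P.U 2)) _ _ hx
  have hid : ∀ a : Γ(X, P.U 2), resO (le_refl (P.U 2)) a = a := fun a => by
    change (X.presheaf.map (𝟙 _)) a = a
    rw [X.presheaf.map_id]; rfl
  rw [hid] at h1 h2
  have hset : {b | ∃ i : Fin 3, i.val < 1 ∧ b = P.g 2 i} = {P.g 2 0} := by
    ext b
    constructor
    · rintro ⟨i, hi, rfl⟩
      have : i = 0 := Fin.ext (by simpa using hi)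
      subst this
      rfl
    · rintro rfl
      exact ⟨0, by simp, rfl⟩
  have h3 : c ∈ P.strat 1 2 := by
    apply P.strat_regular 1 rfl 2
    apply P.strat_regular 1 rfl 2
    have h6 : P.g 2 1 * (P.g 2 1 * c) = P.g 2 0 * a := by
      rw [h1]; ring
    have h7 : P.g 2 0 * a ∈ Ideal.span {b | ∃ i : Fin 3, i.val < 1 ∧ b = P.g 2 i} := by
      rw [hset]
      exact Ideal.mul_mem_right _ _ (Ideal.mem_span_singleton_self _)
    rw [h6]
    exact h7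
  rw [strat, hset, Ideal.mem_span_singleton] at h3
  obtain ⟨c', rfl⟩ := h3
  have h4 : a = c' * P.g 2 1 ^ 2 := by
    apply mul_left_cancel₀ (P.g_ne_zero 2 0)
    rw [h1]; ring
  have h5 : b = -(c' * P.g 2 0) := by
    apply mul_left_cancel₀ (P.g_ne_zero 2 0)
    rw [h2]; ring
  rw [h4, h5, res_self, res_self, mul_smul, P.rel_f 2, neg_smul, mul_smul, add_neg_cancel]

lemma gen_zero (x : Γ(P.F₂, P.U 0)) : ∃ a : Γ(X, P.U 0), x = a • P.f1 0 := by
  obtain ⟨a, b, rfl⟩ := P.gen_f (P.affine 0) (le_refl (P.U 0)) x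
  refine ⟨a + b * P.g 0 1 ^ 2, ?_⟩
  have h := P.rel_f 0
  rw [P.g_self, one_smul] at h
  rw [res_self, res_self, ← h, add_smul, mul_smul]

lemma gen_one (x : Γ(P.F₂, P.U 1)) : ∃ a : Γ(X, P.U 1), x = a • P.f2 1 := by
  obtain ⟨a, b, rfl⟩ := P.gen_f (P.affine 1) (le_refl (P.U 1)) x
  refine ⟨a * P.g 1 0 + b, ?_⟩
  have h := P.rel_f 1
  rw [P.g_self, one_pow, one_smul] at h
  rw [res_self, res_self, h, add_smul, mul_smul]

lemma f1_eq_f2 : res P.F₂ (inf_le_left : P.U 0 ⊓ P.U 1 ≤ P.U 0) (P.f1 0) =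
    res P.F₂ (inf_le_right : P.U 0 ⊓ P.U 1 ≤ P.U 1) (P.f2 1) := by
  have h := P.rel_f 1
  rw [P.g_self, one_pow, one_smul] at h
  have h1 := P.compat_f1 0 1
  rw [P.coc_c, pow_one, h, res_smul, smul_smul, P.g_mul_g, one_smul] at h1
  exact h1

variable {P} {f : X ⟶ Spec (.of k)} (hf : P.Structure f)
include hf

theorem end_F (φ : P.F₂ ⟶ P.F₂) : ∃ c, φ = mulEnd (scalars f c) _ := by
  obtain ⟨h0, e0⟩ := P.gen_zero (φ.app (P.U 0) (P.f1 0))
  obtain ⟨h1, e1⟩ := P.gen_one (φ.app (P.U 1) (P.f2 1))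
  have hA : IsAffineOpen (P.U 0 ⊓ P.U 1) := by
    rw [← P.basicOpen_g]; exact (P.affine 0).basicOpen _
  have hag : resO (inf_le_left : P.U 0 ⊓ P.U 1 ≤ P.U 0) h0 =
      resO (inf_le_right : P.U 0 ⊓ P.U 1 ≤ P.U 1) h1 := by
    have e0' := congrArg (res _ (inf_le_left : P.U 0 ⊓ P.U 1 ≤ P.U 0)) e0
    have e1' := congrArg (res _ (inf_le_right : P.U 0 ⊓ P.U 1 ≤ P.U 1)) e1
    rw [← app_res, res_smul] at e0' e1'
    rw [← f1_eq_f2, e0', ← sub_eq_zero, ← sub_smul] at e1'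
    obtain ⟨c, hc1, hc2⟩ := P.rel_of hA inf_le_left (resO inf_le_left h0 - resO inf_le_right h1) 0
      (by rw [zero_smul, add_zero]; exact e1')
    rw [P.g_self, resO_one, mul_one, zero_eq_neg] at hc2
    rw [hc2, zero_mul, sub_eq_zero] at hc1
    exact hc1
  obtain ⟨c, hc⟩ := P.const_zero_one h0 h1 hag
  have hc1 : h1 = P.φ 1 (.C c) := by
    apply P.resO_inj 1 0
    have h2 := congrArg (resO (inf_comm (P.U 1) (P.U 0)).le) hag
    rw [resO_resO, resO_resO, hc] at h2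
    refine h2.symm.trans ?_
    exact (P.φ_C 1 0 c).symm
  refine ⟨c, ?_⟩
  rw [← sub_eq_zero]
  set ψ := φ - mulEnd (scalars f c) P.F₂ with hψ
  have hψ' : ∀ j (x : Γ(P.F₂, P.U j)), ψ.app (P.U j) x =
      φ.app (P.U j) x - P.φ j (.C c) • x := by
    intro j x
    rw [hψ, ← mulEnd_scalars hf]
    rfl
  have z0 : ∀ x : Γ(P.F₂, P.U 0), ψ.app (P.U 0) x = 0 := by
    intro x
    obtain ⟨a, rfl⟩ := P.gen_zero x
    rw [Hom.app_smul, hψ', e0, hc, sub_self, smul_zero]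
  have z1 : ∀ x : Γ(P.F₂, P.U 1), ψ.app (P.U 1) x = 0 := by
    intro x
    obtain ⟨a, rfl⟩ := P.gen_one x
    rw [Hom.app_smul, hψ', e1, hc1, sub_self, smul_zero]
  have hqc := P.coh_F₂.qc
  have z2 : ∀ x : Γ(P.F₂, P.U 2), ψ.app (P.U 2) x = 0 := by
    intro x
    have hle : X.basicOpen (P.g 0 2) ≤ P.U 2 := by
      rw [P.basicOpen_g]; exact inf_le_right
    obtain ⟨n, t, ht⟩ := exists_extend (P.affine 0) P.F₂ (P.g 0 2) (res P.F₂ hle x)
    have h2 := congrArg (ψ.app (X.basicOpen (P.g 0 2))) ht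
    rw [app_res, z0, res_zero, Hom.app_smul, app_res] at h2
    have hu : IsUnit (resO (X.basicOpen_le (P.g 0 2)) (P.g 0 2) ^ n) :=
      (AlgebraicGeometry.RingedSpace.isUnit_res_basicOpen _ (P.g 0 2)).pow n
    have h3 : res P.F₂ hle (ψ.app (P.U 2) x) = 0 :=
      (hu.smul_eq_zero).1 h2.symm
    apply P.res_inj P.F₂ 2 0 P.reg_F
    have h4 : P.U 2 ⊓ P.U 0 ≤ X.basicOpen (P.g 0 2) := by
      rw [P.basicOpen_g, inf_comm]
    have h5 := congrArg (res P.F₂ h4) h3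
    rwa [res_res, res_zero] at h5
  apply P.eq_zero_of_sections _ hqc hqc
  intro j x
  have hj : j = 0 ∨ j = 1 ∨ j = 2 := by omega
  rcases hj with rfl | rfl | rfl
  · exact z0 x
  · exact z1 x
  · exact z2 x

omit hf in
lemma not_isZero_F : ¬ IsZero P.F₂ := by
  intro h
  have hd := P.isDomain 0
  have h1 := subsingleton_of_isZero h (P.U 0)
  obtain ⟨c, hc1, hc2⟩ := P.rel_of (P.affine 0) (le_refl (P.U 0)) 1 0 (h1.elim _ _)
  rw [P.g_self, resO_one, mul_one, zero_eq_neg] at hc2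
  rw [hc2, zero_mul] at hc1
  exact one_ne_zero hc1

theorem simpleLike_F :
    SimpleLike f ((DerivedCategory.singleFunctor X.Modules 0).obj P.F₂) :=
  simpleLike_single f _ not_isZero_F (fun φ => end_F hf φ)

end PlaneK
end H18
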