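import Mathlib
import Pool.Agent.H18.PlaneK

/-! The plane has dimension two. -/

open CategoryTheory AlgebraicGeometry Limits TopologicalSpace

universe u

set_option maxHeartbeats 400000

namespace H18

lemma krullDim_le_of_cover {X : Type*} [TopologicalSpace X] {ι : Type*} (U : ι → Opens X)
    (hU : ⨆ j, U j = ⊤) (n : WithBot ℕ∞) (h : ∀ j, topologicalKrullDim (U j) ≤ n) :
    topologicalKrullDim X ≤ n := by
  rw [topologicalKrullDim, Order.krullDim_eq_iSup_coheight]
  apply iSup_le
  intro Z
  obtain ⟨x, hx⟩ := Z.isIrreducible.nonempty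
  have hx' : x ∈ ⨆ j, U j := by rw [hU]; trivial
  obtain ⟨j, hj⟩ := Opens.mem_iSup.1 hx'
  have he : Topology.IsOpenEmbedding (Subtype.val : U j → X) := (U j).isOpenEmbedding'
  obtain ⟨Z', hZ'⟩ := (IrreducibleCloseds.orderIsoOfIsOpenEmbedding _ he).surjective
    ⟨Z, ⟨⟨x, hj⟩, hx⟩⟩
  have hZ'' : IrreducibleCloseds.map _ he.continuous Z' = Z := congrArg Subtype.val hZ'
  rw [← hZ'', he.coheight_map]
  exact (Order.coheight_le_krullDim Z').trans (h j)

variable {X : Scheme.{u}}

lemma krullDim_affine {U : X.Opens} (hU : IsAffineOpen U) :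
    topologicalKrullDim U = ringKrullDim Γ(X, U) := by
  rw [← PrimeSpectrum.topologicalKrullDim_eq_ringKrullDim Γ(X, U)]
  change _ = topologicalKrullDim (Spec Γ(X, U))
  rw [← IsHomeomorph.topologicalKrullDim_eq _ hU.isoSpec.hom.homeomorph.isHomeomorph]

lemma PlaneK.krullDim_chart {k : Type u} [Field k] (P : PlaneK k X) (j : Fin 3) :
    topologicalKrullDim (P.U j) = 2 := by
  rw [krullDim_affine (P.affine j), ← ringKrullDim_eq_of_ringEquiv (P.φ j),
    MvPolynomial.ringKrullDim_of_isNoetherianRing, ringKrullDim_eq_zero_of_field]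
  simp

theorem PlaneK.krullDim {k : Type u} [Field k] (P : PlaneK k X) :
    topologicalKrullDim X = 2 := by
  apply le_antisymm
  · exact krullDim_le_of_cover P.U P.cover 2 (fun j => (P.krullDim_chart j).le)
  · rw [← P.krullDim_chart 0]
    exact topologicalKrullDim_subspace_le X (P.U 0)

end H18
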