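import Mathlib
import Pool.Agent.H18.Away
import Pool.Agent.H18.PlaneK

/-! The projective plane and its charts. -/

open CategoryTheory AlgebraicGeometry Limits TopologicalSpace HomogeneousLocalization

universe u

set_option maxHeartbeats 400000

namespace H18
variable (k : Type u) [Field k]

/-- the standard charts -/
noncomputable def UU (j : Fin 3) : (PP k).Opens := Proj.basicOpen (gr k) (MvPolynomial.X j)

/-- the overlaps -/
noncomputable def UO (j l : Fin 3) : (PP k).Opens :=
  Proj.basicOpen (gr k) (MvPolynomial.X j * MvPolynomial.X l)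

lemma UO_eq (j l : Fin 3) : UO k j l = UU k j ⊓ UU k l := Proj.basicOpen_mul _ _ _

lemma UU_affine (j : Fin 3) : IsAffineOpen (UU k j) :=
  Proj.isAffineOpen_basicOpen (gr k) _ (X_mem k j) one_pos

/-- functions on a chart -/
noncomputable def tos (j : Fin 3) (r : Away (gr k) (MvPolynomial.X j)) : Γ(PP k, UU k j) :=
  Proj.awayToSection (gr k) (MvPolynomial.X j) r

/-- functions on an overlap -/
noncomputable def too (j l : Fin 3)
    (r : Away (gr k) (MvPolynomial.X j * MvPolynomial.X l : MvPolynomial (Fin 3) k)) :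
    Γ(PP k, UO k j l) :=
  Proj.awayToSection (gr k) (MvPolynomial.X j * MvPolynomial.X l) r

noncomputable def am1 (j l : Fin 3) : Away (gr k) (MvPolynomial.X j) →+*
    Away (gr k) (MvPolynomial.X j * MvPolynomial.X l : MvPolynomial (Fin 3) k) :=
  awayMap (gr k) (X_mem k l) rfl

noncomputable def am2 (j l : Fin 3) : Away (gr k) (MvPolynomial.X l) →+*
    Away (gr k) (MvPolynomial.X j * MvPolynomial.X l : MvPolynomial (Fin 3) k) :=
  awayMap (gr k) (X_mem k j) (mul_comm _ _)

lemma UO_le_left (j l : Fin 3) : UO k j l ≤ UU k j := (UO_eq k j l).trans_le inf_le_left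
lemma UO_le_right (j l : Fin 3) : UO k j l ≤ UU k l := (UO_eq k j l).trans_le inf_le_right

lemma res_tos_left (j l : Fin 3) (r : Away (gr k) (MvPolynomial.X j)) :
    resO (UO_le_left k j l) (tos k j r) = too k j l (am1 k j l r) :=
  (congr($(Proj.awayMap_awayToSection (gr k) (f := MvPolynomial.X j) (g := MvPolynomial.X l)
    (X_mem k l) (x := MvPolynomial.X j * MvPolynomial.X l) rfl) r)).symm

lemma res_tos_right (j l : Fin 3) (r : Away (gr k) (MvPolynomial.X l)) :
    resO (UO_le_right k j l) (tos k l r) = too k j l (am2 k j l r) :=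
  (congr($(Proj.awayMap_awayToSection (gr k) (f := MvPolynomial.X l) (g := MvPolynomial.X j)
    (X_mem k j) (x := MvPolynomial.X j * MvPolynomial.X l) (mul_comm _ _)) r)).symm

lemma too_mul (j l : Fin 3)
    (a b : Away (gr k) (MvPolynomial.X j * MvPolynomial.X l : MvPolynomial (Fin 3) k)) :
    too k j l (a * b) = too k j l a * too k j l b :=
  map_mul (Proj.awayToSection (gr k) (MvPolynomial.X j * MvPolynomial.X l)).hom a b

lemma isUnit_loc_left (j l : Fin 3) :
    IsUnit (loc k (MvPolynomial.X j * MvPolynomial.X l) (MvPolynomial.X j)) :=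
  isUnit_of_dvd_unit (map_dvd _ ⟨_, rfl⟩) (isUnit_loc k _)

lemma isUnit_loc_right (j l : Fin 3) :
    IsUnit (loc k (MvPolynomial.X j * MvPolynomial.X l) (MvPolynomial.X l)) :=
  isUnit_of_dvd_unit (map_dvd _ ⟨_, mul_comm _ _⟩) (isUnit_loc k _)

lemma vl_am1_fr (j l a : Fin 3) :
    vl k _ (am1 k j l (fr k j a)) * loc k _ (MvPolynomial.X j) = loc k _ (MvPolynomial.X a) := by
  rw [vl_apply, am1, val_awayMap]
  have h := congrArg (Localization.awayLift (loc k (MvPolynomial.X j * MvPolynomial.X l))
    (MvPolynomial.X j) (isUnit_loc_left k j l)) (vl_fr k j a)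
  have h2 : ∀ F, (Localization.awayLift (loc k (MvPolynomial.X j * MvPolynomial.X l))
    (MvPolynomial.X j) (isUnit_loc_left k j l)) (loc k (MvPolynomial.X j) F) = loc k _ F :=
    fun F => IsLocalization.Away.lift_eq _ _ _
  rw [map_mul, h2, h2] at h
  exact h

lemma vl_am2_fr (j l a : Fin 3) :
    vl k _ (am2 k j l (fr k l a)) * loc k _ (MvPolynomial.X l) = loc k _ (MvPolynomial.X a) := by
  rw [vl_apply, am2, val_awayMap]
  have h := congrArg (Localization.awayLift (loc k (MvPolynomial.X j * MvPolynomial.X l))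
    (MvPolynomial.X l) (isUnit_loc_right k j l)) (vl_fr k l a)
  have h2 : ∀ F, (Localization.awayLift (loc k (MvPolynomial.X j * MvPolynomial.X l))
    (MvPolynomial.X l) (isUnit_loc_right k j l)) (loc k (MvPolynomial.X l) F) = loc k _ F :=
    fun F => IsLocalization.Away.lift_eq _ _ _
  rw [map_mul, h2, h2] at h
  exact h

lemma am_fr_mul (j l a : Fin 3) :
    am1 k j l (fr k j a) = am1 k j l (fr k j l) * am2 k j l (fr k l a) := by
  apply vl_injective
  apply (isUnit_loc_left k j l).mul_left_injective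
  simp only
  rw [map_mul]
  calc _ = _ := vl_am1_fr k j l a
    _ = _ := (vl_am2_fr k j l a).symm
    _ = vl k _ (am2 k j l (fr k l a)) *
      (vl k _ (am1 k j l (fr k j l)) * loc k _ (MvPolynomial.X j)) := by rw [vl_am1_fr]
    _ = _ := by ring

lemma am_sc (j l : Fin 3) (c : k) :
    am1 k j l (sc k _ c) = am2 k j l (sc k _ c) := by
  rw [am1, am2, sc, sc]
  simp only [RingHom.comp_apply]
  rw [awayMap_fromZeroRingHom, awayMap_fromZeroRingHom]

lemma basicOpen_tos (j a : Fin 3) :
    (PP k).basicOpen (tos k j (fr k j a)) = UU k j ⊓ UU k a := by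
  have h1 : (Proj.basicOpenToSpec (gr k) (MvPolynomial.X j)) ⁻¹ᵁ
      (PrimeSpectrum.basicOpen (fr k j a)) =
      (UU k j).ι ⁻¹ᵁ ((PP k).basicOpen (tos k j (fr k j a))) := by
    rw [Proj.basicOpenToSpec, Scheme.Hom.comp_preimage, SpecMap_preimage_basicOpen]
    exact Scheme.Opens.toSpecΓ_preimage_basicOpen _ _
  have h2 : (Proj.basicOpenToSpec (gr k) (MvPolynomial.X j)) ⁻¹ᵁ
      (PrimeSpectrum.basicOpen (fr k j a)) = (UU k j).ι ⁻¹ᵁ (UU k a) := by
    have h3 := Proj.awayι_preimage_basicOpen (gr k) (X_mem k j) one_pos (X_mem k a) one_pos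
    have h4 : Proj.basicOpenToSpec (gr k) (MvPolynomial.X j) ≫
        Proj.awayι (gr k) (MvPolynomial.X j) (X_mem k j) one_pos = (UU k j).ι := by
      rw [Proj.awayι, ← Proj.basicOpenIsoSpec_hom (gr k) _ (X_mem k j) one_pos,
        Iso.hom_inv_id_assoc]
      rfl
    rw [← h4]
    exact congrArg (fun V => (Proj.basicOpenToSpec (gr k) (MvPolynomial.X j)) ⁻¹ᵁ V) h3.symm
  have h5 := h1.symm.trans h2
  have h6 := congrArg (fun V => (UU k j).ι ''ᵁ V) h5
  simp only [Scheme.Hom.image_preimage_eq_opensRange_inf, Scheme.Opens.opensRange_ι] at h6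
  rw [← h6]
  exact (inf_eq_right.2 ((PP k).basicOpen_le _)).symm

lemma UU_cover : ⨆ j, UU k j = ⊤ := by
  apply Proj.iSup_basicOpen_eq_top' (gr k) (fun j : Fin 3 => (MvPolynomial.X j :
    MvPolynomial (Fin 3) k)) (fun j => ⟨1, X_mem k j⟩)
  rw [eq_top_iff]
  intro p _
  induction p using MvPolynomial.induction_on with
  | C a =>
    have : (MvPolynomial.C a : MvPolynomial (Fin 3) k) = algebraMap (gr k 0) _ (cz k a) := rfl
    rw [this]
    exact Subalgebra.algebraMap_mem _ _
  | add p q hp hq => exact add_mem (hp trivial) (hq trivial)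
  | mul_X p i hp => exact mul_mem (hp trivial) (Algebra.subset_adjoin ⟨i, rfl⟩)

/-- functions on a chart as a ring isomorphism -/
noncomputable def tosE (j : Fin 3) :
    Away (gr k) (MvPolynomial.X j) ≃+* Γ(PP k, UU k j) :=
  (Proj.basicOpenIsoAway (gr k) (MvPolynomial.X j) (X_mem k j) one_pos).commRingCatIsoToRingEquiv

lemma tosE_apply (j : Fin 3) (r : Away (gr k) (MvPolynomial.X j)) : tosE k j r = tos k j r := rfl

lemma resO_injective_of_eq {X : Scheme.{u}} {U V : X.Opens} (h : V ≤ U) (h' : U ≤ V) :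
    Function.Injective (resO h) := by
  intro a b hab
  have h2 : ∀ a : Γ(X, U), resO (le_refl U) a = a := fun a => by
    change (X.presheaf.map (𝟙 _)) a = a
    rw [X.presheaf.map_id]; rfl
  have := congrArg (resO h') hab
  rwa [resO_resO, resO_resO, h2, h2] at this

/-- The projective plane, with its charts. -/
noncomputable def planeP2 : PlaneK k (PP k) where
  U := UU k
  cover := UU_cover k
  affine := UU_affine k
  g j a := tos k j (fr k j a)
  g_self j := by
    rw [fr_self, ← tosE_apply, map_one]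
  g_mul j l a := by
    apply resO_injective_of_eq (UO_eq k j l).le (UO_eq k j l).ge
    rw [resO_mul, resO_resO, resO_resO, resO_resO, res_tos_left, res_tos_left, res_tos_right,
      ← too_mul, am_fr_mul]
  basicOpen_g := basicOpen_tos k
  noeth j := isNoetherianRing_of_ringEquiv _ ((dhEquiv k j).trans (tosE k j))
  φ j := (dhEquiv k j).trans (tosE k j)
  φ_X j i := by
    change tos k j (dh k j _) = _
    rw [dh, MvPolynomial.eval₂Hom_X']
  φ_C j l c := by
    apply resO_injective_of_eq (UO_eq k j l).le (UO_eq k j l).ge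
    change resO _ (resO _ (tos k j (dh k j _))) = resO _ (resO _ (tos k l (dh k l _)))
    rw [resO_resO, resO_resO, dh, dh, MvPolynomial.eval₂Hom_C, MvPolynomial.eval₂Hom_C,
      res_tos_left, res_tos_right, am_sc]

end H18
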