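import Mathlib
import Pool.Agent.H18.P2
import Pool.Agent.H18.EndP

/-! The structure morphism of the projective plane. -/

open CategoryTheory AlgebraicGeometry Limits TopologicalSpace HomogeneousLocalization

universe u

set_option maxHeartbeats 400000

namespace H18

lemma scalars_of_toSpecΓ {X : Scheme.{u}} {k : Type u} [Field k] (f : X ⟶ Spec (.of k))
    (U : X.Opens) (ψ : CommRingCat.of k ⟶ Γ(X, U)) (h : U.ι ≫ f = U.toSpecΓ ≫ Spec.map ψ)
    (c : k) : resO (le_top : U ≤ ⊤) (scalars f c) = ψ c := by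
  have h1 := congrArg Scheme.Hom.appTop h
  rw [Scheme.Hom.comp_appTop, Scheme.Hom.comp_appTop, Scheme.Opens.toSpecΓ_appTop] at h1
  have h2 : (Scheme.ΓSpecIso (.of k)).inv ≫ f.appTop ≫ U.ι.appTop ≫ U.topIso.hom = ψ := by
    have h3 := congrArg (fun t => (Scheme.ΓSpecIso (.of k)).inv ≫ t ≫ U.topIso.hom) h1
    simp only [Category.assoc, Iso.inv_hom_id, Category.comp_id] at h3
    rw [h3, ← Category.assoc, ← Scheme.ΓSpecIso_inv_naturality, Category.assoc, Iso.inv_hom_id,
      Category.comp_id]
  have h4 : U.ι.appTop ≫ U.topIso.hom = X.presheaf.map (homOfLE (le_top : U ≤ ⊤)).op := by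
    simp only [Scheme.Opens.ι_appTop, Scheme.Opens.topIso_hom]
    exact (X.presheaf.map_comp _ _).symm
  rw [h4] at h2
  exact congr($h2 c)

variable (k : Type u) [Field k]

lemma cz_bijective : Function.Bijective (cz k) := by
  constructor
  · intro a b h
    exact MvPolynomial.C_injective (Fin 3) k (congrArg Subtype.val h)
  · rintro ⟨p, hp⟩
    refine ⟨MvPolynomial.coeff 0 p, Subtype.ext ?_⟩
    have hp' : p.IsHomogeneous 0 := hp
    have h := MvPolynomial.totalDegree_eq_zero_iff_eq_C.1
      (Nat.le_zero.1 hp'.totalDegree_le)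
    exact h.symm

instance : Algebra.FiniteType (gr k 0) (MvPolynomial (Fin 3) k) := by
  classical
  refine ⟨⟨Finset.univ.image (MvPolynomial.X : Fin 3 → MvPolynomial (Fin 3) k), ?_⟩⟩
  rw [eq_top_iff]
  intro p _
  induction p using MvPolynomial.induction_on with
  | C a =>
    have : (MvPolynomial.C a : MvPolynomial (Fin 3) k) = algebraMap (gr k 0) _ (cz k a) := rfl
    rw [this]
    exact Subalgebra.algebraMap_mem _ _
  | add p q hp hq => exact add_mem (hp trivial) (hq trivial)
  | mul_X p i hp =>
    refine mul_mem (hp trivial) (Algebra.subset_adjoin ?_)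
    simp

instance : IsProper (str k) := by
  have h1 : IsIso (CommRingCat.ofHom (cz k)) :=
    (ConcreteCategory.isIso_iff_bijective _).2 (cz_bijective k)
  have h2 : IsIso (Spec.map (CommRingCat.ofHom (cz k))) := inferInstance
  rw [str]
  infer_instance

lemma structure_str : (planeP2 k).Structure (str k) := by
  intro j c
  have h4 : Proj.basicOpenToSpec (gr k) (MvPolynomial.X j) ≫
      Proj.awayι (gr k) (MvPolynomial.X j) (X_mem k j) one_pos =
        (Proj.basicOpen (gr k) (MvPolynomial.X j)).ι := by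
    rw [Proj.awayι, ← Proj.basicOpenIsoSpec_hom (gr k) _ (X_mem k j) one_pos,
      Iso.hom_inv_id_assoc]
  have h5 : (Proj.basicOpen (gr k) (MvPolynomial.X j)).ι ≫ str k =
      (Proj.basicOpen (gr k) (MvPolynomial.X j)).toSpecΓ ≫
      Spec.map (CommRingCat.ofHom (cz k) ≫
      CommRingCat.ofHom (fromZeroRingHom (gr k) (Submonoid.powers (MvPolynomial.X j))) ≫
        Proj.awayToSection (gr k) (MvPolynomial.X j)) := by
    rw [← h4, str, Category.assoc, Proj.awayι_toSpecZero_assoc, Proj.basicOpenToSpec,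
      Category.assoc]
    simp only [Spec.map_comp, Category.assoc]
  have h6 := scalars_of_toSpecΓ (str k) (Proj.basicOpen (gr k) (MvPolynomial.X j)) _ h5 c
  refine h6.trans ?_
  change tos k j (sc k _ c) = tos k j (dh k j (MvPolynomial.C c))
  rw [dh, MvPolynomial.eval₂Hom_C]

end H18
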