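import Mathlib
import Pool.Agent.H18.Unit
import Pool.Agent.H18.Defs
import Pool.Agent.H18.Dev

/-! Modules with a local resolution by retracts of finite free modules are perfect. -/

open CategoryTheory AlgebraicGeometry Limits Pretriangulated DerivedCategory ZeroObject

universe u

set_option maxHeartbeats 400000

namespace H18

attribute [local instance] Abelian.hasFiniteBiproducts

variable {X : Scheme.{u}}

/-- retract of a finite free module -/
def FreeRetract (M : X.Modules) : Prop :=
  ∃ n : ℕ, Nonempty (Retract M (⨁ fun _ : Fin n => OO X))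

lemma FreeRetract.of_retract {M N : X.Modules} (e : Retract M N) (h : FreeRetract N) :
    FreeRetract M := by
  obtain ⟨n, ⟨r⟩⟩ := h
  exact ⟨n, ⟨e.trans r⟩⟩

lemma FreeRetract.of_iso {M N : X.Modules} (e : M ≅ N) (h : FreeRetract N) :
    FreeRetract M := h.of_retract (Retract.ofIso e)

lemma FreeRetract.of_isZero {M : X.Modules} (h : IsZero M) : FreeRetract M :=
  ⟨0, ⟨{ i := 0, r := 0, retract := h.eq_of_src _ _ }⟩⟩

lemma FreeRetract.OO : FreeRetract (OO X) :=
  ⟨1, ⟨{ i := biproduct.ι (fun _ : Fin 1 => H18.OO X) 0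
         r := biproduct.π (fun _ : Fin 1 => H18.OO X) 0
         retract := biproduct.ι_π_self _ _ }⟩⟩

/-- a sum of two finite sums is a retract of a finite sum -/
noncomputable def retractSum (A : X.Modules) (m n : ℕ) :
    Retract ((⨁ fun _ : Fin m => A) ⊞ (⨁ fun _ : Fin n => A)) (⨁ fun _ : Fin (m + n) => A) where
  i := biprod.desc (biproduct.desc fun a => biproduct.ι (fun _ : Fin (m + n) => A) (Fin.castAdd n a))
    (biproduct.desc fun b => biproduct.ι (fun _ : Fin (m + n) => A) (Fin.natAdd m b))
  r := biproduct.desc (Fin.addCases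
    (fun a => biproduct.ι (fun _ : Fin m => A) a ≫ biprod.inl)
    (fun b => biproduct.ι (fun _ : Fin n => A) b ≫ biprod.inr))
  retract := by
    apply biprod.hom_ext'
    · apply biproduct.hom_ext'
      intro a
      rw [biprod.inl_desc_assoc, biproduct.ι_desc_assoc, biproduct.ι_desc, Fin.addCases_left,
        Category.comp_id]
    · apply biproduct.hom_ext'
      intro a
      rw [biprod.inr_desc_assoc, biproduct.ι_desc_assoc, biproduct.ι_desc, Fin.addCases_right,
        Category.comp_id]

lemma FreeRetract.biprod {M N : X.Modules} (h1 : FreeRetract M) (h2 : FreeRetract N) :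
    FreeRetract (M ⊞ N) := by
  obtain ⟨m, ⟨r⟩⟩ := h1
  obtain ⟨n, ⟨s⟩⟩ := h2
  refine ⟨m + n, ⟨Retract.trans (Y := (⨁ fun _ : Fin m => H18.OO X) ⊞ (⨁ fun _ : Fin n => H18.OO X))
    { i := biprod.map r.i s.i
      r := biprod.map r.r s.r
      retract := ?_ } (retractSum _ m n)⟩⟩
  apply biprod.hom_ext
  · rw [Category.assoc, biprod.map_fst, biprod.map_fst_assoc, r.retract, Category.comp_id,
      Category.id_comp]
  · rw [Category.assoc, biprod.map_snd, biprod.map_snd_assoc, s.retract, Category.comp_id,
      Category.id_comp]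

lemma freeRetract_single {M : X.Modules} (h : FreeRetract M) (i : ℤ) :
    FreeRetract (((CochainComplex.singleFunctor X.Modules 0).obj M).X i) := by
  by_cases hi : i = 0
  · subst hi
    exact h.of_iso (HomologicalComplex.singleObjXSelf (ComplexShape.up ℤ) 0 M)
  · exact .of_isZero (HomologicalComplex.isZero_single_obj_X (ComplexShape.up ℤ) 0 M i hi)

/-- The strictly perfect complex of a resolution. -/
lemma exists_strictlyPerfect {S : ShortComplex X.Modules} (hS : S.ShortExact)
    (h1 : FreeRetract S.X₁) (h2 : FreeRetract S.X₂) :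
    ∃ E : CochainComplex X.Modules ℤ, IsStrictlyPerfect E ∧
      Nonempty ((DerivedCategory.singleFunctor X.Modules 0).obj S.X₃ ≅ Q.obj E) := by
  have hS' := hS.map_of_exact (HomologicalComplex.single X.Modules (ComplexShape.up ℤ) 0)
  have hq := CochainComplex.mappingCone.quasiIso_descShortComplex hS'
  refine ⟨CochainComplex.mappingCone ((HomologicalComplex.single X.Modules (ComplexShape.up ℤ) 0).map S.f),
    ⟨⟨-1, 0, ?_⟩, ?_⟩, ⟨?_⟩⟩
  · intro i hi
    refine IsZero.of_iso ?_ (HomologicalComplex.homotopyCofiber.XIsoBiprod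
      ((HomologicalComplex.single X.Modules (ComplexShape.up ℤ) 0).map S.f) i (i + 1) rfl)
    rw [biprod_isZero_iff]
    exact ⟨HomologicalComplex.isZero_single_obj_X (ComplexShape.up ℤ) 0 _ _ (by omega),
      HomologicalComplex.isZero_single_obj_X (ComplexShape.up ℤ) 0 _ _ (by omega)⟩
  · intro i
    refine FreeRetract.of_iso (HomologicalComplex.homotopyCofiber.XIsoBiprod
      ((HomologicalComplex.single X.Modules (ComplexShape.up ℤ) 0).map S.f) i (i + 1) rfl) ?_
    exact (freeRetract_single h1 _).biprod (freeRetract_single h2 _)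
  · exact (asIso (Q.map (CochainComplex.mappingCone.descShortComplex
      (S.map (HomologicalComplex.single X.Modules (ComplexShape.up ℤ) 0))))).symm

/-- A module with local resolutions by retracts of finite free modules is perfect. -/
theorem isPerfect_of_local (M : X.Modules)
    (h : ∀ x : X, ∃ U : X.Opens, x ∈ U ∧ ∃ S : ShortComplex (U : Scheme.{u}).Modules,
      S.ShortExact ∧ Nonempty (M.restrict U.ι ≅ S.X₃) ∧ FreeRetract S.X₁ ∧ FreeRetract S.X₂) :
    IsPerfect ((DerivedCategory.singleFunctor X.Modules 0).obj M) := by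
  intro x
  obtain ⟨U, hx, S, hS, ⟨e⟩, h1, h2⟩ := h x
  obtain ⟨E, hE, ⟨e'⟩⟩ := exists_strictlyPerfect hS h1 h2
  refine ⟨U, hx, E, hE, ⟨?_⟩⟩
  exact ((Scheme.Modules.restrictFunctor U.ι).mapDerivedCategorySingleFunctor 0).app M ≪≫
    (DerivedCategory.singleFunctor (U : Scheme.{u}).Modules 0).mapIso e ≪≫ e'

end H18
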