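import Mathlib
import Pool.Agent.H18.PerfRes
import Pool.Agent.H18.Gen

/-! The two objects are perfect. -/

open CategoryTheory AlgebraicGeometry Limits Pretriangulated DerivedCategory ZeroObject
  Scheme.Modules

universe u

set_option maxHeartbeats 400000

namespace H18

variable {X : Scheme.{u}}

lemma Plane.freeRetract_restrict (P : Plane X) (n : ℕ) (j : Fin 3) :
    FreeRetract ((lin (P.coc n)).restrict (P.U j).ι) := by
  have := isIso_linTriv (P.U j).ι (P.coc n) j (Scheme.Opens.opensRange_ι _).le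
  exact FreeRetract.OO.of_iso (asIso (linTriv (P.U j).ι (P.coc n) j
    (Scheme.Opens.opensRange_ι _).le)).symm

lemma Plane.exists_mem (P : Plane X) (x : X) : ∃ j, x ∈ P.U j := by
  have : x ∈ ⨆ j, P.U j := by rw [P.cover]; trivial
  exact TopologicalSpace.Opens.mem_iSup.1 this

lemma isPerfect_of_freeRetract (M : X.Modules)
    (h : ∀ x : X, ∃ U : X.Opens, x ∈ U ∧ FreeRetract (M.restrict U.ι)) :
    IsPerfect ((DerivedCategory.singleFunctor X.Modules 0).obj M) := by
  apply isPerfect_of_local
  intro x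
  obtain ⟨U, hx, hU⟩ := h x
  refine ⟨U, hx, _, shortExact_cokernel (0 : (0 : (U : Scheme.{u}).Modules) ⟶ M.restrict U.ι),
    ⟨?_⟩, .of_isZero (isZero_zero _), hU⟩
  exact cokernelZeroIsoTarget.symm

namespace PlaneK
variable {k : Type u} [Field k] (P : PlaneK k X)

theorem isPerfect_L (n : ℕ) :
    IsPerfect ((DerivedCategory.singleFunctor X.Modules 0).obj (P.T0.R n)) := by
  apply isPerfect_of_freeRetract
  intro x
  obtain ⟨j, hj⟩ := P.exists_mem x
  exact ⟨P.U j, hj, P.toPlane.freeRetract_restrict n j⟩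

theorem isPerfect_F₂ :
    IsPerfect ((DerivedCategory.singleFunctor X.Modules 0).obj P.F₂) := by
  apply isPerfect_of_local
  intro x
  obtain ⟨j, hj⟩ := P.exists_mem x
  refine ⟨P.U j, hj, _, (shortExact_cokernel P.inc).map_of_exact (restrictFunctor (P.U j).ι),
    ⟨Iso.refl _⟩, P.toPlane.freeRetract_restrict 3 j, ?_⟩
  have h1 := preservesBinaryBiproducts_of_preservesBiproducts (restrictFunctor (P.U j).ι)
  refine FreeRetract.of_iso ((restrictFunctor (P.U j).ι).mapBiprod (P.T0.R 1) (P.T0.R 2)) ?_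
  exact (P.toPlane.freeRetract_restrict 1 j).biprod (P.toPlane.freeRetract_restrict 2 j)

end PlaneK
end H18
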